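import Pool.Agent.R574.LS.Par
import Pool.Agent.W937.FG.Defs

set_option autoImplicit false

/-!
Left forbidding E0L grammars simulate automata with counters and decrement errors.
-/

namespace Pool.Agent.R574.LS.Auto

open Relation Pool.Agent.R574.LS
open Pool.Agent.W937.FG (Op ExecO Path)

variable {T K Q : Type} [DecidableEq K]

theorem path_trans {e : Bool} {δ : Set (Q × Op T K × Q)} {q q' q'' : Q} {s s' s'' : K → ℕ}
    {w x : List T} (h1 : Path e δ q s w q' s') (h2 : Path e δ q' s' x q'' s'') :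
    Path e δ q s (w ++ x) q'' s'' := by
  induction h1 with
  | refl q s => simpa using h2
  | step hδ h3 _ ih =>
    rw [List.append_assoc]
    exact Path.step hδ h3 (ih h2)

theorem path_snoc {e : Bool} {δ : Set (Q × Op T K × Q)} {q q' q'' : Q} {s s' s'' : K → ℕ}
    {w x : List T} {o : Op T K} (h1 : Path e δ q s w q' s') (hδ : (q', o, q'') ∈ δ)
    (h2 : ExecO e o s' x s'') : Path e δ q s (w ++ x) q'' s'' := by
  refine path_trans h1 ?_
  have := Pool.Agent.W937.FG.Path.step hδ h2 (Pool.Agent.W937.FG.Path.refl q'' s'')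
  simpa using this

/-- the nonterminals: outputs, counters, states, transitions and the final symbol -/
inductive NT (T K Q E : Type)
  | out (c : T)
  | cnt (i : K)
  | st (q : Q)
  | tr (e : E)
  | fin

section gram

variable (δ : Set (Q × Op T K × Q)) (q0 qf : Q)

abbrev E : Type := {d // d ∈ δ}

abbrev N : Type := NT T K Q (E δ)

abbrev Sym : Type := N δ ⊕ T

/-- the result of a transition -/
def res (d : E δ) : List (Sym δ) :=
  match d.1.2.1 with
  | Op.inc i => [Sum.inl (NT.st d.1.2.2), Sum.inl (NT.cnt i)]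
  | Op.out c => [Sum.inl (NT.out c), Sum.inl (NT.st d.1.2.2)]
  | _ => [Sum.inl (NT.st d.1.2.2)]

/-- the letters which forbid to keep the counter letter `i` -/
def Wk (i : K) : Set (N δ) := {x | x = NT.fin ∨ ∃ d : E δ, x = NT.tr d ∧ d.1.2.1 = Op.zero i}

/-- the letters which forbid to erase the counter letter `i` -/
def We (i : K) : Set (N δ) :=
  {x | x = NT.fin ∨ x = NT.cnt i ∨ (∃ q, x = NT.st q) ∨
    ∃ d : E δ, x = NT.tr d ∧ d.1.2.1 ≠ Op.dec i}

/-- the rules -/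
def rules : Set (Sym δ × List (Sym δ) × Set (N δ) × Set (N δ)) :=
  {r | (∃ c, r = (Sum.inl (NT.out c), [Sum.inl (NT.out c)], ∅, ∅)) ∨
    (∃ c, r = (Sum.inl (NT.out c), [Sum.inr c], ∅, ∅)) ∨
    (∃ i, r = (Sum.inl (NT.cnt i), [Sum.inl (NT.cnt i)], ∅, Wk δ i)) ∨
    (∃ i, r = (Sum.inl (NT.cnt i), [], ∅, We δ i)) ∨
    (∃ d : E δ, r = (Sum.inl (NT.st d.1.1), [Sum.inl (NT.tr d)], ∅, ∅)) ∨
    (r = (Sum.inl (NT.st qf), [Sum.inl NT.fin], ∅, ∅)) ∨
    (∃ d : E δ, r = (Sum.inl (NT.tr d), res δ d, ∅, ∅)) ∨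
    (r = (Sum.inl NT.fin, [], ∅, ∅))}

omit [DecidableEq K] in
theorem finite_N [Finite T] [Finite K] [Finite Q] (hδ : δ.Finite) : Finite (N δ) := by
  have h1 : Finite (E δ) := hδ.to_subtype
  let f : N δ → (T ⊕ K) ⊕ (Q ⊕ E δ) ⊕ Unit
    | NT.out c => Sum.inl (Sum.inl c)
    | NT.cnt i => Sum.inl (Sum.inr i)
    | NT.st q => Sum.inr (Sum.inl (Sum.inl q))
    | NT.tr d => Sum.inr (Sum.inl (Sum.inr d))
    | NT.fin => Sum.inr (Sum.inr ())
  refine Finite.of_injective f ?_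
  intro a b h
  cases a <;> cases b <;> simp [f] at h ⊢ <;> exact h

omit [DecidableEq K] in
theorem finite_rules [Finite T] [Finite K] [Finite Q] (hδ : δ.Finite) :
    (rules δ qf).Finite := by
  have h1 : Finite (E δ) := hδ.to_subtype
  have e1 := Set.finite_range (fun c : T =>
    ((Sum.inl (NT.out c), [Sum.inl (NT.out c)], ∅, ∅) :
      Sym δ × List (Sym δ) × Set (N δ) × Set (N δ)))
  have e2 := Set.finite_range (fun c : T =>
    ((Sum.inl (NT.out c), [Sum.inr c], ∅, ∅) :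
      Sym δ × List (Sym δ) × Set (N δ) × Set (N δ)))
  have e3 := Set.finite_range (fun i : K =>
    ((Sum.inl (NT.cnt i), [Sum.inl (NT.cnt i)], ∅, Wk δ i) :
      Sym δ × List (Sym δ) × Set (N δ) × Set (N δ)))
  have e4 := Set.finite_range (fun i : K =>
    ((Sum.inl (NT.cnt i), [], ∅, We δ i) :
      Sym δ × List (Sym δ) × Set (N δ) × Set (N δ)))
  have e5 := Set.finite_range (fun d : E δ =>
    ((Sum.inl (NT.st d.1.1), [Sum.inl (NT.tr d)], ∅, ∅) :
      Sym δ × List (Sym δ) × Set (N δ) × Set (N δ)))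
  have e6 := Set.finite_singleton
    ((Sum.inl (NT.st qf), [Sum.inl NT.fin], ∅, ∅) :
      Sym δ × List (Sym δ) × Set (N δ) × Set (N δ))
  have e7 := Set.finite_range (fun d : E δ =>
    ((Sum.inl (NT.tr d), res δ d, ∅, ∅) :
      Sym δ × List (Sym δ) × Set (N δ) × Set (N δ)))
  have e8 := Set.finite_singleton
    ((Sum.inl NT.fin, [], ∅, ∅) : Sym δ × List (Sym δ) × Set (N δ) × Set (N δ))
  refine (((((((e1.union e2).union e3).union e4).union e5).union e6).union e7).union e8).subset ?_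
  rintro r (⟨c, rfl⟩ | ⟨c, rfl⟩ | ⟨c, rfl⟩ | ⟨c, rfl⟩ | ⟨c, rfl⟩ | rfl | ⟨c, rfl⟩ | rfl)
  · exact Or.inl (Or.inl (Or.inl (Or.inl (Or.inl (Or.inl (Or.inl ⟨c, rfl⟩))))))
  · exact Or.inl (Or.inl (Or.inl (Or.inl (Or.inl (Or.inl (Or.inr ⟨c, rfl⟩))))))
  · exact Or.inl (Or.inl (Or.inl (Or.inl (Or.inl (Or.inr ⟨c, rfl⟩)))))
  · exact Or.inl (Or.inl (Or.inl (Or.inl (Or.inr ⟨c, rfl⟩))))
  · exact Or.inl (Or.inl (Or.inl (Or.inr ⟨c, rfl⟩)))
  · exact Or.inl (Or.inl (Or.inr rfl))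
  · exact Or.inl (Or.inr ⟨c, rfl⟩)
  · exact Or.inr rfl

/-- the grammar -/
def G [Finite T] [Finite K] [Finite Q] (hδ : δ.Finite) : LRC T where
  N := N δ
  finite_N := finite_N δ hδ
  rules := rules δ qf
  finite_rules := finite_rules δ qf hδ
  ax := [Sum.inl (NT.st q0)]
  ax_ne := by simp

omit [DecidableEq K] in
theorem leftForbidding [Finite T] [Finite K] [Finite Q] (hδ : δ.Finite) :
    (G δ q0 qf hδ).LeftForbidding := by
  intro r hr
  have hr' : r ∈ rules δ qf := hr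
  rcases hr' with ⟨c, rfl⟩ | ⟨c, rfl⟩ | ⟨c, rfl⟩ | ⟨c, rfl⟩ | ⟨c, rfl⟩ | rfl | ⟨c, rfl⟩ | rfl <;>
    rfl

/-! ### inversion of the rules -/

variable {δ q0 qf}

omit [DecidableEq K] in
theorem inv_out {c : T} {y : List (Sym δ)} {U W : Set (N δ)}
    (h : (Sum.inl (NT.out c), y, U, W) ∈ rules δ qf) :
    y = [Sum.inl (NT.out c)] ∨ y = [Sum.inr c] := by
  rcases h with ⟨c, h⟩ | ⟨c, h⟩ | ⟨c, h⟩ | ⟨c, h⟩ | ⟨c, h⟩ | h | ⟨c, h⟩ | h <;>
    simp only [Prod.mk.injEq, Sum.inl.injEq, NT.out.injEq, reduceCtorEq, false_and] at h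
  · obtain ⟨rfl, rfl, _⟩ := h
    exact Or.inl rfl
  · obtain ⟨rfl, rfl, _⟩ := h
    exact Or.inr rfl

omit [DecidableEq K] in
theorem inv_cnt {i : K} {y : List (Sym δ)} {U W : Set (N δ)}
    (h : (Sum.inl (NT.cnt i), y, U, W) ∈ rules δ qf) :
    (y = [Sum.inl (NT.cnt i)] ∧ W = Wk δ i) ∨ (y = [] ∧ W = We δ i) := by
  rcases h with ⟨c, h⟩ | ⟨c, h⟩ | ⟨c, h⟩ | ⟨c, h⟩ | ⟨c, h⟩ | h | ⟨c, h⟩ | h <;>
    simp only [Prod.mk.injEq, Sum.inl.injEq, NT.cnt.injEq, reduceCtorEq, false_and] at h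
  · obtain ⟨rfl, rfl, _, rfl⟩ := h
    exact Or.inl ⟨rfl, rfl⟩
  · obtain ⟨rfl, rfl, _, rfl⟩ := h
    exact Or.inr ⟨rfl, rfl⟩

omit [DecidableEq K] in
theorem inv_st {q : Q} {y : List (Sym δ)} {U W : Set (N δ)}
    (h : (Sum.inl (NT.st q), y, U, W) ∈ rules δ qf) :
    (∃ d : E δ, d.1.1 = q ∧ y = [Sum.inl (NT.tr d)]) ∨ (q = qf ∧ y = [Sum.inl NT.fin]) := by
  rcases h with ⟨c, h⟩ | ⟨c, h⟩ | ⟨c, h⟩ | ⟨c, h⟩ | ⟨c, h⟩ | h | ⟨c, h⟩ | h <;>
    simp only [Prod.mk.injEq, Sum.inl.injEq, NT.st.injEq, reduceCtorEq, false_and] at h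
  · obtain ⟨rfl, rfl, _, rfl⟩ := h
    exact Or.inl ⟨c, rfl, rfl⟩
  · obtain ⟨rfl, rfl, _, rfl⟩ := h
    exact Or.inr ⟨rfl, rfl⟩

omit [DecidableEq K] in
theorem inv_tr {d : E δ} {y : List (Sym δ)} {U W : Set (N δ)}
    (h : (Sum.inl (NT.tr d), y, U, W) ∈ rules δ qf) : y = res δ d := by
  rcases h with ⟨c, h⟩ | ⟨c, h⟩ | ⟨c, h⟩ | ⟨c, h⟩ | ⟨c, h⟩ | h | ⟨c, h⟩ | h <;>
    simp only [Prod.mk.injEq, Sum.inl.injEq, NT.tr.injEq, reduceCtorEq, false_and] at h
  obtain ⟨rfl, rfl, _, rfl⟩ := h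
  rfl

omit [DecidableEq K] in
theorem inv_fin {y : List (Sym δ)} {U W : Set (N δ)}
    (h : (Sum.inl NT.fin, y, U, W) ∈ rules δ qf) : y = [] := by
  rcases h with ⟨c, h⟩ | ⟨c, h⟩ | ⟨c, h⟩ | ⟨c, h⟩ | ⟨c, h⟩ | h | ⟨c, h⟩ | h <;>
    simp only [Prod.mk.injEq, Sum.inl.injEq, reduceCtorEq, false_and] at h
  exact h.2.1

omit [DecidableEq K] in
theorem inv_term {t : T} {y : List (Sym δ)} {U W : Set (N δ)}
    (h : (Sum.inr t, y, U, W) ∈ rules δ qf) : False := by
  rcases h with ⟨c, h⟩ | ⟨c, h⟩ | ⟨c, h⟩ | ⟨c, h⟩ | ⟨c, h⟩ | h | ⟨c, h⟩ | h <;>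
    simp only [Prod.mk.injEq, reduceCtorEq, false_and] at h

/-- output letters -/
def outs (δ : Set (Q × Op T K × Q)) (w : List T) : List (Sym δ) :=
  w.map (fun c => Sum.inl (NT.out c))

/-- counter letters -/
def cnts (δ : Set (Q × Op T K × Q)) (cs : List K) : List (Sym δ) :=
  cs.map (fun i => Sum.inl (NT.cnt i))

/-- some terminal symbol occurs -/
def HasT (u : List (Sym δ)) : Prop := ∃ x : T, Sum.inr x ∈ u

omit [DecidableEq K] in
theorem par_not_hasT {l u v : List (Sym δ)} (h : Par (rules δ qf) l u v) : ¬ HasT u := by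
  rintro ⟨x, hx⟩
  induction h with
  | nil l => simp at hx
  | cons h1 h2 h3 h4 ih =>
    rcases List.mem_cons.mp hx with h5 | h5
    · subst h5
      exact inv_term h1
    · exact ih h5

omit [DecidableEq K] in
theorem par_outs {l v : List (Sym δ)} {w : List T} (h : Par (rules δ qf) l (outs δ w) v) :
    (v = outs δ w ∨ HasT v) ∧
      ((∀ x ∈ v, ∃ t : T, x = Sum.inr t) → v = w.map Sum.inr) := by
  induction w generalizing l v with
  | nil =>
    have := par_nil_inv h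
    subst this
    exact ⟨Or.inl rfl, fun _ => rfl⟩
  | cons c w ih =>
    have h' : Par (rules δ qf) l (Sum.inl (NT.out c) :: outs δ w) v := h
    obtain ⟨y, U, W, v', h1, h2, h3, h4, rfl⟩ := par_cons_inv h'
    obtain ⟨h5, h6⟩ := ih h4
    rcases inv_out h1 with rfl | rfl
    · refine ⟨?_, ?_⟩
      · rcases h5 with rfl | ⟨x, hx⟩
        · exact Or.inl rfl
        · exact Or.inr ⟨x, List.mem_append_right _ hx⟩
      · intro h7
        obtain ⟨t, ht⟩ := h7 (Sum.inl (NT.out c)) (by simp)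
        exact absurd ht (by simp)
    · refine ⟨Or.inr ⟨c, by simp⟩, ?_⟩
      intro h7
      rw [h6 (fun x hx => h7 x (List.mem_append_right _ hx))]
      rfl

/-- the letters of `l` which are states, transitions, or the final symbol: only `x` -/
def Only (x : N δ) (l : List (Sym δ)) : Prop :=
  Sum.inl x ∈ l ∧ (∀ q, Sum.inl (NT.st q) ∈ l → NT.st q = x) ∧
    (∀ d, Sum.inl (NT.tr d) ∈ l → NT.tr d = x) ∧ (Sum.inl NT.fin ∈ l → NT.fin = x)

omit [DecidableEq K] in
theorem only_snoc {x : N δ} {l : List (Sym δ)} (h : Only x l) (i : K) :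
    Only x (l ++ [Sum.inl (NT.cnt i)]) := by
  obtain ⟨h1, h2, h3, h4⟩ := h
  refine ⟨List.mem_append_left _ h1, ?_, ?_, ?_⟩
  · intro q hq
    rcases List.mem_append.mp hq with h5 | h5
    · exact h2 q h5
    · simp at h5
  · intro d hd
    rcases List.mem_append.mp hd with h5 | h5
    · exact h3 d h5
    · simp at h5
  · intro hd
    rcases List.mem_append.mp hd with h5 | h5
    · exact h4 h5
    · simp at h5

omit [DecidableEq K] in
theorem only_outs {x : N δ} (hx : (∃ q, x = NT.st q) ∨ (∃ d, x = NT.tr d) ∨ x = NT.fin)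
    (w : List T) : Only x ([] ++ outs δ w ++ [Sum.inl x]) := by
  refine ⟨by simp, ?_, ?_, ?_⟩
  · intro q hq
    simpa [outs] using hq
  · intro q hq
    simpa [outs] using hq
  · intro hq
    simpa [outs] using hq

theorem par_cnts {l v : List (Sym δ)} {cs : List K} {x : N δ}
    (hx : (∃ q, x = NT.st q) ∨ (∃ d, x = NT.tr d) ∨ x = NT.fin) (hl : Only x l)
    (h : Par (rules δ qf) l (cnts δ cs) v) :
    (v = cnts δ cs ∧ (x = NT.fin → cs = []) ∧
      (∀ (d : E δ) (i : K), x = NT.tr d → d.1.2.1 = Op.zero i → i ∉ cs)) ∨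
    (∃ (d : E δ) (i : K), x = NT.tr d ∧ d.1.2.1 = Op.dec i ∧ Sum.inl (NT.cnt i) ∉ l ∧ i ∈ cs ∧
      v = cnts δ (cs.erase i)) := by
  induction cs generalizing l v with
  | nil =>
    have := par_nil_inv h
    subst this
    exact Or.inl ⟨rfl, fun _ => rfl, fun _ _ _ _ => by simp⟩
  | cons j cs ih =>
    have h' : Par (rules δ qf) l (Sum.inl (NT.cnt j) :: cnts δ cs) v := h
    obtain ⟨y, U, W, v', h1, h2, h3, h4, rfl⟩ := par_cons_inv h'
    have h5 := ih (only_snoc hl j) h4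
    rcases inv_cnt h1 with ⟨rfl, rfl⟩ | ⟨rfl, rfl⟩
    · have h6 : x ≠ NT.fin := by
        rintro rfl
        exact h3 NT.fin (Or.inl rfl) hl.1
      have h7 : ∀ (d : E δ) (i : K), x = NT.tr d → d.1.2.1 = Op.zero i → i ≠ j := by
        rintro d i rfl h8 rfl
        exact h3 (NT.tr d) (Or.inr ⟨d, rfl, h8⟩) hl.1
      rcases h5 with ⟨rfl, h8, h9⟩ | ⟨d, i, h8, h9, h10, h11, rfl⟩
      · refine Or.inl ⟨rfl, fun h => absurd h h6, ?_⟩
        intro d i hd hi hm
        rcases List.mem_cons.mp hm with h10 | h10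
        · exact h7 d i hd hi h10
        · exact h9 d i hd hi h10
      · have h12 : j ≠ i := by
          rintro rfl
          exact h10 (by simp)
        refine Or.inr ⟨d, i, h8, h9, fun h => h10 (List.mem_append_left _ h),
          List.mem_cons_of_mem _ h11, ?_⟩
        rw [List.erase_cons_tail (by simpa using h12)]
        rfl
    · have h6 : ∃ d : E δ, x = NT.tr d ∧ d.1.2.1 = Op.dec j := by
        have h7 : x ∉ We δ j := fun h => h3 x h hl.1
        rcases hx with ⟨q, rfl⟩ | ⟨d, rfl⟩ | rfl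
        · exact absurd (Or.inr (Or.inr (Or.inl ⟨q, rfl⟩))) h7
        · refine ⟨d, rfl, ?_⟩
          by_contra hd
          exact h7 (Or.inr (Or.inr (Or.inr ⟨d, rfl, hd⟩)))
        · exact absurd (Or.inl rfl) h7
      obtain ⟨d, rfl, hd⟩ := h6
      have h8 : Sum.inl (NT.cnt j) ∉ l := h3 (NT.cnt j) (Or.inr (Or.inl rfl))
      rcases h5 with ⟨rfl, h9, h10⟩ | ⟨d', i, h9, h10, h11, h12, rfl⟩
      · refine Or.inr ⟨d, j, rfl, hd, h8, List.mem_cons_self, ?_⟩
        rw [List.erase_cons_head]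
        rfl
      · exfalso
        have h13 : d = d' := by simpa using h9
        subst h13
        rw [hd] at h10
        have h14 : j = i := by simpa using h10
        subst h14
        exact h11 (by simp)

/-- register contents -/
def cn (cs : List K) : K → ℕ := fun i => cs.count i

theorem cn_nil : cn ([] : List K) = fun _ => 0 := by
  funext i
  simp [cn]

theorem cn_cons (i : K) (cs : List K) : cn (i :: cs) = Function.update (cn cs) i (cn cs i + 1) := by
  funext j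
  by_cases h : j = i
  · subst h
    simp [cn]
  · rw [Function.update_of_ne h]
    simp only [cn]
    rw [List.count_cons_of_ne (fun h' => h h'.symm)]

theorem cn_erase (i : K) (cs : List K) :
    cn (cs.erase i) = Function.update (cn cs) i (cn cs i - 1) := by
  funext j
  by_cases h : j = i
  · subst h
    simp [cn, List.count_erase_self]
  · rw [Function.update_of_ne h]
    simp only [cn]
    rw [List.count_erase_of_ne h]

/-- the invariant -/
def Inv (δ : Set (Q × Op T K × Q)) (q0 qf : Q) (u : List (Sym δ)) : Prop :=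
  (∃ w q cs, u = outs δ w ++ Sum.inl (NT.st q) :: cnts δ cs ∧
    Pool.Agent.W937.FG.Path true δ q0 (fun _ => 0) w q (cn cs)) ∨
  (∃ w d cs, u = outs δ w ++ Sum.inl (NT.tr d) :: cnts δ cs ∧
    Pool.Agent.W937.FG.Path true δ q0 (fun _ => 0) w d.1.1 (cn cs)) ∨
  (∃ w cs, u = outs δ w ++ Sum.inl NT.fin :: cnts δ cs ∧
    Pool.Agent.W937.FG.Path true δ q0 (fun _ => 0) w qf (cn cs)) ∨
  (∃ w, u = outs δ w ∧ Pool.Agent.W937.FG.Path true δ q0 (fun _ => 0) w qf (fun _ => 0)) ∨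
  (HasT u ∧ ((∀ x ∈ u, ∃ t : T, x = Sum.inr t) → ∃ w, u = w.map Sum.inr ∧
    Pool.Agent.W937.FG.Path true δ q0 (fun _ => 0) w qf (fun _ => 0)))

theorem inv_step {u v : List (Sym δ)} (hu : Inv δ q0 qf u) (h : Par (rules δ qf) [] u v) :
    Inv δ q0 qf v := by
  rcases hu with ⟨w, q, cs, rfl, hp⟩ | ⟨w, d, cs, rfl, hp⟩ | ⟨w, cs, rfl, hp⟩ | ⟨w, rfl, hp⟩ |
    ⟨h1, h2⟩
  · obtain ⟨v1, v2, rfl, h1, h2⟩ := (par_append _ _ _ _).mp h
    obtain ⟨y, U, W, v3, h3, h4, h5, h6, rfl⟩ := par_cons_inv h2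
    have hx : (∃ q' : Q, (NT.st q : N δ) = NT.st q') ∨ (∃ d, (NT.st q : N δ) = NT.tr d) ∨
      (NT.st q : N δ) = NT.fin := Or.inl ⟨q, rfl⟩
    have h7 := par_cnts hx (only_outs hx w) h6
    have h8 : v3 = cnts δ cs := by
      rcases h7 with ⟨h8, _⟩ | ⟨d, i, h8, _⟩
      · exact h8
      · exact absurd h8 (by simp)
    subst h8
    obtain ⟨h9, h10⟩ := par_outs h1
    rcases inv_st h3 with ⟨d, rfl, rfl⟩ | ⟨rfl, rfl⟩
    · rcases h9 with rfl | ⟨x, hx'⟩
      · exact Or.inr (Or.inl ⟨w, d, cs, rfl, hp⟩)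
      · refine Or.inr (Or.inr (Or.inr (Or.inr ⟨⟨x, List.mem_append_left _ hx'⟩, ?_⟩)))
        intro h11
        obtain ⟨t, ht⟩ := h11 (Sum.inl (NT.tr d)) (by simp)
        exact absurd ht (by simp)
    · rcases h9 with rfl | ⟨x, hx'⟩
      · exact Or.inr (Or.inr (Or.inl ⟨w, cs, rfl, hp⟩))
      · refine Or.inr (Or.inr (Or.inr (Or.inr ⟨⟨x, List.mem_append_left _ hx'⟩, ?_⟩)))
        intro h11
        obtain ⟨t, ht⟩ := h11 (Sum.inl NT.fin) (by simp)
        exact absurd ht (by simp)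
  · obtain ⟨v1, v2, rfl, h1, h2⟩ := (par_append _ _ _ _).mp h
    obtain ⟨y, U, W, v3, h3, h4, h5, h6, rfl⟩ := par_cons_inv h2
    have hx : (∃ q' : Q, (NT.tr d : N δ) = NT.st q') ∨ (∃ d', (NT.tr d : N δ) = NT.tr d') ∨
      (NT.tr d : N δ) = NT.fin := Or.inr (Or.inl ⟨d, rfl⟩)
    have h7 := par_cnts hx (only_outs hx w) h6
    have hy := inv_tr h3
    subst hy
    obtain ⟨h9, h10⟩ := par_outs h1
    have hst : (Sum.inl (NT.st d.1.2.2) : Sym δ) ∈ res δ d := by
      unfold res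
      split <;> simp
    rcases h9 with rfl | ⟨x, hx'⟩
    swap
    · refine Or.inr (Or.inr (Or.inr (Or.inr ⟨⟨x, List.mem_append_left _ hx'⟩, ?_⟩)))
      intro h11
      obtain ⟨t, ht⟩ := h11 (Sum.inl (NT.st d.1.2.2)) (by simp [hst])
      exact absurd ht (by simp)
    obtain ⟨⟨q, o, q'⟩, hd⟩ := d
    have key : ∀ (x : List T) (s' : List K), res δ ⟨(q, o, q'), hd⟩ ++ v3 =
        outs δ x ++ Sum.inl (NT.st q') :: cnts δ s' → ExecO true o (cn cs) x (cn s') →
        Inv δ q0 qf (outs δ w ++ (res δ ⟨(q, o, q'), hd⟩ ++ v3)) := by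
      intro x s' h11 h12
      refine Or.inl ⟨w ++ x, q', s', ?_, path_snoc hp hd h12⟩
      rw [h11]
      simp [outs]
    rcases h7 with ⟨rfl, h8, h9⟩ | ⟨d', i, h8, h9, h10, h11, rfl⟩
    · cases o with
      | nop => exact key [] cs rfl ⟨rfl, rfl⟩
      | inc i => exact key [] (i :: cs) rfl ⟨rfl, cn_cons i cs⟩
      | dec i => exact key [] cs rfl ⟨rfl, Or.inr ⟨rfl, rfl⟩⟩
      | zero i =>
        refine key [] cs rfl ⟨rfl, ?_, rfl⟩
        have := h9 _ i rfl rfl
        simpa [cn] using List.count_eq_zero.mpr this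
      | out c => exact key [c] cs rfl ⟨rfl, rfl⟩
    · have h12 : (⟨(q, o, q'), hd⟩ : E δ) = d' := by simpa using h8
      subst h12
      have h13 : o = Op.dec i := h9
      subst h13
      refine key [] (cs.erase i) rfl ⟨rfl, Or.inl ⟨?_, cn_erase i cs⟩⟩
      exact List.count_pos_iff.mpr h11
  · obtain ⟨v1, v2, rfl, h1, h2⟩ := (par_append _ _ _ _).mp h
    obtain ⟨y, U, W, v3, h3, h4, h5, h6, rfl⟩ := par_cons_inv h2
    have hx : (∃ q' : Q, (NT.fin : N δ) = NT.st q') ∨ (∃ d', (NT.fin : N δ) = NT.tr d') ∨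
      (NT.fin : N δ) = NT.fin := Or.inr (Or.inr rfl)
    have h7 := par_cnts hx (only_outs hx w) h6
    have hy := inv_fin h3
    subst hy
    have h8 : cs = [] ∧ v3 = [] := by
      rcases h7 with ⟨h8, h9, _⟩ | ⟨d, i, h8, _⟩
      · have := h9 rfl
        subst this
        exact ⟨rfl, h8⟩
      · exact absurd h8 (by simp)
    obtain ⟨rfl, rfl⟩ := h8
    rw [cn_nil] at hp
    obtain ⟨h9, h10⟩ := par_outs h1
    rw [List.append_nil, List.append_nil]
    rcases h9 with rfl | h9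
    · exact Or.inr (Or.inr (Or.inr (Or.inl ⟨w, rfl, hp⟩)))
    · exact Or.inr (Or.inr (Or.inr (Or.inr ⟨h9, fun h => ⟨w, h10 h, hp⟩⟩)))
  · obtain ⟨h9, h10⟩ := par_outs h
    rcases h9 with rfl | h9
    · exact Or.inr (Or.inr (Or.inr (Or.inl ⟨w, rfl, hp⟩)))
    · exact Or.inr (Or.inr (Or.inr (Or.inr ⟨h9, fun h => ⟨w, h10 h, hp⟩⟩)))
  · exact absurd h1 (par_not_hasT h)

/-! ### construction of derivations -/

omit [DecidableEq K] in
theorem mk_outs (l : List (Sym δ)) (w : List T) :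
    Par (rules δ qf) l (outs δ w) (outs δ w) := by
  induction w generalizing l with
  | nil => exact Par.nil l
  | cons c w ih =>
    exact Par.cons (X := Sum.inl (NT.out c)) (y := [Sum.inl (NT.out c)]) (U := ∅) (W := ∅)
      (Or.inl ⟨c, rfl⟩) (by simp) (by simp) (ih _)

omit [DecidableEq K] in
theorem mk_outs' (l : List (Sym δ)) (w : List T) :
    Par (rules δ qf) l (outs δ w) (w.map Sum.inr) := by
  induction w generalizing l with
  | nil => exact Par.nil l
  | cons c w ih =>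
    exact Par.cons (X := Sum.inl (NT.out c)) (y := [Sum.inr c]) (U := ∅) (W := ∅)
      (Or.inr (Or.inl ⟨c, rfl⟩)) (by simp) (by simp) (ih _)

omit [DecidableEq K] in
theorem mk_cnts {l : List (Sym δ)} {cs : List K} {x : N δ} (hl : Only x l) (hx : x ≠ NT.fin)
    (hz : ∀ (d : E δ) (i : K), x = NT.tr d → d.1.2.1 = Op.zero i → i ∉ cs) :
    Par (rules δ qf) l (cnts δ cs) (cnts δ cs) := by
  induction cs generalizing l with
  | nil => exact Par.nil l
  | cons j cs ih =>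
    refine Par.cons (X := Sum.inl (NT.cnt j)) (y := [Sum.inl (NT.cnt j)]) (U := ∅) (W := Wk δ j)
      (Or.inr (Or.inr (Or.inl ⟨j, rfl⟩))) (by simp) ?_ (ih (only_snoc hl j) ?_)
    · rintro B (rfl | ⟨d, rfl, hd⟩) hB
      · exact hx (hl.2.2.2 hB).symm
      · exact hz d j (hl.2.2.1 d hB).symm hd List.mem_cons_self
    · intro d i h1 h2 h3
      exact hz d i h1 h2 (List.mem_cons_of_mem _ h3)

theorem mk_cnts_erase {l : List (Sym δ)} {cs : List K} {d : E δ} {i : K}
    (hl : Only (NT.tr d) l) (hd : d.1.2.1 = Op.dec i) (hi : Sum.inl (NT.cnt i) ∉ l)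
    (hm : i ∈ cs) : Par (rules δ qf) l (cnts δ cs) (cnts δ (cs.erase i)) := by
  induction cs generalizing l with
  | nil => simp at hm
  | cons j cs ih =>
    by_cases h : j = i
    · subst h
      rw [List.erase_cons_head]
      refine Par.cons (X := Sum.inl (NT.cnt j)) (y := []) (U := ∅) (W := We δ j)
        (Or.inr (Or.inr (Or.inr (Or.inl ⟨j, rfl⟩)))) (by simp) ?_
        (mk_cnts (only_snoc hl j) (by simp) ?_)
      · rintro B (rfl | rfl | ⟨q, rfl⟩ | ⟨d', rfl, hd'⟩) hB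
        · exact absurd (hl.2.2.2 hB) (by simp)
        · exact hi hB
        · exact absurd (hl.2.1 q hB) (by simp)
        · have h1 := hl.2.2.1 d' hB
          simp only [NT.tr.injEq] at h1
          subst h1
          exact hd' hd
      · intro d' i' h1 h2
        simp only [NT.tr.injEq] at h1
        subst h1
        rw [hd] at h2
        simp at h2
    · rw [List.erase_cons_tail (by simpa using h)]
      have hm' : i ∈ cs := by
        rcases List.mem_cons.mp hm with h1 | h1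
        · exact absurd h1.symm h
        · exact h1
      refine Par.cons (X := Sum.inl (NT.cnt j)) (y := [Sum.inl (NT.cnt j)]) (U := ∅)
        (W := Wk δ j) (Or.inr (Or.inr (Or.inl ⟨j, rfl⟩))) (by simp) ?_
        (ih (only_snoc hl j) ?_ hm')
      · rintro B (rfl | ⟨d', rfl, hd'⟩) hB
        · exact absurd (hl.2.2.2 hB) (by simp)
        · have h1 := hl.2.2.1 d' hB
          simp only [NT.tr.injEq] at h1
          subst h1
          rw [hd] at hd'
          simp at hd'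
      · intro h1
        rcases List.mem_append.mp h1 with h2 | h2
        · exact hi h2
        · simp only [List.mem_singleton, Sum.inl.injEq, NT.cnt.injEq] at h2
          exact h h2.symm

section final

variable [Finite T] [Finite K] [Finite Q] (q0) (qf) (hδ : δ.Finite)

omit [DecidableEq K] in
theorem step_of {u v : List (Sym δ)} (hne : u ≠ []) (h : Par (rules δ qf) [] u v) :
    (G δ q0 qf hδ).Step u v :=
  (LRC.step_iff (G δ q0 qf hδ) u v).mpr ⟨hne, h⟩

/-- derivability -/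
def Der (u v : List (Sym δ)) : Prop := ReflTransGen (G δ q0 qf hδ).Step u v

theorem der_trans_step {w0 : List T} {d : E δ} {cs : List K}
    (x : List T) (cs' : List K) (v3 : List (Sym δ))
    (h1 : Par (rules δ qf) ([] ++ outs δ w0 ++ [Sum.inl (NT.tr d)]) (cnts δ cs) v3)
    (h2 : res δ d ++ v3 = outs δ x ++ Sum.inl (NT.st d.1.2.2) :: cnts δ cs') :
    Der q0 qf hδ (outs δ w0 ++ Sum.inl (NT.st d.1.1) :: cnts δ cs)
      (outs δ (w0 ++ x) ++ Sum.inl (NT.st d.1.2.2) :: cnts δ cs') := by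
  have hx : (∃ q' : Q, (NT.st d.1.1 : N δ) = NT.st q') ∨ (∃ d', (NT.st d.1.1 : N δ) = NT.tr d') ∨
      (NT.st d.1.1 : N δ) = NT.fin := Or.inl ⟨_, rfl⟩
  have e1 : (G δ q0 qf hδ).Step (outs δ w0 ++ Sum.inl (NT.st d.1.1) :: cnts δ cs)
      (outs δ w0 ++ Sum.inl (NT.tr d) :: cnts δ cs) := by
    refine step_of q0 qf hδ (by simp) ((par_append _ _ _ _).mpr ⟨_, _, rfl, mk_outs _ _, ?_⟩)
    exact Par.cons (X := Sum.inl (NT.st d.1.1)) (y := [Sum.inl (NT.tr d)]) (U := ∅) (W := ∅)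
      (Or.inr (Or.inr (Or.inr (Or.inr (Or.inl ⟨d, rfl⟩))))) (by simp) (by simp)
      (mk_cnts (x := NT.st d.1.1) (only_outs hx w0) (by simp) (by simp))
  have e2 : (G δ q0 qf hδ).Step (outs δ w0 ++ Sum.inl (NT.tr d) :: cnts δ cs)
      (outs δ (w0 ++ x) ++ Sum.inl (NT.st d.1.2.2) :: cnts δ cs') := by
    refine step_of q0 qf hδ (by simp) ((par_append _ _ _ _).mpr ⟨_, _, ?_, mk_outs _ _,
      Par.cons (X := Sum.inl (NT.tr d)) (y := res δ d) (U := ∅) (W := ∅)
      (Or.inr (Or.inr (Or.inr (Or.inr (Or.inr (Or.inr (Or.inl ⟨d, rfl⟩))))))) (by simp) (by simp)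
      h1⟩)
    rw [h2]
    simp [outs]
  exact (ReflTransGen.single e1).tail e2

theorem der_of_path {q q' : Q} {s s' : K → ℕ} {w : List T}
    (h : Pool.Agent.W937.FG.Path true δ q s w q' s') :
    ∀ (cs : List K) (w0 : List T), cn cs = s → ∃ cs', cn cs' = s' ∧
      Der q0 qf hδ (outs δ w0 ++ Sum.inl (NT.st q) :: cnts δ cs)
        (outs δ (w0 ++ w) ++ Sum.inl (NT.st q') :: cnts δ cs') := by
  induction h with
  | refl q s =>
    intro cs w0 hcs
    refine ⟨cs, hcs, ?_⟩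
    rw [List.append_nil]
    exact ReflTransGen.refl
  | step hd h1 h2 ih =>
    rename_i q q' q'' o s s' s'' w x
    intro cs w0 hcs
    subst hcs
    have hx : (∃ q1 : Q, (NT.tr ⟨(q, o, q'), hd⟩ : N δ) = NT.st q1) ∨
      (∃ d', (NT.tr ⟨(q, o, q'), hd⟩ : N δ) = NT.tr d') ∨
      (NT.tr ⟨(q, o, q'), hd⟩ : N δ) = NT.fin := Or.inr (Or.inl ⟨_, rfl⟩)
    have key : ∀ (cs' : List K) (v3 : List (Sym δ)), cn cs' = s' →
        Par (rules δ qf) ([] ++ outs δ w0 ++ [Sum.inl (NT.tr ⟨(q, o, q'), hd⟩)]) (cnts δ cs) v3 →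
        res δ ⟨(q, o, q'), hd⟩ ++ v3 = outs δ w ++ Sum.inl (NT.st q') :: cnts δ cs' →
        ∃ cs'', cn cs'' = s'' ∧ Der q0 qf hδ (outs δ w0 ++ Sum.inl (NT.st q) :: cnts δ cs)
          (outs δ (w0 ++ (w ++ x)) ++ Sum.inl (NT.st q'') :: cnts δ cs'') := by
      intro cs' v3 h3 h4 h5
      obtain ⟨cs'', h6, h7⟩ := ih cs' (w0 ++ w) h3
      refine ⟨cs'', h6, ?_⟩
      rw [← List.append_assoc]
      exact ReflTransGen.trans (der_trans_step q0 qf hδ (d := ⟨(q, o, q'), hd⟩) w cs' v3 h4 h5) h7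
    have keep : (∀ i, o = Op.zero i → i ∉ cs) → Par (rules δ qf)
        ([] ++ outs δ w0 ++ [Sum.inl (NT.tr ⟨(q, o, q'), hd⟩)]) (cnts δ cs) (cnts δ cs) := by
      intro h3
      refine mk_cnts (x := NT.tr ⟨(q, o, q'), hd⟩) (only_outs hx w0) (by simp) ?_
      intro d i h4 h5
      simp only [NT.tr.injEq] at h4
      subst h4
      exact h3 i h5
    cases o with
    | nop =>
      obtain ⟨rfl, rfl⟩ := h1
      exact key cs _ rfl (keep (by simp)) rfl
    | inc i =>
      obtain ⟨rfl, rfl⟩ := h1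
      exact key (i :: cs) _ (cn_cons i cs) (keep (by simp)) rfl
    | dec i =>
      obtain ⟨rfl, ⟨h3, rfl⟩ | ⟨_, rfl⟩⟩ := h1
      · refine key (cs.erase i) _ (cn_erase i cs) (mk_cnts_erase (only_outs hx w0) rfl ?_ ?_) rfl
        · simp [outs]
        · exact List.count_pos_iff.mp h3
      · exact key cs _ rfl (keep (by simp)) rfl
    | zero i =>
      obtain ⟨rfl, h3, rfl⟩ := h1
      refine key cs _ rfl (keep ?_) rfl
      intro j hj
      simp only [Op.zero.injEq] at hj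
      subst hj
      exact List.count_eq_zero.mp h3
    | out c =>
      obtain ⟨rfl, rfl⟩ := h1
      exact key cs _ rfl (keep (by simp)) rfl

theorem language_iff (w : List T) : w ∈ (G δ q0 qf hδ).language ↔
    Pool.Agent.W937.FG.Path true δ q0 (fun _ => 0) w qf (fun _ => 0) := by
  constructor
  · intro hw
    have key : ∀ v : List (Sym δ), ReflTransGen (G δ q0 qf hδ).Step (G δ q0 qf hδ).ax v →
        Inv δ q0 qf v := by
      intro v hv
      induction hv with
      | refl =>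
        refine Or.inl ⟨[], q0, [], rfl, ?_⟩
        rw [cn_nil]
        exact Pool.Agent.W937.FG.Path.refl _ _
      | tail _ h2 ih => exact inv_step ih ((LRC.step_iff (G δ q0 qf hδ) _ _).mp h2).2
    have hnot : ∀ x : N δ, (Sum.inl x : Sym δ) ∉ w.map Sum.inr := by
      intro x hx
      obtain ⟨t, _, ht⟩ := List.mem_map.mp hx
      simp at ht
    have hw' : Inv δ q0 qf (w.map Sum.inr) := key _ hw
    rcases hw' with ⟨w', q, cs, h1, _⟩ | ⟨w', d, cs, h1, _⟩ | ⟨w', cs, h1, _⟩ | ⟨w', h1, h2⟩ |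
      ⟨h1, h2⟩
    · exact absurd (show (Sum.inl (NT.st q) : Sym δ) ∈ _ by rw [h1]; simp) (hnot _)
    · exact absurd (show (Sum.inl (NT.tr d) : Sym δ) ∈ _ by rw [h1]; simp) (hnot _)
    · exact absurd (show (Sum.inl NT.fin : Sym δ) ∈ _ by rw [h1]; simp) (hnot _)
    · have h3 : w = [] ∧ w' = [] := by
        cases w' with
        | nil =>
          cases w with
          | nil => exact ⟨rfl, rfl⟩
          | cons t w => simp [outs] at h1
        | cons t' w' =>
          exfalso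
          exact hnot (NT.out t') (by rw [h1]; simp [outs])
      rw [h3.1]
      rw [h3.2] at h2
      exact h2
    · obtain ⟨w', h3, h4⟩ := h2 (by
        intro x hx
        obtain ⟨t, _, rfl⟩ := List.mem_map.mp hx
        exact ⟨t, rfl⟩)
      have : w = w' := List.map_injective_iff.mpr Sum.inr_injective h3
      rw [this]
      exact h4
  · intro hp
    obtain ⟨cs', h1, h2⟩ := der_of_path q0 qf hδ hp [] [] cn_nil
    have h3 : cs' = [] := by
      cases cs' with
      | nil => rfl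
      | cons i cs =>
        have := congrFun h1 i
        simp [cn] at this
    subst h3
    have e1 : (G δ q0 qf hδ).Step (outs δ w ++ Sum.inl (NT.st qf) :: cnts δ [])
        (outs δ w ++ Sum.inl NT.fin :: cnts δ []) := by
      refine step_of q0 qf hδ (by simp) ((par_append _ _ _ _).mpr ⟨_, _, rfl, mk_outs _ _, ?_⟩)
      exact Par.cons (X := Sum.inl (NT.st qf)) (y := [Sum.inl NT.fin]) (U := ∅) (W := ∅)
        (Or.inr (Or.inr (Or.inr (Or.inr (Or.inr (Or.inl rfl)))))) (by simp) (by simp)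
        (Par.nil _)
    have e2 : (G δ q0 qf hδ).Step (outs δ w ++ Sum.inl NT.fin :: cnts δ []) (w.map Sum.inr) := by
      refine step_of q0 qf hδ (by simp) ((par_append _ _ _ _).mpr ⟨w.map Sum.inr, [],
        (List.append_nil _).symm, mk_outs' _ _, ?_⟩)
      exact Par.cons (X := Sum.inl NT.fin) (y := []) (U := ∅) (W := ∅)
        (Or.inr (Or.inr (Or.inr (Or.inr (Or.inr (Or.inr (Or.inr rfl))))))) (by simp) (by simp)
        (Par.nil _)
    exact (h2.tail e1).tail e2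

end final

end gram

end Pool.Agent.R574.LS.Auto
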