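import Pool.Agent.R574.LS.Koenig

set_option autoImplicit false

/-!
Parallel rewriting with tables: basic facts, and two pumping arguments for languages of words
`(a b^T)^n`.
-/

namespace Pool.Agent.R574.LS

section basics

variable {V : Type*}

/-- one parallel step with the table `P` -/
def App (P : Set (V × List V)) (u v : List V) : Prop :=
  ∃ ys : List (List V), List.Forall₂ (fun X y => (X, y) ∈ P) u ys ∧ v = ys.flatten

/-- parallel steps with the tables of the list -/
def Run : List (Set (V × List V)) → List V → List V → Prop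
  | [], u, v => u = v
  | P :: Ps, u, v => ∃ x, App P u x ∧ Run Ps x v

theorem app_nil (P : Set (V × List V)) (v : List V) : App P [] v ↔ v = [] := by
  constructor
  · rintro ⟨ys, h, rfl⟩
    cases h
    rfl
  · rintro rfl
    exact ⟨[], List.Forall₂.nil, rfl⟩

theorem app_cons (P : Set (V × List V)) (X : V) (u v : List V) :
    App P (X :: u) v ↔ ∃ y v', (X, y) ∈ P ∧ App P u v' ∧ v = y ++ v' := by
  constructor
  · rintro ⟨ys, h, rfl⟩
    cases h with
    | cons h1 h2 => exact ⟨_, _, h1, ⟨_, h2, rfl⟩, by simp⟩
  · rintro ⟨y, v', h1, ⟨ys, h2, rfl⟩, rfl⟩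
    exact ⟨y :: ys, List.Forall₂.cons h1 h2, by simp⟩

theorem app_append (P : Set (V × List V)) (u1 u2 v : List V) :
    App P (u1 ++ u2) v ↔ ∃ v1 v2, v = v1 ++ v2 ∧ App P u1 v1 ∧ App P u2 v2 := by
  induction u1 generalizing v with
  | nil =>
    simp only [List.nil_append, app_nil]
    constructor
    · intro h
      exact ⟨[], v, rfl, rfl, h⟩
    · rintro ⟨v1, v2, rfl, rfl, h⟩
      exact h
  | cons X u1 ih =>
    rw [List.cons_append, app_cons]
    constructor
    · rintro ⟨y, v', h1, h2, rfl⟩
      obtain ⟨v1, v2, rfl, h3, h4⟩ := (ih v').mp h2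
      exact ⟨y ++ v1, v2, by simp, (app_cons P X u1 _).mpr ⟨y, v1, h1, h3, rfl⟩, h4⟩
    · rintro ⟨v1, v2, rfl, h1, h2⟩
      obtain ⟨y, v', h3, h4, rfl⟩ := (app_cons P X u1 _).mp h1
      exact ⟨y, v' ++ v2, h3, (ih _).mpr ⟨v', v2, rfl, h4, h2⟩, by simp⟩

theorem app_finite (P : Set (V × List V)) (hP : P.Finite) (u : List V) :
    {v | App P u v}.Finite := by
  induction u with
  | nil => 
    simp only [app_nil]
    exact Set.finite_singleton _
  | cons X u ih =>
    have h1 : (Set.image2 (fun (p : V × List V) (v : List V) => p.2 ++ v) P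
        {v | App P u v}).Finite := Set.Finite.image2 _ hP ih
    refine h1.subset ?_
    rintro v hv
    obtain ⟨y, v', h2, h3, rfl⟩ := (app_cons P X u v).mp hv
    exact ⟨(X, y), h2, v', h3, rfl⟩

theorem run_nil (Ps : List (Set (V × List V))) (v : List V) : Run Ps [] v ↔ v = [] := by
  induction Ps generalizing v with
  | nil => exact eq_comm
  | cons P Ps ih =>
    constructor
    · rintro ⟨x, h1, h2⟩
      rw [app_nil] at h1
      subst h1
      exact (ih v).mp h2
    · rintro rfl
      exact ⟨[], (app_nil P []).mpr rfl, (ih _).mpr rfl⟩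

theorem run_append (Ps : List (Set (V × List V))) (u1 u2 v : List V) :
    Run Ps (u1 ++ u2) v ↔ ∃ v1 v2, v = v1 ++ v2 ∧ Run Ps u1 v1 ∧ Run Ps u2 v2 := by
  induction Ps generalizing u1 u2 v with
  | nil =>
    constructor
    · rintro rfl
      exact ⟨u1, u2, rfl, rfl, rfl⟩
    · rintro ⟨v1, v2, rfl, rfl, rfl⟩
      rfl
  | cons P Ps ih =>
    constructor
    · rintro ⟨x, h1, h2⟩
      obtain ⟨x1, x2, rfl, h3, h4⟩ := (app_append P u1 u2 x).mp h1
      obtain ⟨v1, v2, rfl, h5, h6⟩ := (ih x1 x2 v).mp h2
      exact ⟨v1, v2, rfl, ⟨x1, h3, h5⟩, ⟨x2, h4, h6⟩⟩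
    · rintro ⟨v1, v2, rfl, ⟨x1, h3, h5⟩, ⟨x2, h4, h6⟩⟩
      exact ⟨x1 ++ x2, (app_append P u1 u2 _).mpr ⟨x1, x2, rfl, h3, h4⟩,
        (ih x1 x2 _).mpr ⟨v1, v2, rfl, h5, h6⟩⟩

theorem run_trans (Ps Qs : List (Set (V × List V))) (u v : List V) :
    Run (Ps ++ Qs) u v ↔ ∃ x, Run Ps u x ∧ Run Qs x v := by
  induction Ps generalizing u with
  | nil =>
    constructor
    · intro h
      exact ⟨u, rfl, h⟩
    · rintro ⟨x, rfl, h⟩
      exact h
  | cons P Ps ih =>
    constructor
    · rintro ⟨y, h1, h2⟩
      obtain ⟨x, h3, h4⟩ := (ih y).mp h2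
      exact ⟨x, ⟨y, h1, h3⟩, h4⟩
    · rintro ⟨x, ⟨y, h1, h3⟩, h4⟩
      exact ⟨y, h1, (ih y).mpr ⟨x, h3, h4⟩⟩

/-- a run splits into runs from the single letters -/
theorem run_pairs (Ps : List (Set (V × List V))) (u v : List V) (h : Run Ps u v) :
    ∃ pr : List (V × List V), pr.map Prod.fst = u ∧ (∀ p ∈ pr, Run Ps [p.1] p.2) ∧
      (pr.map Prod.snd).flatten = v := by
  induction u generalizing v with
  | nil =>
    rw [run_nil] at h
    subst h
    exact ⟨[], rfl, by simp, rfl⟩
  | cons X u ih =>
    have h' : Run Ps ([X] ++ u) v := h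
    obtain ⟨v1, v2, rfl, h1, h2⟩ := (run_append Ps [X] u v).mp h'
    obtain ⟨pr, h3, h4, h5⟩ := ih v2 h2
    refine ⟨(X, v1) :: pr, by simp [h3], ?_, by simp [h5]⟩
    intro p hp
    rcases List.mem_cons.mp hp with rfl | hp
    · exact h1
    · exact h4 p hp

theorem run_of_pairs (Ps : List (Set (V × List V))) (pr : List (V × List V))
    (h : ∀ p ∈ pr, Run Ps [p.1] p.2) : Run Ps (pr.map Prod.fst) (pr.map Prod.snd).flatten := by
  induction pr with
  | nil => exact (run_nil Ps _).mpr rfl
  | cons p pr ih =>
    have h1 := ih (fun q hq => h q (List.mem_cons_of_mem _ hq))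
    have h2 := h p List.mem_cons_self
    exact (run_append Ps [p.1] (pr.map Prod.fst) _).mpr ⟨p.2, _, by simp, h2, h1⟩

/-- the intermediate words of a run -/
theorem run_seq (Ps : List (Set (V × List V))) (u v : List V) (h : Run Ps u v) :
    ∃ f : ℕ → List V, f 0 = u ∧ (∀ i ≤ Ps.length, Run (Ps.take i) u (f i) ∧
      Run (Ps.drop i) (f i) v) ∧ ∀ i < Ps.length, ∃ P ∈ Ps, App P (f i) (f (i + 1)) := by
  induction Ps generalizing u with
  | nil =>
    refine ⟨fun _ => u, rfl, ?_, ?_⟩
    · intro i _
      simp only [List.take_nil, List.drop_nil]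
      exact ⟨rfl, h⟩
    · intro i hi
      simp at hi
  | cons P Ps ih =>
    obtain ⟨x, h1, h2⟩ := h
    obtain ⟨f, f0, hf1, hf2⟩ := ih x h2
    refine ⟨fun i => match i with
      | 0 => u
      | i + 1 => f i, rfl, ?_, ?_⟩
    · intro i hi
      cases i with
      | zero => exact ⟨rfl, ⟨x, h1, h2⟩⟩
      | succ i =>
        have h3 := hf1 i (by simpa using hi)
        exact ⟨⟨x, h1, h3.1⟩, h3.2⟩
    · intro i hi
      cases i with
      | zero =>
        refine ⟨P, List.mem_cons_self, ?_⟩
        change App P u (f 0)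
        rw [f0]
        exact h1
      | succ i =>
        obtain ⟨Q, hQ, h3⟩ := hf2 i (by simpa using hi)
        exact ⟨Q, List.mem_cons_of_mem _ hQ, h3⟩

end basics

/-! ### The words `(a b^T)^n` -/

section words

variable {V : Type*} [DecidableEq V]

/-- the word `(a b^T)^n` -/
def wd (a b : V) (n T : ℕ) : List V := (List.replicate n (a :: List.replicate T b)).flatten

/-- `v` has a factor `a b^T a` -/
def Gap (a b : V) (v : List V) (T : ℕ) : Prop :=
  ∃ s t, v = s ++ (a :: (List.replicate T b ++ a :: t))

theorem wd_succ (a b : V) (n T : ℕ) :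
    wd a b (n + 1) T = a :: (List.replicate T b ++ wd a b n T) := by
  simp [wd, List.replicate_succ]

theorem count_wd (a b : V) (hab : a ≠ b) (n T : ℕ) : (wd a b n T).count a = n := by
  induction n with
  | zero => simp [wd]
  | succ n ih =>
    rw [wd_succ, List.count_cons_self, List.count_append, ih, List.count_replicate]
    simp [hab.symm]

theorem mem_wd (a b : V) (n T : ℕ) : ∀ c ∈ wd a b n T, c = a ∨ c = b := by
  induction n with
  | zero => simp [wd]
  | succ n ih =>
    intro c hc
    rw [wd_succ, List.mem_cons, List.mem_append] at hc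
    rcases hc with rfl | hc | hc
    · exact Or.inl rfl
    · exact Or.inr (List.eq_of_mem_replicate hc)
    · exact ih c hc

theorem rep_eq (a b : V) (hab : a ≠ b) (T k : ℕ) (X t : List V) (hX : X = [] ∨ ∃ s, X = a :: s)
    (h : List.replicate T b ++ X = List.replicate k b ++ a :: t) : T = k := by
  induction T generalizing k with
  | zero =>
    cases k with
    | zero => rfl
    | succ k =>
      simp only [List.replicate_zero, List.nil_append, List.replicate_succ, List.cons_append] at h
      rcases hX with rfl | ⟨s, rfl⟩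
      · cases h
      · exact absurd (List.cons.inj h).1 hab
  | succ T ih =>
    cases k with
    | zero =>
      simp only [List.replicate_zero, List.nil_append, List.replicate_succ, List.cons_append] at h
      exact absurd (List.cons.inj h).1.symm hab
    | succ k =>
      simp only [List.replicate_succ, List.cons_append, List.cons.injEq, true_and] at h
      rw [ih k h]

theorem gap_rep (a b : V) (hab : a ≠ b) (X : List V) (T k : ℕ)
    (h : Gap a b (List.replicate T b ++ X) k) : Gap a b X k := by
  induction T with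
  | zero => simpa using h
  | succ T ih =>
    apply ih
    obtain ⟨s, t, hs⟩ := h
    cases s with
    | nil =>
      simp only [List.replicate_succ, List.cons_append, List.nil_append, List.cons.injEq] at hs
      exact absurd hs.1.symm hab
    | cons c s =>
      simp only [List.replicate_succ, List.cons_append, List.cons.injEq] at hs
      exact ⟨s, t, hs.2⟩

theorem gap_wd (a b : V) (hab : a ≠ b) (n T k : ℕ) (h : Gap a b (wd a b n T) k) : k = T := by
  induction n with
  | zero =>
    obtain ⟨s, t, h⟩ := h
    simp [wd] at h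
  | succ n ih =>
    rw [wd_succ] at h
    obtain ⟨s, t, h⟩ := h
    cases s with
    | nil =>
      simp only [List.nil_append, List.cons.injEq, true_and] at h
      symm
      refine rep_eq a b hab T k _ t ?_ h
      cases n with
      | zero => left; simp [wd]
      | succ n => right; exact ⟨_, wd_succ a b n T⟩
    | cons c s =>
      simp only [List.cons_append, List.cons.injEq] at h
      exact ih (gap_rep a b hab _ T k ⟨s, t, h.2⟩)

theorem exists_gap (a b : V) (v : List V) (h1 : ∀ c ∈ v, c = a ∨ c = b)
    (h2 : 2 ≤ v.count a) : ∃ k, Gap a b v k := by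
  induction v with
  | nil => simp at h2
  | cons c v ih =>
    by_cases h3 : 2 ≤ v.count a
    · obtain ⟨k, s, t, h⟩ := ih (fun d hd => h1 d (List.mem_cons_of_mem _ hd)) h3
      exact ⟨k, c :: s, t, by rw [h]; rfl⟩
    · have h4 : c = a := by
        by_contra hc
        rw [List.count_cons_of_ne hc] at h2
        exact h3 h2
      subst h4
      rw [List.count_cons_self] at h2
      have h5 : c ∈ v := List.count_pos_iff.mp (by omega)
      have key : ∀ v : List V, (∀ d ∈ v, d = c ∨ d = b) → c ∈ v →
          ∃ k t, v = List.replicate k b ++ c :: t := by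
        intro v
        induction v with
        | nil => intro _ h; simp at h
        | cons d v ih =>
          intro h6 h7
          by_cases hd : d = c
          · subst hd
            exact ⟨0, v, rfl⟩
          · have hb : d = b := (h6 d List.mem_cons_self).resolve_left hd
            subst hb
            have h8 : c ∈ v := by
              rcases List.mem_cons.mp h7 with h | h
              · exact absurd h.symm hd
              · exact h
            obtain ⟨k, t, h9⟩ := ih (fun e he => h6 e (List.mem_cons_of_mem _ he)) h8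
            exact ⟨k + 1, t, by rw [h9, List.replicate_succ]; rfl⟩
      obtain ⟨k, t, h6⟩ := key v (fun d hd => h1 d (List.mem_cons_of_mem _ hd)) h5
      exact ⟨k, [], t, by rw [h6]; rfl⟩

theorem Gap.of_mem (a b : V) {L : List (List V)} {v : List V} {k : ℕ} (hv : v ∈ L)
    (h : Gap a b v k) : Gap a b L.flatten k := by
  obtain ⟨L1, L2, rfl⟩ := List.append_of_mem hv
  obtain ⟨s, t, rfl⟩ := h
  exact ⟨L1.flatten ++ s, t ++ L2.flatten, by simp⟩

end words

end Pool.Agent.R574.LS
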