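import Mathlib

set_option autoImplicit false

/-!
# ET0L grammars and left random context E0L grammars

The total alphabet of a grammar with nonterminals `N` and terminals `T` is `N ⊕ T`: `Sum.inl A` is
the nonterminal `A` and `Sum.inr a` is the terminal `a`.
-/

namespace Pool.Agent.R574.LS

/-- An ET0L grammar with terminal alphabet `T`. A rule `X → y` is the pair `(X, y)`; a table is a
finite set of rules which contains at least one rule for every symbol. -/
structure ET0L (T : Type) where
  /-- the set of nonterminals -/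
  N : Type
  finite_N : Finite N
  /-- the set of tables -/
  tables : Set (Set ((N ⊕ T) × List (N ⊕ T)))
  finite_tables : tables.Finite
  nonempty_tables : tables.Nonempty
  finite_rules : ∀ P ∈ tables, P.Finite
  complete : ∀ P ∈ tables, ∀ X : N ⊕ T, ∃ y : List (N ⊕ T), (X, y) ∈ P
  /-- the axiom -/
  ax : List (N ⊕ T)
  ax_ne : ax ≠ []

/-- One derivation step `u ⇒ v`: the word `u = X₁ ⋯ Xₖ` is nonempty and `v = y₁ ⋯ yₖ`, where all
the rules `Xᵢ → yᵢ` belong to one table. -/
def ET0L.Step {T : Type} (G : ET0L T) (u v : List (G.N ⊕ T)) : Prop :=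
  u ≠ [] ∧ ∃ P ∈ G.tables, ∃ ys : List (List (G.N ⊕ T)),
    List.Forall₂ (fun X y => (X, y) ∈ P) u ys ∧ v = ys.flatten

/-- The language of an ET0L grammar: the terminal words derivable from the axiom. -/
def ET0L.language {T : Type} (G : ET0L T) : Set (List T) :=
  {w | Relation.ReflTransGen G.Step G.ax (w.map Sum.inr)}

/-- A left random context E0L grammar with terminal alphabet `T`. A rule `(X → y, U, W)` with left
permitting context `U` and left forbidding context `W` (sets of nonterminals) is the tuple
`(X, y, U, W)`; there need not be a rule for every symbol. -/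
structure LRC (T : Type) where
  /-- the set of nonterminals -/
  N : Type
  finite_N : Finite N
  /-- the set of rules -/
  rules : Set ((N ⊕ T) × List (N ⊕ T) × Set N × Set N)
  finite_rules : rules.Finite
  /-- the axiom -/
  ax : List (N ⊕ T)
  ax_ne : ax ≠ []

/-- One derivation step `u ⇒ v`: the word `u = X₁ ⋯ Xₖ` is nonempty, `v = y₁ ⋯ yₖ`, and for each
`i` some rule `(Xᵢ → yᵢ, U, W)` is such that all symbols of `U` and no symbols of `W` occur in
`X₁ ⋯ Xᵢ₋₁`. (Positions are numbered from `0` here.) -/
def LRC.Step {T : Type} (G : LRC T) (u v : List (G.N ⊕ T)) : Prop :=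
  u ≠ [] ∧ ∃ ys : List (List (G.N ⊕ T)), ys.length = u.length ∧ v = ys.flatten ∧
    ∀ (i : ℕ) (h : i < u.length) (h' : i < ys.length), ∃ U W : Set G.N,
      (u[i], ys[i], U, W) ∈ G.rules ∧ (∀ B ∈ U, Sum.inl B ∈ u.take i) ∧
        ∀ B ∈ W, Sum.inl B ∉ u.take i

/-- The language of a left random context E0L grammar. -/
def LRC.language {T : Type} (G : LRC T) : Set (List T) :=
  {w | Relation.ReflTransGen G.Step G.ax (w.map Sum.inr)}

/-- Left permitting E0L grammars (LP-E0L): all left forbidding contexts are empty. -/
def LRC.LeftPermitting {T : Type} (G : LRC T) : Prop := ∀ r ∈ G.rules, r.2.2.2 = ∅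

/-- Left forbidding E0L grammars (LF-E0L): all left permitting contexts are empty. -/
def LRC.LeftForbidding {T : Type} (G : LRC T) : Prop := ∀ r ∈ G.rules, r.2.2.1 = ∅

/-- Propagating grammars (LP-EP0L, LF-EP0L): no rule has an empty right-hand side. -/
def LRC.Propagating {T : Type} (G : LRC T) : Prop := ∀ r ∈ G.rules, r.2.1 ≠ []

end Pool.Agent.R574.LS
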