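import Pool.Agent.R574.LS.Par
import Pool.Agent.W937.FG.Defs

set_option autoImplicit false

/-!
Propagating left random context E0L grammars are simulated by noncontracting grammars with
forbidding sets.
-/

namespace Pool.Agent.R574.LS.NC

open Relation Pool.Agent.R574.LS
open Pool.Agent.W937.FG (GRule GStep GGen)

/-- nonterminals: `c1` copies not yet rewritten, `c2` copies already rewritten, and heads -/
inductive M (N T : Type)
  | start
  | c1 (X : N ⊕ T)
  | c2 (X : N ⊕ T)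
  | hd (X : N ⊕ T) (A : Set N)
  | bk (X : N ⊕ T)
  | fn (t : T)

variable {T : Type}

section gram

variable (G : LRC T)

abbrev S : Type := Symbol T (M G.N T)

abbrev V : Type := G.N ⊕ T

/-- a nonterminal symbol -/
abbrev n (x : M G.N T) : S G := Symbol.nonterminal x

/-- copies not yet rewritten -/
def C1 (u : List (V G)) : List (S G) := u.map (fun X => n G (M.c1 X))

/-- copies already rewritten -/
def C2 (u : List (V G)) : List (S G) := u.map (fun X => n G (M.c2 X))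

/-- terminals -/
def Te (w : List T) : List (S G) := w.map Symbol.terminal

/-- the nonterminals of a word -/
def nts (l : List (V G)) : Set G.N := {B | Sum.inl B ∈ l}

/-- applicability for the context `A` -/
def Ok (A U W : Set G.N) : Prop := (∀ B ∈ U, B ∈ A) ∧ ∀ B ∈ W, B ∉ A

theorem finM [Finite T] : Finite (M G.N T) := by
  have := G.finite_N
  let f : M G.N T → (((V G ⊕ V G) ⊕ (V G × Set G.N)) ⊕ (V G ⊕ T)) ⊕ Unit
    | M.start => Sum.inr ()
    | M.c1 X => Sum.inl (Sum.inl (Sum.inl (Sum.inl X)))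
    | M.c2 X => Sum.inl (Sum.inl (Sum.inl (Sum.inr X)))
    | M.hd X A => Sum.inl (Sum.inl (Sum.inr (X, A)))
    | M.bk X => Sum.inl (Sum.inr (Sum.inl X))
    | M.fn t => Sum.inl (Sum.inr (Sum.inr t))
  refine Finite.of_injective f ?_
  intro a b h
  cases a <;> cases b <;> simp [f] at h ⊢ <;> exact h

/-- all letters `c1` -/
noncomputable def F1 [Finite T] : Finset (M G.N T) :=
  have := finM G
  (Set.toFinite {x | ∃ X, x = M.c1 X}).toFinset

/-- all letters `c2` -/
noncomputable def F2 [Finite T] : Finset (M G.N T) :=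
  have := finM G
  (Set.toFinite {x | ∃ X, x = M.c2 X}).toFinset

theorem mem_F1 [Finite T] (x : M G.N T) : x ∈ F1 G ↔ ∃ X, x = M.c1 X := by
  simp [F1]

theorem mem_F2 [Finite T] (x : M G.N T) : x ∈ F2 G ↔ ∃ X, x = M.c2 X := by
  simp [F2]

/-- the rules -/
def P [Finite T] : Set (GRule T (M G.N T)) :=
  {r | (∃ a X, G.ax = a ++ [X] ∧ r = ([n G M.start], C2 G a ++ [n G (M.bk X)], ∅)) ∨
    (∃ X y U W A Y, (X, y, U, W) ∈ G.rules ∧ Ok G A U W ∧
      r = ([n G (M.hd X A), n G (M.c1 Y)], C2 G y ++ [n G (M.hd Y (A ∪ nts G [X]))], ∅)) ∨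
    (∃ X y z U W A, (X, y ++ [z], U, W) ∈ G.rules ∧ Ok G A U W ∧
      r = ([n G (M.hd X A)], C2 G y ++ [n G (M.bk z)], F1 G)) ∨
    (∃ X Y, r = ([n G (M.c2 X), n G (M.bk Y)], [n G (M.bk X), n G (M.c1 Y)], ∅)) ∨
    (∃ X, r = ([n G (M.bk X)], [n G (M.hd X ∅)], F2 G)) ∨
    (∃ t, r = ([n G (M.bk (Sum.inr t))], [n G (M.fn t)], F1 G)) ∨
    (∃ s t, r = ([n G (M.c2 (Sum.inr s)), n G (M.fn t)], [n G (M.fn s), Symbol.terminal t], ∅)) ∨
    (∃ t, r = ([n G (M.fn t)], [Symbol.terminal t], F2 G))}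

theorem finP [Finite T] : (P G).Finite := by
  have h0 := G.finite_N
  have h1 := finM G
  have h2 : Finite {ρ // ρ ∈ G.rules} := G.finite_rules.to_subtype
  have e1 := Set.finite_range (fun X : V G =>
    (([n G M.start], C2 G G.ax.dropLast ++ [n G (M.bk X)], ∅) : GRule T (M G.N T)))
  have e2 := Set.finite_range (fun i : {ρ // ρ ∈ G.rules} × Set G.N × V G =>
    (([n G (M.hd i.1.1.1 i.2.1), n G (M.c1 i.2.2)],
      C2 G i.1.1.2.1 ++ [n G (M.hd i.2.2 (i.2.1 ∪ nts G [i.1.1.1]))], ∅) : GRule T (M G.N T)))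
  have e3 := Set.finite_range (fun i : {ρ // ρ ∈ G.rules} × Set G.N × V G =>
    (([n G (M.hd i.1.1.1 i.2.1)],
      C2 G i.1.1.2.1.dropLast ++ [n G (M.bk i.2.2)], F1 G) : GRule T (M G.N T)))
  have e4 := Set.finite_range (fun i : V G × V G =>
    (([n G (M.c2 i.1), n G (M.bk i.2)], [n G (M.bk i.1), n G (M.c1 i.2)], ∅) :
      GRule T (M G.N T)))
  have e5 := Set.finite_range (fun X : V G =>
    (([n G (M.bk X)], [n G (M.hd X ∅)], F2 G) : GRule T (M G.N T)))
  have e6 := Set.finite_range (fun t : T =>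
    (([n G (M.bk (Sum.inr t))], [n G (M.fn t)], F1 G) : GRule T (M G.N T)))
  have e7 := Set.finite_range (fun i : T × T =>
    (([n G (M.c2 (Sum.inr i.1)), n G (M.fn i.2)], [n G (M.fn i.1), Symbol.terminal i.2], ∅) :
      GRule T (M G.N T)))
  have e8 := Set.finite_range (fun t : T =>
    (([n G (M.fn t)], [Symbol.terminal t], F2 G) : GRule T (M G.N T)))
  refine (((((((e1.union e2).union e3).union e4).union e5).union e6).union e7).union e8).subset ?_
  rintro r (⟨a, X, h, rfl⟩ | ⟨X, y, U, W, A, Y, h, h', rfl⟩ | ⟨X, y, z, U, W, A, h, h', rfl⟩ |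
    ⟨X, Y, rfl⟩ | ⟨X, rfl⟩ | ⟨t, rfl⟩ | ⟨s, t, rfl⟩ | ⟨t, rfl⟩)
  · exact Or.inl (Or.inl (Or.inl (Or.inl (Or.inl (Or.inl (Or.inl ⟨X, by simp [h]⟩))))))
  · exact Or.inl (Or.inl (Or.inl (Or.inl (Or.inl (Or.inl
      (Or.inr ⟨⟨⟨_, h⟩, A, Y⟩, rfl⟩))))))
  · exact Or.inl (Or.inl (Or.inl (Or.inl (Or.inl (Or.inr ⟨⟨⟨_, h⟩, A, z⟩, by simp⟩)))))
  · exact Or.inl (Or.inl (Or.inl (Or.inl (Or.inr ⟨(X, Y), rfl⟩))))
  · exact Or.inl (Or.inl (Or.inl (Or.inr ⟨X, rfl⟩)))
  · exact Or.inl (Or.inl (Or.inr ⟨t, rfl⟩))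
  · exact Or.inl (Or.inr ⟨(s, t), rfl⟩)
  · exact Or.inr ⟨t, rfl⟩

theorem len [Finite T] (hG : G.Propagating) : ∀ ρ ∈ P G, ρ.1.length ≤ ρ.2.1.length := by
  rintro r (⟨a, X, h, rfl⟩ | ⟨X, y, U, W, A, Y, h, h', rfl⟩ | ⟨X, y, z, U, W, A, h, h', rfl⟩ |
    ⟨X, Y, rfl⟩ | ⟨X, rfl⟩ | ⟨t, rfl⟩ | ⟨s, t, rfl⟩ | ⟨t, rfl⟩) <;> simp [C2]
  have h1 := hG _ h
  exact List.length_pos_iff.mpr h1

/-- head symbols -/
def IsHd (x : S G) : Prop :=
  x = n G M.start ∨ (∃ X A, x = n G (M.hd X A)) ∨ (∃ X, x = n G (M.bk X)) ∨ ∃ t, x = n G (M.fn t)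

variable {G}

theorem not_hd_C1 {u : List (V G)} : ∀ x ∈ C1 G u, ¬ IsHd G x := by
  intro x hx
  obtain ⟨X, _, rfl⟩ := List.mem_map.mp hx
  rintro (h | ⟨_, _, h⟩ | ⟨_, h⟩ | ⟨_, h⟩) <;> simp [n] at h

theorem not_hd_C2 {u : List (V G)} : ∀ x ∈ C2 G u, ¬ IsHd G x := by
  intro x hx
  obtain ⟨X, _, rfl⟩ := List.mem_map.mp hx
  rintro (h | ⟨_, _, h⟩ | ⟨_, h⟩ | ⟨_, h⟩) <;> simp [n] at h

theorem not_hd_Te {u : List T} : ∀ x ∈ Te G u, ¬ IsHd G x := by
  intro x hx
  obtain ⟨X, _, rfl⟩ := List.mem_map.mp hx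
  rintro (h | ⟨_, _, h⟩ | ⟨_, h⟩ | ⟨_, h⟩) <;> simp at h

theorem uniq {α : Type} (p : α → Prop) {a1 b1 a2 b2 : List α} {h h' : α}
    (ha : ∀ x ∈ a1, ¬ p x) (hb : ∀ x ∈ b1, ¬ p x) (hh : p h')
    (he : a1 ++ h :: b1 = a2 ++ h' :: b2) : a1 = a2 ∧ h = h' ∧ b1 = b2 := by
  induction a1 generalizing a2 with
  | nil =>
    cases a2 with
    | nil =>
      simp only [List.nil_append, List.cons.injEq] at he
      exact ⟨rfl, he⟩
    | cons x a2 =>
      simp only [List.nil_append, List.cons_append, List.cons.injEq] at he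
      exact absurd hh (hb h' (by rw [he.2]; simp))
  | cons x a1 ih =>
    cases a2 with
    | nil =>
      simp only [List.nil_append, List.cons_append, List.cons.injEq] at he
      rw [← he.1] at hh
      exact absurd hh (ha x List.mem_cons_self)
    | cons y a2 =>
      simp only [List.cons_append, List.cons.injEq] at he
      obtain ⟨h1, h2, h3⟩ := ih (fun z hz => ha z (List.mem_cons_of_mem _ hz)) he.2
      exact ⟨by rw [he.1, h1], h2, h3⟩

/-- no head: no match -/
theorem uniq' {α : Type} (p : α → Prop) {a a2 b2 : List α} {h' : α}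
    (ha : ∀ x ∈ a, ¬ p x) (hh : p h') (he : a = a2 ++ h' :: b2) : False :=
  ha h' (by rw [he]; simp) hh

/-- the invariant -/
def Inv (α : List (S G)) : Prop :=
  α = [n G M.start] ∨
  (∃ u1 X u2, α = C2 G u1 ++ n G (M.bk X) :: C1 G u2 ∧
    ReflTransGen G.Step G.ax (u1 ++ X :: u2)) ∨
  (∃ u1 v1 X u2, α = C2 G v1 ++ n G (M.hd X (nts G u1)) :: C1 G u2 ∧
    ReflTransGen G.Step G.ax (u1 ++ X :: u2) ∧ Par G.rules [] u1 v1) ∨
  (∃ u1 t w, α = C2 G u1 ++ n G (M.fn t) :: Te G w ∧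
    ReflTransGen G.Step G.ax (u1 ++ Sum.inr t :: w.map Sum.inr)) ∨
  (∃ w, α = Te G w ∧ ReflTransGen G.Step G.ax (w.map Sum.inr))

theorem C2_append (u v : List (V G)) : C2 G (u ++ v) = C2 G u ++ C2 G v := by
  simp [C2]

theorem C2_snoc_inv {u : List (V G)} {a : List (S G)} {x : S G} (h : C2 G u = a ++ [x]) :
    ∃ u' X, u = u' ++ [X] ∧ a = C2 G u' ∧ x = n G (M.c2 X) := by
  rcases List.eq_nil_or_concat' u with rfl | ⟨u', X, rfl⟩
  · simp [C2] at h
  · rw [C2_append] at h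
    obtain ⟨h1, h2⟩ := List.append_inj' h (by simp [C2])
    exact ⟨u', X, rfl, h1.symm, by simpa [C2] using h2.symm⟩

theorem C1_cons_inv {u : List (V G)} {a : List (S G)} {x : S G} (h : C1 G u = x :: a) :
    ∃ u' X, u = X :: u' ∧ a = C1 G u' ∧ x = n G (M.c1 X) := by
  cases u with
  | nil => simp [C1] at h
  | cons X u =>
    simp only [C1, List.map_cons, List.cons.injEq] at h
    exact ⟨u, X, rfl, h.2.symm, h.1.symm⟩

theorem nts_append (u v : List (V G)) : nts G (u ++ v) = nts G u ∪ nts G v := by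
  ext B
  simp [nts]

theorem ok_iff (l : List (V G)) (U W : Set G.N) : Ok G (nts G l) U W ↔
    (∀ B ∈ U, Sum.inl B ∈ l) ∧ ∀ B ∈ W, Sum.inl B ∉ l := Iff.rfl

theorem inv_step [Finite T] {α β : List (S G)} (hα : Inv α) (h : GStep (P G) α β) : Inv β := by
  obtain ⟨a, b, l, r, F, hr, rfl, rfl, hF⟩ := h
  -- the shape of the rule: `l = l1 ++ [h] ++ l2` with a head symbol `h`
  rcases hr with ⟨a0, X, h1, h2⟩ | ⟨X, y, U, W, A, Y, h1, h3, h2⟩ | ⟨X, y, z, U, W, A, h1, h3, h2⟩ |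
    ⟨X, Y, h2⟩ | ⟨X, h2⟩ | ⟨t, h2⟩ | ⟨s, t, h2⟩ | ⟨t, h2⟩ <;>
    simp only [Prod.mk.injEq] at h2 <;> obtain ⟨rfl, rfl, rfl⟩ := h2
  · -- start
    have hh : IsHd G (n G M.start) := Or.inl rfl
    rw [List.append_assoc, List.singleton_append] at hα
    rcases hα with he | ⟨u1, X', u2, he, _⟩ | ⟨u1, v1, X', u2, he, _⟩ | ⟨u1, t, w, he, _⟩ |
      ⟨w, he, _⟩
    · obtain ⟨rfl, _, rfl⟩ := uniq (IsHd G) (a1 := []) (b1 := []) (by simp) (by simp) hh he.symm
      refine Or.inr (Or.inl ⟨a0, X, [], ?_, ?_⟩)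
      · simp [C1]
      · rw [← h1]
    · have := (uniq (IsHd G) not_hd_C2 not_hd_C1 hh he.symm).2.1
      simp [n] at this
    · have := (uniq (IsHd G) not_hd_C2 not_hd_C1 hh he.symm).2.1
      simp [n] at this
    · have := (uniq (IsHd G) not_hd_C2 not_hd_Te hh he.symm).2.1
      simp [n] at this
    · exact (uniq' (IsHd G) not_hd_Te hh he.symm).elim
  · -- head moves right
    have hh : IsHd G (n G (M.hd X A)) := Or.inr (Or.inl ⟨X, A, rfl⟩)
    have e0 : a ++ [n G (M.hd X A), n G (M.c1 Y)] ++ b =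
      a ++ n G (M.hd X A) :: (n G (M.c1 Y) :: b) := by simp
    rw [e0] at hα
    rcases hα with he | ⟨u1, X', u2, he, _⟩ | ⟨u1, v1, X', u2, he, h4, h5⟩ | ⟨u1, t, w, he, _⟩ |
      ⟨w, he, _⟩
    · have := (uniq (IsHd G) (a1 := []) (b1 := []) (by simp) (by simp) hh he.symm).2.1
      simp [n] at this
    · have := (uniq (IsHd G) not_hd_C2 not_hd_C1 hh he.symm).2.1
      simp [n] at this
    · obtain ⟨h6, h7, h8⟩ := uniq (IsHd G) not_hd_C2 not_hd_C1 hh he.symm
      simp only [n, Symbol.nonterminal.injEq, M.hd.injEq] at h7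
      obtain ⟨rfl, rfl⟩ := h7
      obtain ⟨u2', Y', rfl, rfl, h9⟩ := C1_cons_inv h8
      simp only [n, Symbol.nonterminal.injEq, M.c1.injEq] at h9
      subst h9
      refine Or.inr (Or.inr (Or.inl ⟨u1 ++ [X'], v1 ++ y, Y, u2', ?_, ?_, ?_⟩))
      · rw [← h6, C2_append, nts_append]
        simp
      · simpa using h4
      · refine (par_append _ _ _ _).mpr ⟨v1, y, rfl, h5, ?_⟩
        have := Par.cons (l := [] ++ u1) h1 h3.1 h3.2 (Par.nil _)
        rwa [List.append_nil] at this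
    · have := (uniq (IsHd G) not_hd_C2 not_hd_Te hh he.symm).2.1
      simp [n] at this
    · exact (uniq' (IsHd G) not_hd_Te hh he.symm).elim
  · -- head turns
    have hh : IsHd G (n G (M.hd X A)) := Or.inr (Or.inl ⟨X, A, rfl⟩)
    have e0 : a ++ [n G (M.hd X A)] ++ b = a ++ n G (M.hd X A) :: b := by simp
    rw [e0] at hα hF
    rcases hα with he | ⟨u1, X', u2, he, _⟩ | ⟨u1, v1, X', u2, he, h4, h5⟩ | ⟨u1, t, w, he, _⟩ |
      ⟨w, he, _⟩
    · have := (uniq (IsHd G) (a1 := []) (b1 := []) (by simp) (by simp) hh he.symm).2.1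
      simp [n] at this
    · have := (uniq (IsHd G) not_hd_C2 not_hd_C1 hh he.symm).2.1
      simp [n] at this
    · obtain ⟨h6, h7, h8⟩ := uniq (IsHd G) not_hd_C2 not_hd_C1 hh he.symm
      simp only [n, Symbol.nonterminal.injEq, M.hd.injEq] at h7
      obtain ⟨rfl, rfl⟩ := h7
      have h9 : u2 = [] := by
        cases u2 with
        | nil => rfl
        | cons Z u2 =>
          exfalso
          refine hF (M.c1 Z) ((mem_F1 G _).mpr ⟨Z, rfl⟩) ?_
          rw [← h8]
          simp [C1]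
      subst h9
      subst h8
      subst h6
      refine Or.inr (Or.inl ⟨v1 ++ y, z, [], ?_, ?_⟩)
      · rw [C2_append]
        simp [C1]
      · refine h4.tail ((LRC.step_iff G _ _).mpr ⟨by simp, ?_⟩)
        have h10 : v1 ++ y ++ [z] = v1 ++ (y ++ [z]) := by simp
        rw [h10]
        refine (par_append _ _ _ _).mpr ⟨v1, y ++ [z], rfl, h5, ?_⟩
        have := Par.cons (l := [] ++ u1) h1 h3.1 h3.2 (Par.nil _)
        rwa [List.append_nil] at this
    · have := (uniq (IsHd G) not_hd_C2 not_hd_Te hh he.symm).2.1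
      simp [n] at this
    · exact (uniq' (IsHd G) not_hd_Te hh he.symm).elim
  · -- backward move
    have hh : IsHd G (n G (M.bk Y)) := Or.inr (Or.inr (Or.inl ⟨Y, rfl⟩))
    have e0 : a ++ [n G (M.c2 X), n G (M.bk Y)] ++ b =
      (a ++ [n G (M.c2 X)]) ++ n G (M.bk Y) :: b := by simp
    rw [e0] at hα
    rcases hα with he | ⟨u1, X', u2, he, h4⟩ | ⟨u1, v1, X', u2, he, h4, h5⟩ | ⟨u1, t, w, he, _⟩ |
      ⟨w, he, _⟩
    · have := (uniq (IsHd G) (a1 := []) (b1 := []) (by simp) (by simp) hh he.symm).2.1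
      simp [n] at this
    · obtain ⟨h6, h7, h8⟩ := uniq (IsHd G) not_hd_C2 not_hd_C1 hh he.symm
      simp only [n, Symbol.nonterminal.injEq, M.bk.injEq] at h7
      subst h7
      obtain ⟨u1', Z, rfl, rfl, h9⟩ := C2_snoc_inv h6
      simp only [n, Symbol.nonterminal.injEq, M.c2.injEq] at h9
      subst h9
      subst h8
      refine Or.inr (Or.inl ⟨u1', X, X' :: u2, ?_, ?_⟩)
      · simp [C1]
      · simpa using h4
    · have := (uniq (IsHd G) not_hd_C2 not_hd_C1 hh he.symm).2.1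
      simp [n] at this
    · have := (uniq (IsHd G) not_hd_C2 not_hd_Te hh he.symm).2.1
      simp [n] at this
    · exact (uniq' (IsHd G) not_hd_Te hh he.symm).elim
  · -- new sweep
    have hh : IsHd G (n G (M.bk X)) := Or.inr (Or.inr (Or.inl ⟨X, rfl⟩))
    have e0 : a ++ [n G (M.bk X)] ++ b = a ++ n G (M.bk X) :: b := by simp
    rw [e0] at hα hF
    rcases hα with he | ⟨u1, X', u2, he, h4⟩ | ⟨u1, v1, X', u2, he, h4, h5⟩ | ⟨u1, t, w, he, _⟩ |
      ⟨w, he, _⟩
    · have := (uniq (IsHd G) (a1 := []) (b1 := []) (by simp) (by simp) hh he.symm).2.1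
      simp [n] at this
    · obtain ⟨h6, h7, h8⟩ := uniq (IsHd G) not_hd_C2 not_hd_C1 hh he.symm
      simp only [n, Symbol.nonterminal.injEq, M.bk.injEq] at h7
      subst h7
      have h9 : u1 = [] := by
        cases u1 with
        | nil => rfl
        | cons Z u1 =>
          exfalso
          refine hF (M.c2 Z) ((mem_F2 G _).mpr ⟨Z, rfl⟩) ?_
          rw [← h6]
          simp [C2]
      subst h9
      subst h8
      subst h6
      refine Or.inr (Or.inr (Or.inl ⟨[], [], X', u2, ?_, h4, Par.nil _⟩))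
      simp [C2, nts]
    · have := (uniq (IsHd G) not_hd_C2 not_hd_C1 hh he.symm).2.1
      simp [n] at this
    · have := (uniq (IsHd G) not_hd_C2 not_hd_Te hh he.symm).2.1
      simp [n] at this
    · exact (uniq' (IsHd G) not_hd_Te hh he.symm).elim
  · -- finalisation starts
    have hh : IsHd G (n G (M.bk (Sum.inr t))) := Or.inr (Or.inr (Or.inl ⟨_, rfl⟩))
    have e0 : a ++ [n G (M.bk (Sum.inr t))] ++ b = a ++ n G (M.bk (Sum.inr t)) :: b := by simp
    rw [e0] at hα hF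
    rcases hα with he | ⟨u1, X', u2, he, h4⟩ | ⟨u1, v1, X', u2, he, h4, h5⟩ | ⟨u1, t, w, he, _⟩ |
      ⟨w, he, _⟩
    · have := (uniq (IsHd G) (a1 := []) (b1 := []) (by simp) (by simp) hh he.symm).2.1
      simp [n] at this
    · obtain ⟨h6, h7, h8⟩ := uniq (IsHd G) not_hd_C2 not_hd_C1 hh he.symm
      simp only [n, Symbol.nonterminal.injEq, M.bk.injEq] at h7
      subst h7
      have h9 : u2 = [] := by
        cases u2 with
        | nil => rfl
        | cons Z u2 =>
          exfalso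
          refine hF (M.c1 Z) ((mem_F1 G _).mpr ⟨Z, rfl⟩) ?_
          rw [← h8]
          simp [C1]
      subst h9
      subst h8
      subst h6
      refine Or.inr (Or.inr (Or.inr (Or.inl ⟨u1, t, [], ?_, h4⟩)))
      simp [C1, Te]
    · have := (uniq (IsHd G) not_hd_C2 not_hd_C1 hh he.symm).2.1
      simp [n] at this
    · have := (uniq (IsHd G) not_hd_C2 not_hd_Te hh he.symm).2.1
      simp [n] at this
    · exact (uniq' (IsHd G) not_hd_Te hh he.symm).elim
  · -- finalisation moves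
    have hh : IsHd G (n G (M.fn t)) := Or.inr (Or.inr (Or.inr ⟨_, rfl⟩))
    have e0 : a ++ [n G (M.c2 (Sum.inr s)), n G (M.fn t)] ++ b =
      (a ++ [n G (M.c2 (Sum.inr s))]) ++ n G (M.fn t) :: b := by simp
    rw [e0] at hα
    rcases hα with he | ⟨u1, X', u2, he, h4⟩ | ⟨u1, v1, X', u2, he, h4, h5⟩ |
      ⟨u1, t', w, he, h4⟩ | ⟨w, he, _⟩
    · have := (uniq (IsHd G) (a1 := []) (b1 := []) (by simp) (by simp) hh he.symm).2.1
      simp [n] at this
    · have := (uniq (IsHd G) not_hd_C2 not_hd_C1 hh he.symm).2.1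
      simp [n] at this
    · have := (uniq (IsHd G) not_hd_C2 not_hd_C1 hh he.symm).2.1
      simp [n] at this
    · obtain ⟨h6, h7, h8⟩ := uniq (IsHd G) not_hd_C2 not_hd_Te hh he.symm
      simp only [n, Symbol.nonterminal.injEq, M.fn.injEq] at h7
      subst h7
      obtain ⟨u1', Z, rfl, rfl, h9⟩ := C2_snoc_inv h6
      simp only [n, Symbol.nonterminal.injEq, M.c2.injEq] at h9
      subst h9
      subst h8
      refine Or.inr (Or.inr (Or.inr (Or.inl ⟨u1', s, t' :: w, ?_, ?_⟩)))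
      · simp [Te]
      · simpa using h4
    · exact (uniq' (IsHd G) not_hd_Te hh he.symm).elim
  · -- finalisation ends
    have hh : IsHd G (n G (M.fn t)) := Or.inr (Or.inr (Or.inr ⟨_, rfl⟩))
    have e0 : a ++ [n G (M.fn t)] ++ b = a ++ n G (M.fn t) :: b := by simp
    rw [e0] at hα hF
    rcases hα with he | ⟨u1, X', u2, he, h4⟩ | ⟨u1, v1, X', u2, he, h4, h5⟩ |
      ⟨u1, t', w, he, h4⟩ | ⟨w, he, _⟩
    · have := (uniq (IsHd G) (a1 := []) (b1 := []) (by simp) (by simp) hh he.symm).2.1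
      simp [n] at this
    · have := (uniq (IsHd G) not_hd_C2 not_hd_C1 hh he.symm).2.1
      simp [n] at this
    · have := (uniq (IsHd G) not_hd_C2 not_hd_C1 hh he.symm).2.1
      simp [n] at this
    · obtain ⟨h6, h7, h8⟩ := uniq (IsHd G) not_hd_C2 not_hd_Te hh he.symm
      simp only [n, Symbol.nonterminal.injEq, M.fn.injEq] at h7
      subst h7
      have h9 : u1 = [] := by
        cases u1 with
        | nil => rfl
        | cons Z u1 =>
          exfalso
          refine hF (M.c2 Z) ((mem_F2 G _).mpr ⟨Z, rfl⟩) ?_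
          rw [← h6]
          simp [C2]
      subst h9
      subst h8
      subst h6
      refine Or.inr (Or.inr (Or.inr (Or.inr ⟨t' :: w, ?_, h4⟩)))
      simp [C2, Te]
    · exact (uniq' (IsHd G) not_hd_Te hh he.symm).elim

/-! ### construction of derivations -/

theorem step_of [Finite T] {l r : List (S G)} {F : Finset (M G.N T)} (a b : List (S G))
    (h : (l, r, F) ∈ P G) (hF : ∀ B ∈ F, Symbol.nonterminal B ∉ a ++ l ++ b) :
    GStep (P G) (a ++ l ++ b) (a ++ r ++ b) := ⟨a, b, l, r, F, h, rfl, rfl, hF⟩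

/-- derivability -/
def Der (G : LRC T) [Finite T] (α β : List (S G)) : Prop := ReflTransGen (GStep (P G)) α β

theorem der_back [Finite T] (u1 : List (V G)) (X : V G) (u2 : List (V G)) :
    ∃ Y u, u1 ++ X :: u2 = Y :: u ∧ Der G (C2 G u1 ++ n G (M.bk X) :: C1 G u2)
      (n G (M.bk Y) :: C1 G u) := by
  induction u1 using List.reverseRecOn generalizing X u2 with
  | nil => exact ⟨X, u2, rfl, ReflTransGen.refl⟩
  | append_singleton u1 Z ih =>
    obtain ⟨Y, u, h1, h2⟩ := ih Z (X :: u2)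
    refine ⟨Y, u, by simpa using h1, ReflTransGen.trans (ReflTransGen.single ?_) h2⟩
    have h3 := step_of (G := G) (l := [n G (M.c2 Z), n G (M.bk X)])
      (r := [n G (M.bk Z), n G (M.c1 X)]) (F := ∅) (C2 G u1) (C1 G u2)
      (Or.inr (Or.inr (Or.inr (Or.inl ⟨Z, X, rfl⟩)))) (by simp)
    have e1 : C2 G (u1 ++ [Z]) ++ n G (M.bk X) :: C1 G u2 =
        C2 G u1 ++ [n G (M.c2 Z), n G (M.bk X)] ++ C1 G u2 := by simp [C2]
    have e2 : C2 G u1 ++ n G (M.bk Z) :: C1 G (X :: u2) =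
        C2 G u1 ++ [n G (M.bk Z), n G (M.c1 X)] ++ C1 G u2 := by simp [C1]
    rw [e1, e2]
    exact h3

theorem not_mem_C2 {u : List (V G)} {x : M G.N T} (h : ∀ X, x ≠ M.c2 X) :
    (Symbol.nonterminal x : S G) ∉ C2 G u := by
  intro hx
  obtain ⟨X, _, hX⟩ := List.mem_map.mp hx
  simp only [n, Symbol.nonterminal.injEq] at hX
  exact h X hX.symm

theorem not_mem_C1 {u : List (V G)} {x : M G.N T} (h : ∀ X, x ≠ M.c1 X) :
    (Symbol.nonterminal x : S G) ∉ C1 G u := by
  intro hx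
  obtain ⟨X, _, hX⟩ := List.mem_map.mp hx
  simp only [n, Symbol.nonterminal.injEq] at hX
  exact h X hX.symm

theorem not_mem_Te {u : List T} {x : M G.N T} :
    (Symbol.nonterminal x : S G) ∉ Te G u := by
  intro hx
  obtain ⟨X, _, hX⟩ := List.mem_map.mp hx
  simp at hX

/-- the sweep to the right -/
theorem der_sweep [Finite T] (hG : G.Propagating) (u2 : List (V G)) :
    ∀ (u1 v1 : List (V G)) (X : V G) (v2 : List (V G)), Par G.rules u1 (X :: u2) v2 →
      ∃ v3 z, v2 = v3 ++ [z] ∧ Der G (C2 G v1 ++ n G (M.hd X (nts G u1)) :: C1 G u2)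
        (C2 G (v1 ++ v3) ++ [n G (M.bk z)]) := by
  induction u2 with
  | nil =>
    intro u1 v1 X v2 h
    obtain ⟨y, U, W, v', h1, h2, h3, h4, rfl⟩ := par_cons_inv h
    have h5 := par_nil_inv h4
    subst h5
    rcases List.eq_nil_or_concat' y with rfl | ⟨v3, z, rfl⟩
    · exact absurd rfl (hG _ h1)
    · refine ⟨v3, z, by simp, ReflTransGen.single ?_⟩
      have h6 := step_of (G := G) (l := [n G (M.hd X (nts G u1))])
        (r := C2 G v3 ++ [n G (M.bk z)]) (F := F1 G) (C2 G v1) (C1 G [])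
        (Or.inr (Or.inr (Or.inl ⟨X, v3, z, U, W, nts G u1, h1, ⟨h2, h3⟩, rfl⟩))) (by
          intro B hB hm
          obtain ⟨Y, rfl⟩ := (mem_F1 G B).mp hB
          rcases List.mem_append.mp hm with h7 | h7
          · rcases List.mem_append.mp h7 with h8 | h8
            · exact not_mem_C2 (by simp) h8
            · simp [n] at h8
          · simp [C1] at h7)
      have e1 : C2 G v1 ++ n G (M.hd X (nts G u1)) :: C1 G [] =
          C2 G v1 ++ [n G (M.hd X (nts G u1))] ++ C1 G [] := by simp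
      have e2 : C2 G (v1 ++ v3) ++ [n G (M.bk z)] =
          C2 G v1 ++ (C2 G v3 ++ [n G (M.bk z)]) ++ C1 G [] := by simp [C2, C1]
      rw [e1, e2]
      exact h6
  | cons Y u2 ih =>
    intro u1 v1 X v2 h
    obtain ⟨y, U, W, v', h1, h2, h3, h4, rfl⟩ := par_cons_inv h
    obtain ⟨v3, z, rfl, h5⟩ := ih (u1 ++ [X]) (v1 ++ y) Y v' h4
    refine ⟨y ++ v3, z, by simp, ?_⟩
    rw [← List.append_assoc]
    refine ReflTransGen.trans (ReflTransGen.single ?_) h5
    have h6 := step_of (G := G) (l := [n G (M.hd X (nts G u1)), n G (M.c1 Y)])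
        (r := C2 G y ++ [n G (M.hd Y (nts G u1 ∪ nts G [X]))]) (F := ∅) (C2 G v1) (C1 G u2)
        (Or.inr (Or.inl ⟨X, y, U, W, nts G u1, Y, h1, ⟨h2, h3⟩, rfl⟩)) (by simp)
    have e1 : C2 G v1 ++ n G (M.hd X (nts G u1)) :: C1 G (Y :: u2) =
        C2 G v1 ++ [n G (M.hd X (nts G u1)), n G (M.c1 Y)] ++ C1 G u2 := by simp [C1]
    have e2 : C2 G (v1 ++ y) ++ n G (M.hd Y (nts G (u1 ++ [X]))) :: C1 G u2 =
        C2 G v1 ++ (C2 G y ++ [n G (M.hd Y (nts G u1 ∪ nts G [X]))]) ++ C1 G u2 := by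
      rw [nts_append]
      simp [C2]
    rw [e1, e2]
    exact h6

theorem der_step [Finite T] (hG : G.Propagating) {u v : List (V G)} (h : G.Step u v)
    (u1 : List (V G)) (X : V G) (hu : u = u1 ++ [X]) :
    ∃ v1 z, v = v1 ++ [z] ∧ Der G (C2 G u1 ++ [n G (M.bk X)]) (C2 G v1 ++ [n G (M.bk z)]) := by
  obtain ⟨h1, h2⟩ := (LRC.step_iff G u v).mp h
  obtain ⟨Y, u', h3, h4⟩ := der_back (G := G) u1 X []
  rw [hu, h3] at h2
  obtain ⟨v3, z, rfl, h5⟩ := der_sweep hG u' [] [] Y v h2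
  refine ⟨v3, z, rfl, ReflTransGen.trans (b := n G (M.bk Y) :: C1 G u')
    h4 ?_⟩
  refine ReflTransGen.trans (ReflTransGen.single ?_) h5
  have h6 := step_of (G := G) (l := [n G (M.bk Y)]) (r := [n G (M.hd Y ∅)]) (F := F2 G) []
    (C1 G u') (Or.inr (Or.inr (Or.inr (Or.inr (Or.inl ⟨Y, rfl⟩))))) (by
      intro B hB hm
      obtain ⟨Z, rfl⟩ := (mem_F2 G B).mp hB
      rcases List.mem_append.mp hm with h7 | h7
      · simp [n] at h7
      · exact not_mem_C1 (by simp) h7)
  have e1 : n G (M.bk Y) :: C1 G u' = [] ++ [n G (M.bk Y)] ++ C1 G u' := by simp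
  have e2 : C2 G [] ++ n G (M.hd Y (nts G [])) :: C1 G u' =
      [] ++ [n G (M.hd Y ∅)] ++ C1 G u' := by simp [C2, nts]
  rw [e1, e2]
  exact h6

theorem der_fin [Finite T] (w1 : List T) (t : T) (w2 : List T) :
    Der G (C2 G (w1.map Sum.inr) ++ n G (M.fn t) :: Te G w2) (Te G (w1 ++ t :: w2)) := by
  induction w1 using List.reverseRecOn generalizing t w2 with
  | nil =>
    refine ReflTransGen.single ?_
    have h6 := step_of (G := G) (l := [n G (M.fn t)]) (r := [Symbol.terminal t]) (F := F2 G) []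
      (Te G w2) (Or.inr (Or.inr (Or.inr (Or.inr (Or.inr (Or.inr (Or.inr ⟨t, rfl⟩))))))) (by
        intro B hB hm
        obtain ⟨Z, rfl⟩ := (mem_F2 G B).mp hB
        rcases List.mem_append.mp hm with h7 | h7
        · simp [n] at h7
        · exact not_mem_Te h7)
    simpa [C2, Te] using h6
  | append_singleton w1 s ih =>
    have h1 := ih s (t :: w2)
    rw [List.append_assoc, List.singleton_append]
    refine ReflTransGen.trans (ReflTransGen.single ?_) h1
    have h6 := step_of (G := G) (l := [n G (M.c2 (Sum.inr s)), n G (M.fn t)])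
      (r := [n G (M.fn s), Symbol.terminal t]) (F := ∅) (C2 G (w1.map Sum.inr))
      (Te G w2) (Or.inr (Or.inr (Or.inr (Or.inr (Or.inr (Or.inr (Or.inl ⟨s, t, rfl⟩)))))))
      (by simp)
    have e1 : C2 G ((w1 ++ [s]).map Sum.inr) ++ n G (M.fn t) :: Te G w2 =
        C2 G (w1.map Sum.inr) ++ [n G (M.c2 (Sum.inr s)), n G (M.fn t)] ++ Te G w2 := by
      simp [C2]
    have e2 : C2 G (w1.map Sum.inr) ++ n G (M.fn s) :: Te G (t :: w2) =
        C2 G (w1.map Sum.inr) ++ [n G (M.fn s), Symbol.terminal t] ++ Te G w2 := by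
      simp [Te]
    rw [e1, e2]
    exact h6

theorem gGen_iff [Finite T] (hG : G.Propagating) (w : List T) :
    GGen (P G) M.start w ↔ w ∈ G.language := by
  constructor
  · intro h
    have key : ∀ α : List (S G), ReflTransGen (GStep (P G)) [n G M.start] α → Inv α := by
      intro α hα
      induction hα with
      | refl => exact Or.inl rfl
      | tail _ h2 ih => exact inv_step ih h2
    have h1 : Inv (Te G w) := key _ h
    have hnot : ∀ x : M G.N T, n G x ∉ Te G w := fun x => not_mem_Te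
    rcases h1 with he | ⟨u1, X', u2, he, h4⟩ | ⟨u1, v1, X', u2, he, h4, h5⟩ |
      ⟨u1, t', w, he, h4⟩ | ⟨w', he, h4⟩
    · exact absurd (by rw [he]; simp) (hnot M.start)
    · exact absurd (by rw [he]; simp) (hnot (M.bk X'))
    · exact absurd (by rw [he]; simp) (hnot (M.hd X' (nts G u1)))
    · exact absurd (by rw [he]; simp) (hnot (M.fn t'))
    · have : w = w' := by
        refine List.map_injective_iff.mpr ?_ he
        intro a b h
        simpa using h
      rw [this]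
      exact h4
  · intro h
    have key : ∀ u : List (V G), ReflTransGen G.Step G.ax u → ∃ u1 X, u = u1 ++ [X] ∧
        Der G [n G M.start] (C2 G u1 ++ [n G (M.bk X)]) := by
      intro u hu
      induction hu with
      | refl =>
        rcases List.eq_nil_or_concat' G.ax with h1 | ⟨u1, X, h1⟩
        · exact absurd h1 G.ax_ne
        · refine ⟨u1, X, h1, ReflTransGen.single ?_⟩
          have h6 := step_of (G := G) (l := [n G M.start])
            (r := C2 G u1 ++ [n G (M.bk X)]) (F := ∅) [] [] (Or.inl ⟨u1, X, h1, rfl⟩) (by simp)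
          simpa using h6
      | tail _ h2 ih =>
        obtain ⟨u1, X, h3, h4⟩ := ih
        obtain ⟨v1, z, h5, h6⟩ := der_step hG h2 u1 X h3
        exact ⟨v1, z, h5, ReflTransGen.trans h4 h6⟩
    obtain ⟨u1, X, h1, h2⟩ := key _ h
    rcases List.eq_nil_or_concat' w with rfl | ⟨w1, t, rfl⟩
    · simp at h1
    · rw [List.map_append, List.map_singleton] at h1
      obtain ⟨h3, h4⟩ := List.append_inj' h1 rfl
      simp only [List.cons.injEq, and_true] at h4
      subst h3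
      subst h4
      refine ReflTransGen.trans h2 (ReflTransGen.trans (ReflTransGen.single ?_)
        (der_fin w1 t []))
      have h6 := step_of (G := G) (l := [n G (M.bk (Sum.inr t))]) (r := [n G (M.fn t)])
        (F := F1 G) (C2 G (w1.map Sum.inr)) []
        (Or.inr (Or.inr (Or.inr (Or.inr (Or.inr (Or.inl ⟨t, rfl⟩)))))) (by
          intro B hB hm
          obtain ⟨Z, rfl⟩ := (mem_F1 G B).mp hB
          rcases List.mem_append.mp hm with h7 | h7
          · rcases List.mem_append.mp h7 with h8 | h8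
            · exact not_mem_C2 (by simp) h8
            · simp [n] at h8
          · simp at h7)
      simpa [Te] using h6

end gram

end Pool.Agent.R574.LS.NC
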