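import Pool.Agent.R574.LS.Auto
import Pool.Agent.R574.LS.NC
import Pool.Agent.W937.FG.All
import Pool.Agent.W382.FG.P1

set_option autoImplicit false

/-!
Left forbidding E0L grammars with erasing rules are more powerful than propagating left random
context E0L grammars.
-/

namespace Pool.Agent.R574.LS.Erase

open Relation Pool.Agent.R574.LS Pool.Agent.W937.FG

theorem of_prog (T K : Type) [Finite T] [DecidableEq K] (p : Prog T K) :
    ∃ H : LRC T, H.LeftForbidding ∧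
      ∀ w : List T, w ∈ H.language ↔ Exec true p (fun _ => 0) w (fun _ => 0) := by
  obtain ⟨K', dK', fK', p', hp'⟩ := Pool.Agent.W52.FG.G3.main T K p
  obtain ⟨Q, fQ, q0, qf, δ, hδ, hQ⟩ := Pool.Agent.W937.FG.G1.main T K' p'
  refine ⟨Auto.G δ q0 qf hδ, Auto.leftForbidding δ q0 qf hδ, fun w => ?_⟩
  rw [Auto.language_iff, ← hQ true, ← hp' w]

theorem of_primrec (f : ℕ → ℕ) (hf : Nat.Primrec f) :
    ∃ H : LRC (Fin 3), H.LeftForbidding ∧ ∀ m : ℕ, abc m ∈ H.language ↔ f m = 1 := by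
  obtain ⟨M, b, hb, hM1, hM2⟩ := hC4 f hf
  obtain ⟨k, hk⟩ := exists_lt_ack_of_nat_primrec hb
  obtain ⟨H, hH, hGen⟩ := of_prog (Fin 3) Reg (top k M)
  refine ⟨H, hH, fun m => ?_⟩
  rw [hGen (abc m)]
  refine ⟨fun h => hTOPS f M k hM1 m h, fun h => hTOPC f b M k hM2 m ?_ h⟩
  have h1 : b m ≤ ack k (m + 1) := (hk m).le.trans (ack_mono_right k (Nat.le_succ m))
  exact h1.trans (hF.2.2.2.2.2 k (m + 1) (by omega))

theorem main : ∃ H : LRC (Fin 3), H.LeftForbidding ∧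
    ∀ G : LRC (Fin 3), G.Propagating →
      ∃ w : List (Fin 3), w ≠ [] ∧ ¬ (w ∈ G.language ↔ w ∈ H.language) := by
  obtain ⟨f, hf, hdiag⟩ := hP2 Pool.Agent.W382.FG.P1.main
  obtain ⟨H, hH, hGen⟩ := of_primrec f hf
  refine ⟨H, hH, fun G hG => ?_⟩
  have := NC.finM G
  obtain ⟨m, hm, hd⟩ := hdiag (NC.M G.N (Fin 3)) NC.M.start (NC.P G) (NC.finP G) (NC.len G hG)
  rw [NC.gGen_iff hG] at hd
  refine ⟨abc m, ?_, ?_⟩
  · intro h
    have := congrArg List.length h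
    simp [abc] at this
    omega
  · rw [hGen m]
    tauto

end Pool.Agent.R574.LS.Erase
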