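import Mathlib

set_option autoImplicit false

/-!
Bounded bad sequences: in a finitely branching system whose states are well-quasi-ordered, only
finitely many states are reachable from a given state by bad sequences.
-/

namespace Pool.Agent.R574.LS

section

variable {α : Type*} (le : α → α → Prop) (succ : α → α → Prop)

/-- extension of a bad sequence (latest element first) by one element -/
def Child (l l' : List α) : Prop :=
  ∃ x y t, l = y :: t ∧ succ y x ∧ l' = x :: y :: t ∧ l'.Pairwise (fun a b => ¬ le b a)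

theorem child_wf (h : ∀ f : ℕ → α, ∃ i j, i < j ∧ le (f i) (f j)) :
    WellFounded (fun l' l : List α => Child le succ l l') := by
  rw [wellFounded_iff_isEmpty_descending_chain]
  refine ⟨?_⟩
  rintro ⟨f, hf⟩
  have h1 : ∀ n, ∃ x y t, f n = y :: t ∧ succ y x ∧ f (n + 1) = x :: y :: t ∧
      (f (n + 1)).Pairwise (fun a b => ¬ le b a) := hf
  choose x y t e1 _ e2 e3 using h1
  have e4 : ∀ n, f (n + 1) = x n :: f n := fun n => by rw [e1 n, e2 n]
  have e5 : ∀ n k, x n ∈ f (n + 1 + k) := by
    intro n k
    induction k with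
    | zero => rw [Nat.add_zero, e4]; exact List.mem_cons_self
    | succ k ih => rw [← Nat.add_assoc, e4]; exact List.mem_cons_of_mem _ ih
  obtain ⟨i, j, hij, hle⟩ := h x
  obtain ⟨k, rfl⟩ : ∃ k, j = i + 1 + k := ⟨j - (i + 1), by omega⟩
  have h2 := e3 (i + 1 + k)
  rw [e4, List.pairwise_cons] at h2
  exact h2.1 _ (e5 i k) hle

/-- last elements of bad extensions of `l` -/
def Ends (l : List α) : Set α :=
  {z | ∃ t, Relation.ReflTransGen (Child le succ) l (z :: t)}

theorem ends_finite (h : ∀ f : ℕ → α, ∃ i j, i < j ∧ le (f i) (f j))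
    (hfin : ∀ x, {y | succ x y}.Finite) (l : List α) : (Ends le succ l).Finite := by
  induction l using (child_wf le succ h).induction with
  | _ l ih =>
    cases l with
    | nil =>
      refine Set.Finite.subset Set.finite_empty ?_
      rintro z ⟨t, ht⟩
      rcases Relation.ReflTransGen.cases_head ht with h1 | ⟨c, ⟨x, y, s, h1, _⟩, _⟩
      · cases h1
      · cases h1
    | cons y t =>
      have h3 : (⋃ x ∈ {x | succ y x},
          {z | Child le succ (y :: t) (x :: y :: t) ∧ z ∈ Ends le succ (x :: y :: t)}).Finite := by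
        refine Set.Finite.biUnion (hfin y) ?_
        intro x _
        by_cases hc : Child le succ (y :: t) (x :: y :: t)
        · refine (ih _ hc).subset ?_
          rintro z ⟨_, hz⟩
          exact hz
        · refine Set.Finite.subset Set.finite_empty ?_
          rintro z ⟨h4, _⟩
          exact hc h4
      refine (h3.insert y).subset ?_
      rintro z ⟨s, hs⟩
      rcases Relation.ReflTransGen.cases_head hs with h1 | ⟨c, hc, h2⟩
      · cases h1
        exact Or.inl rfl
      · right
        obtain ⟨x, y', t', h1, hs', rfl, hp⟩ := hc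
        cases h1
        rw [Set.mem_iUnion₂]
        exact ⟨x, hs', ⟨x, y, t, rfl, hs', rfl, hp⟩, s, h2⟩

/-- the states at the end of bad sequences starting in a finite set form a finite set -/
theorem bad_finite (h : ∀ f : ℕ → α, ∃ i j, i < j ∧ le (f i) (f j))
    (hfin : ∀ x, {y | succ x y}.Finite) (S : Set α) (hS : S.Finite) :
    {z | ∃ (k : ℕ) (f : ℕ → α), f 0 ∈ S ∧ (∀ i < k, succ (f i) (f (i + 1))) ∧
      (∀ i j, i < j → j ≤ k → ¬ le (f i) (f j)) ∧ z = f k}.Finite := by
  refine (hS.biUnion (fun x _ => ends_finite le succ h hfin [x])).subset ?_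
  rintro z ⟨k, f, h0, hs, hb, rfl⟩
  rw [Set.mem_iUnion₂]
  refine ⟨f 0, h0, ?_⟩
  have key : ∀ k, (∀ i < k, succ (f i) (f (i + 1))) →
      (∀ i j, i < j → j ≤ k → ¬ le (f i) (f j)) →
      ∃ t, Relation.ReflTransGen (Child le succ) [f 0] (f k :: t) ∧
        (f k :: t).Pairwise (fun a b => ¬ le b a) ∧ ∀ y ∈ f k :: t, ∃ i ≤ k, y = f i := by
    intro k
    induction k with
    | zero => 
      intro _ _
      exact ⟨[], Relation.ReflTransGen.refl, by simp, by simp⟩
    | succ k ih =>
      intro h1 h2
      obtain ⟨t, ht1, ht2, ht3⟩ := ih (fun i hi => h1 i (by omega))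
        (fun i j hij hj => h2 i j hij (by omega))
      have hp : (f (k + 1) :: f k :: t).Pairwise (fun a b => ¬ le b a) := by
        rw [List.pairwise_cons]
        refine ⟨?_, ht2⟩
        intro y hy
        obtain ⟨i, hi, rfl⟩ := ht3 y hy
        exact h2 i (k + 1) (by omega) le_rfl
      refine ⟨f k :: t, ht1.tail ⟨f (k + 1), f k, t, rfl, h1 k (by omega), rfl, hp⟩, hp, ?_⟩
      intro y hy
      rcases List.mem_cons.mp hy with rfl | hy
      · exact ⟨k + 1, le_rfl, rfl⟩
      · obtain ⟨i, hi, rfl⟩ := ht3 y hy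
        exact ⟨i, by omega, rfl⟩
  obtain ⟨t, ht, _, _⟩ := key k hs hb
  exact ⟨t, ht⟩

end

/-! ### Words over a finite alphabet, compared by support and letter counts -/

section

variable {A : Type*} [DecidableEq A]

/-- same support and fewer occurrences of each letter -/
def Le (x y : List A) : Prop := (∀ a, a ∈ x ↔ a ∈ y) ∧ ∀ a, x.count a ≤ y.count a

theorem le_wqo [Finite A] (f : ℕ → List A) : ∃ i j, i < j ∧ Le (f i) (f j) := by
  let g : ℕ → (A → ℕ × ℕ) := fun n a => ((f n).count a, if a ∈ f n then 0 else 1)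
  obtain ⟨i, j, hij, h⟩ := wellQuasiOrdered_le (α := A → ℕ × ℕ) g
  have h1 : ∀ a, (f i).count a ≤ (f j).count a := fun a => (h a).1
  refine ⟨i, j, hij, ?_, h1⟩
  intro a
  have h2 : (if a ∈ f i then 0 else 1) ≤ (if a ∈ f j then 0 else 1) := (h a).2
  constructor
  · intro ha
    have h3 := List.count_pos_iff.mpr ha
    exact List.count_pos_iff.mp (lt_of_lt_of_le h3 (h1 a))
  · intro ha
    rw [if_pos ha] at h2
    by_contra hc
    rw [if_neg hc] at h2
    omega

end

end Pool.Agent.R574.LS
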