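import Pool.Agent.R574.LS.Par

set_option autoImplicit false

/-!
A propagating left forbidding E0L grammar for the language of the words `(a b^T)^n`, `1 ≤ n ≤ T`.
-/

namespace Pool.Agent.R574.LS.LF

open Relation Pool.Agent.R574.LS

/-- the nonterminals -/
inductive NT
  | S | E | D | A | P | B
  deriving DecidableEq, Fintype

abbrev Sym : Type := NT ⊕ Fin 2

abbrev s (x : NT) : Sym := Sum.inl x

/-- the rules -/
def rules : Set (Sym × List Sym × Set NT × Set NT) :=
  {(s NT.S, [s NT.S, s NT.D], ∅, ∅),
   (s NT.S, [s NT.E], ∅, ∅),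
   (s NT.D, [s NT.D], ∅, {NT.E}),
   (s NT.D, [s NT.A], ∅, {NT.S}),
   (s NT.E, [s NT.A], ∅, ∅),
   (s NT.A, [s NT.A, s NT.B], ∅, ∅),
   (s NT.A, [s NT.P, s NT.B], ∅, {NT.A}),
   (s NT.P, [s NT.P, s NT.B], ∅, ∅),
   (s NT.P, [Sum.inr 0], ∅, ∅),
   (s NT.B, [s NT.B], ∅, ∅),
   (s NT.B, [Sum.inr 1], ∅, ∅)}

/-- the grammar -/
def G : LRC (Fin 2) where
  N := NT
  finite_N := inferInstance
  rules := rules
  finite_rules := by
    unfold rules
    exact Set.toFinite _
  ax := [s NT.S]
  ax_ne := by simp

theorem leftForbidding : G.LeftForbidding := by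
  intro r hr
  have hr' : r ∈ rules := hr
  simp only [rules, Set.mem_insert_iff, Set.mem_singleton_iff] at hr'
  rcases hr' with rfl | rfl | rfl | rfl | rfl | rfl | rfl | rfl | rfl | rfl | rfl <;> rfl

theorem propagating : G.Propagating := by
  intro r hr
  have hr' : r ∈ rules := hr
  simp only [rules, Set.mem_insert_iff, Set.mem_singleton_iff] at hr'
  rcases hr' with rfl | rfl | rfl | rfl | rfl | rfl | rfl | rfl | rfl | rfl | rfl <;> simp

/-- some terminal symbol occurs -/
def HasT (u : List Sym) : Prop := ∃ x : Fin 2, Sum.inr x ∈ u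

/-- all symbols are terminal symbols -/
def AllT (u : List Sym) : Prop := ∀ c ∈ u, ∃ x : Fin 2, c = Sum.inr x

theorem par_not_hasT {l u v : List Sym} (h : Par rules l u v) : ¬ HasT u := by
  rintro ⟨x, hx⟩
  induction h with
  | nil l => simp at hx
  | cons h1 h2 h3 h4 ih =>
    rcases List.mem_cons.mp hx with h5 | h5
    · subst h5
      simp [rules] at h1
    · exact ih h5

/-- a letter of a row -/
def rl (p : Bool) : Sym := if p then s NT.P else s NT.A

/-- the row of blocks -/
def row (c : List Bool) (t : ℕ) : List Sym := c.flatMap (fun p => rl p :: List.replicate t (s NT.B))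

theorem row_nil (t : ℕ) : row [] t = [] := rfl

theorem row_cons (p : Bool) (c : List Bool) (t : ℕ) :
    row (p :: c) t = rl p :: (List.replicate t (s NT.B) ++ row c t) := by
  simp [row]

theorem par_D {l v : List Sym} {k : ℕ} (h : Par rules l (List.replicate k (s NT.D)) v)
    (hl : s NT.E ∉ l) (hl' : s NT.S ∈ l) : v = List.replicate k (s NT.D) := by
  induction k generalizing l v with
  | zero => exact par_nil_inv h
  | succ k ih =>
    rw [List.replicate_succ] at h
    obtain ⟨y, U, W, v', h1, h2, h3, h4, rfl⟩ := par_cons_inv h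
    simp [rules] at h1
    rcases h1 with ⟨rfl, rfl, rfl⟩ | ⟨rfl, rfl, rfl⟩
    · rw [ih h4 (by simpa using hl) (List.mem_append_left _ hl')]
      rfl
    · exact absurd hl' (h3 _ rfl)

theorem par_D' {l v : List Sym} {k : ℕ} (h : Par rules l (List.replicate k (s NT.D)) v)
    (hl : s NT.E ∈ l) : v = List.replicate k (s NT.A) := by
  induction k generalizing l v with
  | zero => exact par_nil_inv h
  | succ k ih =>
    rw [List.replicate_succ] at h
    obtain ⟨y, U, W, v', h1, h2, h3, h4, rfl⟩ := par_cons_inv h
    simp [rules] at h1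
    rcases h1 with ⟨rfl, rfl, rfl⟩ | ⟨rfl, rfl, rfl⟩
    · exact absurd hl (h3 _ rfl)
    · rw [ih h4 (List.mem_append_left _ hl)]
      rfl

theorem par_B {l v : List Sym} {t : ℕ} (h : Par rules l (List.replicate t (s NT.B)) v) :
    HasT v ∨ v = List.replicate t (s NT.B) := by
  induction t generalizing l v with
  | zero => exact Or.inr (par_nil_inv h)
  | succ t ih =>
    rw [List.replicate_succ] at h
    obtain ⟨y, U, W, v', h1, h2, h3, h4, rfl⟩ := par_cons_inv h
    simp [rules] at h1
    rcases h1 with ⟨rfl, rfl, rfl⟩ | ⟨rfl, rfl, rfl⟩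
    · rcases ih h4 with ⟨x, hx⟩ | h5
      · exact Or.inl ⟨x, List.mem_append_right _ hx⟩
      · rw [h5]
        exact Or.inr rfl
    · exact Or.inl ⟨1, by simp⟩

theorem par_B' {l v : List Sym} {t : ℕ} (h : Par rules l (List.replicate t (s NT.B)) v)
    (hv : AllT v) : v = List.replicate t (Sum.inr 1) := by
  induction t generalizing l v with
  | zero => exact par_nil_inv h
  | succ t ih =>
    rw [List.replicate_succ] at h
    obtain ⟨y, U, W, v', h1, h2, h3, h4, rfl⟩ := par_cons_inv h
    simp [rules] at h1
    rcases h1 with ⟨rfl, rfl, rfl⟩ | ⟨rfl, rfl, rfl⟩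
    · obtain ⟨x, hx⟩ := hv (s NT.B) (by simp)
      simp [s] at hx
    · rw [ih h4 (fun c hc => hv c (List.mem_append_right _ hc))]
      rfl

theorem par_row {l v : List Sym} {c : List Bool} {t : ℕ} (h : Par rules l (row c t) v) :
    HasT v ∨ ∃ c' : List Bool, v = row c' (t + 1) ∧
      c'.count true ≤ c.count true + 1 ∧ (s NT.A ∈ l → c'.count true ≤ c.count true) := by
  induction c generalizing l v with
  | nil =>
    rw [row_nil] at h
    rw [par_nil_inv h]
    exact Or.inr ⟨[], rfl, by simp, by simp⟩
  | cons p c ih =>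
    rw [row_cons] at h
    obtain ⟨y, U, W, v', h1, h2, h3, h4, rfl⟩ := par_cons_inv h
    obtain ⟨v1, v2, rfl, h5, h6⟩ := (par_append _ _ _ _).mp h4
    rcases par_B h5 with ⟨x, hx⟩ | rfl
    · exact Or.inl ⟨x, by simp [hx]⟩
    rcases ih h6 with ⟨x, hx⟩ | ⟨c', rfl, h7, h8⟩
    · exact Or.inl ⟨x, by simp [hx]⟩
    cases p with
    | true =>
      simp [rules, rl] at h1
      rcases h1 with ⟨rfl, rfl, rfl⟩ | ⟨rfl, rfl, rfl⟩
      · refine Or.inr ⟨true :: c', ?_, ?_, ?_⟩
        · rw [row_cons, List.replicate_succ]
          simp [rl]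
        · simp only [List.count_cons_self]
          omega
        · intro hl
          have := h8 (by simp [hl])
          simp only [List.count_cons_self]
          omega
      · exact Or.inl ⟨0, by simp⟩
    | false =>
      have h9 := h8 (by simp [rl])
      simp [rules, rl] at h1
      rcases h1 with ⟨rfl, rfl, rfl⟩ | ⟨rfl, rfl, rfl⟩
      · refine Or.inr ⟨false :: c', ?_, ?_, ?_⟩
        · rw [row_cons, List.replicate_succ]
          simp [rl]
        · rw [List.count_cons_of_ne (by simp), List.count_cons_of_ne (by simp)]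
          omega
        · intro hl
          rw [List.count_cons_of_ne (by simp), List.count_cons_of_ne (by simp)]
          omega
      · refine Or.inr ⟨true :: c', ?_, ?_, ?_⟩
        · rw [row_cons, List.replicate_succ]
          simp [rl]
        · rw [List.count_cons_self, List.count_cons_of_ne (by simp)]
          omega
        · intro hl
          exact absurd hl (h3 _ rfl)

theorem par_row' {l v : List Sym} {c : List Bool} {t : ℕ} (h : Par rules l (row c t) v)
    (hv : AllT v) : v = wd (Sum.inr 0) (Sum.inr 1) c.length t ∧ c.count true = c.length := by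
  induction c generalizing l v with
  | nil =>
    rw [row_nil] at h
    rw [par_nil_inv h]
    exact ⟨rfl, rfl⟩
  | cons p c ih =>
    rw [row_cons] at h
    obtain ⟨y, U, W, v', h1, h2, h3, h4, rfl⟩ := par_cons_inv h
    obtain ⟨v1, v2, rfl, h5, h6⟩ := (par_append _ _ _ _).mp h4
    have h7 := par_B' h5 (fun c hc => hv c (by simp [hc]))
    obtain ⟨h8, h9⟩ := ih h6 (fun c hc => hv c (by simp [hc]))
    have hy : ∀ c ∈ y, ∃ x : Fin 2, c = Sum.inr x := fun c hc => hv c (by simp [hc])
    cases p with
    | true =>
      simp [rules, rl] at h1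
      rcases h1 with ⟨rfl, rfl, rfl⟩ | ⟨rfl, rfl, rfl⟩
      · obtain ⟨x, hx⟩ := hy (s NT.P) (by simp)
        simp [s] at hx
      · refine ⟨?_, ?_⟩
        · rw [List.length_cons, wd_succ, h7, h8]
          simp
        · simp [h9]
    | false =>
      simp [rules, rl] at h1
      rcases h1 with ⟨rfl, rfl, rfl⟩ | ⟨rfl, rfl, rfl⟩
      · obtain ⟨x, hx⟩ := hy (s NT.A) (by simp)
        simp [s] at hx
      · obtain ⟨x, hx⟩ := hy (s NT.P) (by simp)
        simp [s] at hx

/-- the invariant -/
def Inv (u : List Sym) : Prop :=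
  (∃ k, u = s NT.S :: List.replicate k (s NT.D)) ∨
  (∃ k, u = s NT.E :: List.replicate k (s NT.D)) ∨
  (∃ c t, u = row c t ∧ c.count true ≤ t) ∨
  (HasT u ∧ (AllT u → ∃ n t, n ≤ t ∧ u = wd (Sum.inr 0) (Sum.inr 1) n t))

theorem inv_step {u v : List Sym} (hu : Inv u) (h : Par rules [] u v) : Inv v := by
  rcases hu with ⟨k, rfl⟩ | ⟨k, rfl⟩ | ⟨c, t, rfl, hc⟩ | ⟨h1, h2⟩
  · obtain ⟨y, U, W, v', h1, h2, h3, h4, rfl⟩ := par_cons_inv h
    have h5 := par_D h4 (by simp) (by simp)
    subst h5
    simp [rules] at h1
    rcases h1 with ⟨rfl, rfl, rfl⟩ | ⟨rfl, rfl, rfl⟩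
    · exact Or.inl ⟨k + 1, rfl⟩
    · exact Or.inr (Or.inl ⟨k, rfl⟩)
  · obtain ⟨y, U, W, v', h1, h2, h3, h4, rfl⟩ := par_cons_inv h
    have h5 := par_D' h4 (by simp)
    subst h5
    simp [rules] at h1
    obtain ⟨rfl, rfl, rfl⟩ := h1
    refine Or.inr (Or.inr (Or.inl ⟨List.replicate (k + 1) false, 0, ?_, ?_⟩))
    · rw [List.replicate_succ]
      have : ∀ k, row (List.replicate k false) 0 = List.replicate k (s NT.A) := by
        intro k
        induction k with
        | zero => rfl
        | succ k ih =>
          rw [List.replicate_succ, row_cons, ih]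
          simp [rl, List.replicate_succ]
      rw [row_cons, this]
      simp [rl]
    · rw [List.count_replicate]
      simp
  · by_cases hT : HasT v
    · refine Or.inr (Or.inr (Or.inr ⟨hT, ?_⟩))
      intro hA
      obtain ⟨h1, h2⟩ := par_row' h hA
      exact ⟨c.length, t, by omega, h1⟩
    · rcases par_row h with h1 | ⟨c', h1, h2, _⟩
      · exact absurd h1 hT
      · exact Or.inr (Or.inr (Or.inl ⟨c', t + 1, h1, by omega⟩))
  · exact absurd h1 (par_not_hasT h)

theorem inv_of_gen {u : List Sym} (h : ReflTransGen G.Step G.ax u) : Inv u := by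
  induction h with
  | refl => exact Or.inl ⟨0, rfl⟩
  | tail _ h2 ih => exact inv_step ih ((LRC.step_iff G _ _).mp h2).2

theorem sound (w : List (Fin 2)) (hw : w ∈ G.language) (hne : w ≠ []) :
    ∃ n T, n ≤ T ∧ w = wd 0 1 n T := by
  have h1 : Inv (w.map Sum.inr) := inv_of_gen hw
  obtain ⟨x, w', rfl⟩ := List.exists_cons_of_ne_nil hne
  rcases h1 with ⟨k, h⟩ | ⟨k, h⟩ | ⟨c, t, h, hc⟩ | ⟨h1, h2⟩
  · simp [s] at h
  · simp [s] at h
  · cases c with
    | nil => simp [row_nil] at h
    | cons p c =>
      rw [row_cons] at h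
      cases p <;> simp [rl, s] at h
  · obtain ⟨n, t, h3, h4⟩ := h2 (by
      intro c hc
      obtain ⟨y, _, rfl⟩ := List.mem_map.mp hc
      exact ⟨y, rfl⟩)
    refine ⟨n, t, h3, ?_⟩
    have h5 := map_inr_wd (N := NT) n t
    rw [← h5] at h4
    exact List.map_injective_iff.mpr Sum.inr_injective h4

/-! ### the words `(a b^T)^T` are generated -/

theorem mk_B (l : List Sym) (t : ℕ) :
    Par rules l (List.replicate t (s NT.B)) (List.replicate t (s NT.B)) := by
  induction t generalizing l with
  | zero => exact Par.nil l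
  | succ t ih =>
    rw [List.replicate_succ]
    exact Par.cons (y := [s NT.B]) (U := ∅) (W := ∅) (by simp [rules]) (by simp) (by simp) (ih _)

theorem mk_B' (l : List Sym) (t : ℕ) :
    Par rules l (List.replicate t (s NT.B)) (List.replicate t (Sum.inr 1)) := by
  induction t generalizing l with
  | zero => exact Par.nil l
  | succ t ih =>
    rw [List.replicate_succ, List.replicate_succ]
    exact Par.cons (y := [Sum.inr 1]) (U := ∅) (W := ∅) (by simp [rules]) (by simp) (by simp)
      (ih _)

theorem mk_D (l : List Sym) (k : ℕ) (hl : s NT.E ∉ l) :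
    Par rules l (List.replicate k (s NT.D)) (List.replicate k (s NT.D)) := by
  induction k generalizing l with
  | zero => exact Par.nil l
  | succ k ih =>
    rw [List.replicate_succ]
    exact Par.cons (y := [s NT.D]) (U := ∅) (W := {NT.E}) (by simp [rules]) (by simp)
      (by simpa using hl) (ih _ (by simpa using hl))

theorem mk_D' (l : List Sym) (k : ℕ) (hl : s NT.S ∉ l) :
    Par rules l (List.replicate k (s NT.D)) (List.replicate k (s NT.A)) := by
  induction k generalizing l with
  | zero => exact Par.nil l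
  | succ k ih =>
    rw [List.replicate_succ, List.replicate_succ]
    exact Par.cons (y := [s NT.A]) (U := ∅) (W := {NT.S}) (by simp [rules]) (by simp)
      (by simpa using hl) (ih _ (by simpa using hl))

theorem mk_row (l : List Sym) (c : List Bool) (t : ℕ) :
    Par rules l (row c t) (row c (t + 1)) := by
  induction c generalizing l with
  | nil => exact Par.nil l
  | cons p c ih =>
    have h1 : row (p :: c) (t + 1) =
        [rl p, s NT.B] ++ (List.replicate t (s NT.B) ++ row c (t + 1)) := by
      rw [row_cons, List.replicate_succ]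
      simp
    rw [row_cons, h1]
    refine Par.cons (U := ∅) (W := ∅) ?_ (by simp) (by simp) ?_
    · cases p <;> simp [rules, rl]
    · exact (par_append _ _ _ _).mpr ⟨_, _, rfl, mk_B _ _, ih _⟩

theorem mk_row_conv (l : List Sym) (i : ℕ) (c : List Bool) (t : ℕ) (hl : s NT.A ∉ l) :
    Par rules l (row (List.replicate i true ++ false :: c) t)
      (row (List.replicate (i + 1) true ++ c) (t + 1)) := by
  induction i generalizing l with
  | zero =>
    have h1 : row (List.replicate (0 + 1) true ++ c) (t + 1) =
        [s NT.P, s NT.B] ++ (List.replicate t (s NT.B) ++ row c (t + 1)) := by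
      rw [List.replicate_succ, List.cons_append, row_cons, List.replicate_succ]
      simp [rl]
    rw [h1, List.replicate_zero, List.nil_append, row_cons]
    refine Par.cons (U := ∅) (W := {NT.A}) ?_ (by simp) (by simpa using hl) ?_
    · simp [rules, rl]
    · exact (par_append _ _ _ _).mpr ⟨_, _, rfl, mk_B _ _, mk_row _ _ _⟩
  | succ i ih =>
    have h1 : row (List.replicate (i + 1 + 1) true ++ c) (t + 1) =
        [s NT.P, s NT.B] ++ (List.replicate t (s NT.B) ++
          row (List.replicate (i + 1) true ++ c) (t + 1)) := by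
      rw [List.replicate_succ, List.cons_append, row_cons, List.replicate_succ]
      simp [rl]
    rw [h1, List.replicate_succ, List.cons_append, row_cons]
    refine Par.cons (U := ∅) (W := ∅) ?_ (by simp) (by simp) ?_
    · simp [rules, rl]
    · refine (par_append _ _ _ _).mpr ⟨_, _, rfl, mk_B _ _, ih _ ?_⟩
      simp [hl, rl]

theorem mk_row_end (l : List Sym) (n t : ℕ) :
    Par rules l (row (List.replicate n true) t) (wd (Sum.inr 0) (Sum.inr 1) n t) := by
  induction n generalizing l with
  | zero => exact Par.nil l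
  | succ n ih =>
    rw [List.replicate_succ, row_cons, wd_succ]
    refine Par.cons (y := [Sum.inr 0]) (U := ∅) (W := ∅) ?_ (by simp) (by simp) ?_
    · simp [rules, rl]
    · exact (par_append _ _ _ _).mpr ⟨_, _, rfl, mk_B' _ _, ih _⟩

theorem step_of {u v : List Sym} (hne : u ≠ []) (h : Par rules [] u v) : G.Step u v :=
  (LRC.step_iff G u v).mpr ⟨hne, h⟩

theorem row_replicate_false (k : ℕ) :
    row (List.replicate k false) 0 = List.replicate k (s NT.A) := by
  induction k with
  | zero => rfl
  | succ k ih =>
    rw [List.replicate_succ, row_cons, ih]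
    simp [rl, List.replicate_succ]

theorem complete (T : ℕ) (hT : 1 ≤ T) : wd 0 1 T T ∈ G.language := by
  have e1 : ∀ k, ReflTransGen G.Step G.ax (s NT.S :: List.replicate k (s NT.D)) := by
    intro k
    induction k with
    | zero => exact ReflTransGen.refl
    | succ k ih =>
      refine ih.tail (step_of (by simp) ?_)
      exact Par.cons (y := [s NT.S, s NT.D]) (U := ∅) (W := ∅)
        (by simp [rules]) (by simp) (by simp) (mk_D _ k (by simp))
  obtain ⟨k, rfl⟩ : ∃ k, T = k + 1 := ⟨T - 1, by omega⟩
  have e2 : ReflTransGen G.Step G.ax (s NT.E :: List.replicate k (s NT.D)) := by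
    refine (e1 k).tail (step_of (by simp) ?_)
    exact Par.cons (y := [s NT.E]) (U := ∅) (W := ∅)
      (by simp [rules]) (by simp) (by simp) (mk_D _ k (by simp))
  have e3 : ReflTransGen G.Step G.ax (row (List.replicate (k + 1) false) 0) := by
    refine e2.tail (step_of (by simp) ?_)
    rw [row_replicate_false, List.replicate_succ]
    exact Par.cons (y := [s NT.A]) (U := ∅) (W := ∅)
      (by simp [rules]) (by simp) (by simp) (mk_D' _ k (by simp))
  have e4 : ∀ i j, i + j = k + 1 → ReflTransGen G.Step G.ax
      (row (List.replicate i true ++ List.replicate j false) i) := by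
    intro i
    induction i with
    | zero =>
      intro j hj
      have : j = k + 1 := by omega
      subst this
      exact e3
    | succ i ih =>
      intro j hj
      have h1 := ih (j + 1) (by omega)
      rw [List.replicate_succ] at h1
      refine h1.tail (step_of ?_ (mk_row_conv _ i _ i (by simp)))
      cases i with
      | zero => simp [row_cons]
      | succ i => simp [List.replicate_succ, row_cons]
  have e5 := e4 (k + 1) 0 (by omega)
  rw [List.replicate_zero, List.append_nil] at e5
  have e6 : ReflTransGen G.Step G.ax (wd (Sum.inr 0) (Sum.inr 1) (k + 1) (k + 1)) := by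
    refine e5.tail (step_of ?_ (mk_row_end _ _ _))
    rw [List.replicate_succ, row_cons]
    simp
  rw [← map_inr_wd] at e6
  exact e6

end Pool.Agent.R574.LS.LF
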