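import Pool.Agent.R574.LS.Par

set_option autoImplicit false

/-!
A propagating left permitting E0L grammar which generates only words `(a b^T)^n` with `T < n` and
all words `(a b^T)^(T+1)` with `1 ≤ T`.
-/

namespace Pool.Agent.R574.LS.LP

open Relation Pool.Agent.R574.LS

/-- the nonterminals -/
inductive NT
  | S | R | D | Z0 | Z | A | X | Y | B
  deriving DecidableEq, Fintype

abbrev Sym : Type := NT ⊕ Fin 2

abbrev s (x : NT) : Sym := Sum.inl x

/-- the rules -/
def rules : Set (Sym × List Sym × Set NT × Set NT) :=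
  {(s NT.S, [s NT.S, s NT.D], ∅, ∅),
   (s NT.S, [s NT.R], ∅, ∅),
   (s NT.D, [s NT.D], {NT.S}, ∅),
   (s NT.Z0, [s NT.Z0], {NT.S}, ∅),
   (s NT.R, [s NT.A], ∅, ∅),
   (s NT.R, [s NT.X], ∅, ∅),
   (s NT.D, [s NT.A], {NT.R}, ∅),
   (s NT.D, [s NT.X], {NT.R}, ∅),
   (s NT.Z0, [s NT.Z], {NT.R}, ∅),
   (s NT.A, [s NT.A, s NT.B], ∅, ∅),
   (s NT.A, [s NT.X, s NT.B], ∅, ∅),
   (s NT.X, [s NT.Y, s NT.B], ∅, ∅),
   (s NT.Y, [s NT.Y, s NT.B], ∅, ∅),
   (s NT.Z, [s NT.Z, s NT.B], {NT.X}, ∅),
   (s NT.B, [s NT.B], ∅, ∅),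
   (s NT.A, [Sum.inr 0], ∅, ∅),
   (s NT.X, [Sum.inr 0], ∅, ∅),
   (s NT.Y, [Sum.inr 0], ∅, ∅),
   (s NT.Z, [Sum.inr 0], ∅, ∅),
   (s NT.B, [Sum.inr 1], ∅, ∅)}

/-- the grammar -/
def G : LRC (Fin 2) where
  N := NT
  finite_N := inferInstance
  rules := rules
  finite_rules := by
    unfold rules
    exact Set.toFinite _
  ax := [s NT.S, s NT.Z0]
  ax_ne := by simp

theorem leftPermitting : G.LeftPermitting := by
  intro r hr
  have hr' : r ∈ rules := hr
  simp only [rules, Set.mem_insert_iff, Set.mem_singleton_iff] at hr'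
  rcases hr' with rfl | rfl | rfl | rfl | rfl | rfl | rfl | rfl | rfl | rfl | rfl | rfl | rfl |
    rfl | rfl | rfl | rfl | rfl | rfl | rfl <;> rfl

theorem propagating : G.Propagating := by
  intro r hr
  have hr' : r ∈ rules := hr
  simp only [rules, Set.mem_insert_iff, Set.mem_singleton_iff] at hr'
  rcases hr' with rfl | rfl | rfl | rfl | rfl | rfl | rfl | rfl | rfl | rfl | rfl | rfl | rfl |
    rfl | rfl | rfl | rfl | rfl | rfl | rfl <;> simp

/-- some terminal symbol occurs -/
def HasT (u : List Sym) : Prop := ∃ x : Fin 2, Sum.inr x ∈ u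

/-- all symbols are terminal symbols -/
def AllT (u : List Sym) : Prop := ∀ c ∈ u, ∃ x : Fin 2, c = Sum.inr x

theorem par_not_hasT {l u v : List Sym} (h : Par rules l u v) : ¬ HasT u := by
  rintro ⟨x, hx⟩
  induction h with
  | nil l => simp at hx
  | cons h1 h2 h3 h4 ih =>
    rcases List.mem_cons.mp hx with h5 | h5
    · subst h5
      simp [rules] at h1
    · exact ih h5

/-- a letter of a row -/
def rl (p : Fin 3) : Sym := if p = 0 then s NT.A else if p = 1 then s NT.X else s NT.Y

/-- the row of blocks -/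
def row (c : List (Fin 3)) (t : ℕ) : List Sym :=
  c.flatMap (fun p => rl p :: List.replicate t (s NT.B))

theorem row_nil (t : ℕ) : row [] t = [] := rfl

theorem row_cons (p : Fin 3) (c : List (Fin 3)) (t : ℕ) :
    row (p :: c) t = rl p :: (List.replicate t (s NT.B) ++ row c t) := by
  simp [row]

/-- the last block -/
def last (t : ℕ) : List Sym := s NT.Z :: List.replicate t (s NT.B)

theorem par_D {l v : List Sym} {k : ℕ} (h : Par rules l (List.replicate k (s NT.D)) v)
    (hl : s NT.R ∉ l) : v = List.replicate k (s NT.D) := by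
  induction k generalizing l v with
  | zero => exact par_nil_inv h
  | succ k ih =>
    rw [List.replicate_succ] at h
    obtain ⟨y, U, W, v', h1, h2, h3, h4, rfl⟩ := par_cons_inv h
    simp [rules] at h1
    rcases h1 with ⟨rfl, rfl, rfl⟩ | ⟨rfl, rfl, rfl⟩ | ⟨rfl, rfl, rfl⟩
    · rw [ih h4 (by simpa using hl)]
      rfl
    · exact absurd (h2 _ rfl) hl
    · exact absurd (h2 _ rfl) hl

theorem par_D' {l v : List Sym} {k : ℕ} (h : Par rules l (List.replicate k (s NT.D)) v)
    (hl : s NT.S ∉ l) : ∃ c, v = row c 0 ∧ c.length = k := by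
  induction k generalizing l v with
  | zero => exact ⟨[], par_nil_inv h, rfl⟩
  | succ k ih =>
    rw [List.replicate_succ] at h
    obtain ⟨y, U, W, v', h1, h2, h3, h4, rfl⟩ := par_cons_inv h
    obtain ⟨c, rfl, hc⟩ := ih h4 (by simpa using hl)
    simp [rules] at h1
    rcases h1 with ⟨rfl, rfl, rfl⟩ | ⟨rfl, rfl, rfl⟩ | ⟨rfl, rfl, rfl⟩
    · exact absurd (h2 _ rfl) hl
    · exact ⟨0 :: c, by simp [row_cons, rl], by simp [hc]⟩
    · exact ⟨1 :: c, by simp [row_cons, rl], by simp [hc]⟩

theorem par_B {l v : List Sym} {t : ℕ} (h : Par rules l (List.replicate t (s NT.B)) v) :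
    HasT v ∨ v = List.replicate t (s NT.B) := by
  induction t generalizing l v with
  | zero => exact Or.inr (par_nil_inv h)
  | succ t ih =>
    rw [List.replicate_succ] at h
    obtain ⟨y, U, W, v', h1, h2, h3, h4, rfl⟩ := par_cons_inv h
    simp [rules] at h1
    rcases h1 with ⟨rfl, rfl, rfl⟩ | ⟨rfl, rfl, rfl⟩
    · rcases ih h4 with ⟨x, hx⟩ | h5
      · exact Or.inl ⟨x, List.mem_append_right _ hx⟩
      · rw [h5]
        exact Or.inr rfl
    · exact Or.inl ⟨1, by simp⟩

theorem par_B' {l v : List Sym} {t : ℕ} (h : Par rules l (List.replicate t (s NT.B)) v)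
    (hv : AllT v) : v = List.replicate t (Sum.inr 1) := by
  induction t generalizing l v with
  | zero => exact par_nil_inv h
  | succ t ih =>
    rw [List.replicate_succ] at h
    obtain ⟨y, U, W, v', h1, h2, h3, h4, rfl⟩ := par_cons_inv h
    simp [rules] at h1
    rcases h1 with ⟨rfl, rfl, rfl⟩ | ⟨rfl, rfl, rfl⟩
    · obtain ⟨x, hx⟩ := hv (s NT.B) (by simp)
      simp [s] at hx
    · rw [ih h4 (fun c hc => hv c (List.mem_append_right _ hc))]
      rfl

theorem par_row {l v : List Sym} {c : List (Fin 3)} {t : ℕ} (h : Par rules l (row c t) v) :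
    HasT v ∨ ∃ c' : List (Fin 3), v = row c' (t + 1) ∧ c'.length = c.length ∧
      c.count 1 + c.count 2 ≤ c'.count 2 := by
  induction c generalizing l v with
  | nil =>
    rw [row_nil] at h
    rw [par_nil_inv h]
    exact Or.inr ⟨[], rfl, by simp, by simp⟩
  | cons p c ih =>
    rw [row_cons] at h
    obtain ⟨y, U, W, v', h1, h2, h3, h4, rfl⟩ := par_cons_inv h
    obtain ⟨v1, v2, rfl, h5, h6⟩ := (par_append _ _ _ _).mp h4
    rcases par_B h5 with ⟨x, hx⟩ | rfl
    · exact Or.inl ⟨x, by simp [hx]⟩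
    rcases ih h6 with ⟨x, hx⟩ | ⟨c', rfl, h7, h8⟩
    · exact Or.inl ⟨x, by simp [hx]⟩
    have key : ∀ q : Fin 3, y = [rl q, s NT.B] → (p = 1 → q = 2) → (p = 2 → q = 2) →
        HasT (y ++ (List.replicate t (s NT.B) ++ row c' (t + 1))) ∨
        ∃ c'' : List (Fin 3), y ++ (List.replicate t (s NT.B) ++ row c' (t + 1)) =
          row c'' (t + 1) ∧ c''.length = (p :: c).length ∧
          (p :: c).count 1 + (p :: c).count 2 ≤ c''.count 2 := by
      intro q hq hq1 hq2
      refine Or.inr ⟨q :: c', ?_, by simp [h7], ?_⟩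
      · rw [row_cons, List.replicate_succ, hq]
        simp
      · rw [List.count_cons, List.count_cons, List.count_cons]
        fin_cases p
        · simp
          omega
        · have := hq1 rfl
          subst this
          simp
          omega
        · have := hq2 rfl
          subst this
          simp
          omega
    fin_cases p
    · simp [rules, rl] at h1
      rcases h1 with ⟨rfl, rfl, rfl⟩ | ⟨rfl, rfl, rfl⟩ | ⟨rfl, rfl, rfl⟩
      · exact key 0 (by simp [rl]) (by simp) (by simp)
      · exact key 1 (by simp [rl]) (by simp) (by simp)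
      · exact Or.inl ⟨0, by simp⟩
    · simp [rules, rl] at h1
      rcases h1 with ⟨rfl, rfl, rfl⟩ | ⟨rfl, rfl, rfl⟩
      · exact key 2 (by simp [rl]) (by simp) (by simp)
      · exact Or.inl ⟨0, by simp⟩
    · simp [rules, rl] at h1
      rcases h1 with ⟨rfl, rfl, rfl⟩ | ⟨rfl, rfl, rfl⟩
      · exact key 2 (by simp [rl]) (by simp) (by simp)
      · exact Or.inl ⟨0, by simp⟩

theorem par_row' {l v : List Sym} {c : List (Fin 3)} {t : ℕ} (h : Par rules l (row c t) v)
    (hv : AllT v) : v = wd (Sum.inr 0) (Sum.inr 1) c.length t := by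
  induction c generalizing l v with
  | nil =>
    rw [row_nil] at h
    rw [par_nil_inv h]
    rfl
  | cons p c ih =>
    rw [row_cons] at h
    obtain ⟨y, U, W, v', h1, h2, h3, h4, rfl⟩ := par_cons_inv h
    obtain ⟨v1, v2, rfl, h5, h6⟩ := (par_append _ _ _ _).mp h4
    have h7 := par_B' h5 (fun c hc => hv c (by simp [hc]))
    have h8 := ih h6 (fun c hc => hv c (by simp [hc]))
    have hy : ∀ x : NT, s x ∉ y := by
      intro x hx
      obtain ⟨z, hz⟩ := hv (s x) (by simp [hx])
      simp [s] at hz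
    have key : y = [Sum.inr 0] := by
      fin_cases p
      · simp [rules, rl] at h1
        rcases h1 with ⟨rfl, rfl, rfl⟩ | ⟨rfl, rfl, rfl⟩ | ⟨rfl, rfl, rfl⟩
        · exact absurd (by simp) (hy NT.A)
        · exact absurd (by simp) (hy NT.X)
        · rfl
      · simp [rules, rl] at h1
        rcases h1 with ⟨rfl, rfl, rfl⟩ | ⟨rfl, rfl, rfl⟩
        · exact absurd (by simp) (hy NT.Y)
        · rfl
      · simp [rules, rl] at h1
        rcases h1 with ⟨rfl, rfl, rfl⟩ | ⟨rfl, rfl, rfl⟩
        · exact absurd (by simp) (hy NT.Y)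
        · rfl
    rw [List.length_cons, wd_succ, h7, h8, key]
    simp

theorem X_mem_row {c : List (Fin 3)} {t : ℕ} (h : s NT.X ∈ row c t) : 1 ≤ c.count 1 := by
  induction c with
  | nil => simp [row_nil] at h
  | cons p c ih =>
    rw [row_cons] at h
    rcases List.mem_cons.mp h with h1 | h1
    · fin_cases p
      · simp [rl] at h1
      · simp
      · simp [rl] at h1
    · rcases List.mem_append.mp h1 with h2 | h2
      · simp at h2
      · have := ih h2
        rw [List.count_cons]
        omega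

theorem par_last {l v : List Sym} {t : ℕ} (h : Par rules l (last t) v) :
    HasT v ∨ (v = last (t + 1) ∧ s NT.X ∈ l) := by
  obtain ⟨y, U, W, v', h1, h2, h3, h4, rfl⟩ := par_cons_inv h
  rcases par_B h4 with ⟨x, hx⟩ | rfl
  · exact Or.inl ⟨x, by simp [hx]⟩
  simp [rules] at h1
  rcases h1 with ⟨rfl, rfl, rfl⟩ | ⟨rfl, rfl, rfl⟩
  · refine Or.inr ⟨?_, h2 _ rfl⟩
    rw [last, List.replicate_succ]
    rfl
  · exact Or.inl ⟨0, by simp⟩

theorem par_last' {l v : List Sym} {t : ℕ} (h : Par rules l (last t) v) (hv : AllT v) :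
    v = wd (Sum.inr 0) (Sum.inr 1) 1 t := by
  obtain ⟨y, U, W, v', h1, h2, h3, h4, rfl⟩ := par_cons_inv h
  have h5 := par_B' h4 (fun c hc => hv c (by simp [hc]))
  subst h5
  simp [rules] at h1
  rcases h1 with ⟨rfl, rfl, rfl⟩ | ⟨rfl, rfl, rfl⟩
  · obtain ⟨z, hz⟩ := hv (s NT.Z) (by simp)
    simp [s] at hz
  · rw [wd_succ]
    simp [wd]

/-- the invariant -/
def Inv (u : List Sym) : Prop :=
  (∃ k, u = s NT.S :: (List.replicate k (s NT.D) ++ [s NT.Z0])) ∨
  (∃ k, u = s NT.R :: (List.replicate k (s NT.D) ++ [s NT.Z0])) ∨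
  (∃ c t, u = row c t ++ last t ∧ t ≤ c.count 2) ∨
  (HasT u ∧ (AllT u → ∃ n t, t < n ∧ u = wd (Sum.inr 0) (Sum.inr 1) n t))

theorem wd_add (a b : Sym) (n m t : ℕ) : wd a b (n + m) t = wd a b n t ++ wd a b m t := by
  simp only [wd, List.replicate_add, List.flatten_append]

theorem inv_step {u v : List Sym} (hu : Inv u) (h : Par rules [] u v) : Inv v := by
  rcases hu with ⟨k, rfl⟩ | ⟨k, rfl⟩ | ⟨c, t, rfl, hc⟩ | ⟨h1, h2⟩
  · obtain ⟨y, U, W, v', h1, h2, h3, h4, rfl⟩ := par_cons_inv h
    obtain ⟨v1, v2, rfl, h5, h6⟩ := (par_append _ _ _ _).mp h4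
    have h7 := par_D h5 (by simp)
    subst h7
    obtain ⟨y2, U2, W2, v3, h8, h9, h10, h11, rfl⟩ := par_cons_inv h6
    have h12 := par_nil_inv h11
    subst h12
    have h13 : y2 = [s NT.Z0] := by
      simp [rules] at h8
      rcases h8 with ⟨rfl, rfl, rfl⟩ | ⟨rfl, rfl, rfl⟩
      · rfl
      · have := h9 NT.R rfl
        simp at this
    subst h13
    simp [rules] at h1
    rcases h1 with ⟨rfl, rfl, rfl⟩ | ⟨rfl, rfl, rfl⟩
    · exact Or.inl ⟨k + 1, rfl⟩
    · exact Or.inr (Or.inl ⟨k, rfl⟩)
  · obtain ⟨y, U, W, v', h1, h2, h3, h4, rfl⟩ := par_cons_inv h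
    obtain ⟨v1, v2, rfl, h5, h6⟩ := (par_append _ _ _ _).mp h4
    obtain ⟨c, rfl, hc⟩ := par_D' h5 (by simp)
    obtain ⟨y2, U2, W2, v3, h8, h9, h10, h11, rfl⟩ := par_cons_inv h6
    have h12 := par_nil_inv h11
    subst h12
    have h13 : y2 = [s NT.Z] := by
      simp [rules] at h8
      rcases h8 with ⟨rfl, rfl, rfl⟩ | ⟨rfl, rfl, rfl⟩
      · have := h9 NT.S rfl
        simp at this
      · rfl
    subst h13
    simp [rules] at h1
    rcases h1 with ⟨rfl, rfl, rfl⟩ | ⟨rfl, rfl, rfl⟩
    · exact Or.inr (Or.inr (Or.inl ⟨0 :: c, 0, by simp [row_cons, rl, last], by simp⟩))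
    · exact Or.inr (Or.inr (Or.inl ⟨1 :: c, 0, by simp [row_cons, rl, last], by simp⟩))
  · obtain ⟨v1, v2, rfl, h5, h6⟩ := (par_append _ _ _ _).mp h
    by_cases hT : HasT (v1 ++ v2)
    · refine Or.inr (Or.inr (Or.inr ⟨hT, ?_⟩))
      intro hA
      have h1 := par_row' h5 (fun c hc => hA c (by simp [hc]))
      have h2 := par_last' h6 (fun c hc => hA c (by simp [hc]))
      refine ⟨c.length + 1, t, ?_, ?_⟩
      · have := c.count_le_length (a := 2)
        omega
      · rw [wd_add, h1, h2]
    · rcases par_row h5 with ⟨x, hx⟩ | ⟨c', rfl, h1, h2⟩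
      · exact absurd ⟨x, by simp [hx]⟩ hT
      · rcases par_last h6 with ⟨x, hx⟩ | ⟨rfl, h3⟩
        · exact absurd ⟨x, by simp [hx]⟩ hT
        · have h4 := X_mem_row (by simpa using h3)
          exact Or.inr (Or.inr (Or.inl ⟨c', t + 1, rfl, by omega⟩))
  · exact absurd h1 (par_not_hasT h)

theorem inv_of_gen {u : List Sym} (h : ReflTransGen G.Step G.ax u) : Inv u := by
  induction h with
  | refl => exact Or.inl ⟨0, rfl⟩
  | tail _ h2 ih => exact inv_step ih ((LRC.step_iff G _ _).mp h2).2

theorem sound (w : List (Fin 2)) (hw : w ∈ G.language) (hne : w ≠ []) :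
    ∃ n T, T < n ∧ w = wd 0 1 n T := by
  have h1 : Inv (w.map Sum.inr) := inv_of_gen hw
  obtain ⟨x, w', rfl⟩ := List.exists_cons_of_ne_nil hne
  rcases h1 with ⟨k, h⟩ | ⟨k, h⟩ | ⟨c, t, h, hc⟩ | ⟨h1, h2⟩
  · simp [s] at h
  · simp [s] at h
  · cases c with
    | nil => simp [row_nil, last, s] at h
    | cons p c =>
      rw [row_cons] at h
      fin_cases p <;> simp [rl, s] at h
  · obtain ⟨n, t, h3, h4⟩ := h2 (by
      intro c hc
      obtain ⟨y, _, rfl⟩ := List.mem_map.mp hc
      exact ⟨y, rfl⟩)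
    refine ⟨n, t, h3, ?_⟩
    have h5 := map_inr_wd (N := NT) n t
    rw [← h5] at h4
    exact List.map_injective_iff.mpr Sum.inr_injective h4

/-! ### the words `(a b^T)^(T+1)` are generated -/

theorem mk_B (l : List Sym) (t : ℕ) :
    Par rules l (List.replicate t (s NT.B)) (List.replicate t (s NT.B)) := by
  induction t generalizing l with
  | zero => exact Par.nil l
  | succ t ih =>
    rw [List.replicate_succ]
    exact Par.cons (y := [s NT.B]) (U := ∅) (W := ∅) (by simp [rules]) (by simp) (by simp) (ih _)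

theorem mk_B' (l : List Sym) (t : ℕ) :
    Par rules l (List.replicate t (s NT.B)) (List.replicate t (Sum.inr 1)) := by
  induction t generalizing l with
  | zero => exact Par.nil l
  | succ t ih =>
    rw [List.replicate_succ, List.replicate_succ]
    exact Par.cons (y := [Sum.inr 1]) (U := ∅) (W := ∅) (by simp [rules]) (by simp) (by simp)
      (ih _)

theorem mk_D (l : List Sym) (k : ℕ) (hl : s NT.S ∈ l) :
    Par rules l (List.replicate k (s NT.D)) (List.replicate k (s NT.D)) := by
  induction k generalizing l with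
  | zero => exact Par.nil l
  | succ k ih =>
    rw [List.replicate_succ]
    exact Par.cons (y := [s NT.D]) (U := {NT.S}) (W := ∅) (by simp [rules]) (by simpa using hl)
      (by simp) (ih _ (by simp [hl]))

theorem mk_D' (l : List Sym) (k : ℕ) (hl : s NT.R ∈ l) :
    Par rules l (List.replicate k (s NT.D)) (List.replicate k (s NT.A)) := by
  induction k generalizing l with
  | zero => exact Par.nil l
  | succ k ih =>
    rw [List.replicate_succ, List.replicate_succ]
    exact Par.cons (y := [s NT.A]) (U := {NT.R}) (W := ∅) (by simp [rules]) (by simpa using hl)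
      (by simp) (ih _ (by simp [hl]))

theorem mk_row (l : List Sym) (c : List (Fin 3)) (t : ℕ) (hc : 1 ∉ c) :
    Par rules l (row c t) (row c (t + 1)) := by
  induction c generalizing l with
  | nil => exact Par.nil l
  | cons p c ih =>
    have h1 : row (p :: c) (t + 1) =
        [rl p, s NT.B] ++ (List.replicate t (s NT.B) ++ row c (t + 1)) := by
      rw [row_cons, List.replicate_succ]
      simp
    rw [row_cons, h1]
    refine Par.cons (U := ∅) (W := ∅) ?_ (by simp) (by simp) ?_
    · have : p ≠ 1 := by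
        rintro rfl
        simp at hc
      fin_cases p
      · simp [rules, rl]
      · simp at this
      · simp [rules, rl]
    · refine (par_append _ _ _ _).mpr ⟨_, _, rfl, mk_B _ _, ih _ ?_⟩
      intro h2
      exact hc (List.mem_cons_of_mem _ h2)

/-- one conversion of the active block, the next block becomes active -/
theorem mk_row_conv (l : List Sym) (i : ℕ) (c : List (Fin 3)) (t : ℕ) (hc : 1 ∉ c) :
    Par rules l (row (List.replicate i 2 ++ 1 :: 0 :: c) t)
      (row (List.replicate (i + 1) 2 ++ 1 :: c) (t + 1)) := by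
  induction i generalizing l with
  | zero =>
    have h1 : row (List.replicate (0 + 1) 2 ++ 1 :: c) (t + 1) =
        [s NT.Y, s NT.B] ++ (List.replicate t (s NT.B) ++
          ([s NT.X, s NT.B] ++ (List.replicate t (s NT.B) ++ row c (t + 1)))) := by
      rw [List.replicate_succ, List.cons_append, row_cons, List.replicate_zero, List.nil_append,
        row_cons, List.replicate_succ]
      simp [rl]
    rw [h1, List.replicate_zero, List.nil_append, row_cons, row_cons]
    refine Par.cons (U := ∅) (W := ∅) ?_ (by simp) (by simp) ?_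
    · simp [rules, rl]
    refine (par_append _ _ _ _).mpr ⟨_, _, rfl, mk_B _ _, ?_⟩
    refine Par.cons (U := ∅) (W := ∅) ?_ (by simp) (by simp) ?_
    · simp [rules, rl]
    exact (par_append _ _ _ _).mpr ⟨_, _, rfl, mk_B _ _, mk_row _ _ _ hc⟩
  | succ i ih =>
    have h1 : row (List.replicate (i + 1 + 1) 2 ++ 1 :: c) (t + 1) =
        [s NT.Y, s NT.B] ++ (List.replicate t (s NT.B) ++
          row (List.replicate (i + 1) 2 ++ 1 :: c) (t + 1)) := by
      rw [List.replicate_succ, List.cons_append, row_cons, List.replicate_succ]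
      simp [rl]
    rw [h1, List.replicate_succ, List.cons_append, row_cons]
    refine Par.cons (U := ∅) (W := ∅) ?_ (by simp) (by simp) ?_
    · simp [rules, rl]
    · exact (par_append _ _ _ _).mpr ⟨_, _, rfl, mk_B _ _, ih _⟩

/-- conversion of the last active block -/
theorem mk_row_conv' (l : List Sym) (i : ℕ) (t : ℕ) :
    Par rules l (row (List.replicate i 2 ++ [1]) t) (row (List.replicate (i + 1) 2) (t + 1)) := by
  induction i generalizing l with
  | zero =>
    have h1 : row (List.replicate (0 + 1) 2) (t + 1) =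
        [s NT.Y, s NT.B] ++ (List.replicate t (s NT.B) ++ []) := by
      rw [List.replicate_succ, row_cons, List.replicate_zero, List.replicate_succ]
      simp [rl, row_nil]
    rw [h1, List.replicate_zero, List.nil_append, row_cons]
    refine Par.cons (U := ∅) (W := ∅) ?_ (by simp) (by simp) ?_
    · simp [rules, rl]
    exact (par_append _ _ _ _).mpr ⟨_, _, rfl, mk_B _ _, Par.nil _⟩
  | succ i ih =>
    have h1 : row (List.replicate (i + 1 + 1) 2) (t + 1) =
        [s NT.Y, s NT.B] ++ (List.replicate t (s NT.B) ++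
          row (List.replicate (i + 1) 2) (t + 1)) := by
      rw [List.replicate_succ, row_cons, List.replicate_succ]
      simp [rl]
    rw [h1, List.replicate_succ, List.cons_append, row_cons]
    refine Par.cons (U := ∅) (W := ∅) ?_ (by simp) (by simp) ?_
    · simp [rules, rl]
    · exact (par_append _ _ _ _).mpr ⟨_, _, rfl, mk_B _ _, ih _⟩

theorem mk_last (l : List Sym) (t : ℕ) (hl : s NT.X ∈ l) :
    Par rules l (last t) (last (t + 1)) := by
  rw [last, last, List.replicate_succ]
  exact Par.cons (y := [s NT.Z, s NT.B]) (U := {NT.X}) (W := ∅) (by simp [rules])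
    (by simpa using hl) (by simp) (mk_B _ _)

theorem X_mem (c d : List (Fin 3)) (t : ℕ) : s NT.X ∈ row (c ++ 1 :: d) t := by
  induction c with
  | nil => simp [row_cons, rl]
  | cons p c ih =>
    rw [List.cons_append, row_cons]
    exact List.mem_cons_of_mem _ (List.mem_append_right _ ih)

theorem mk_row_end (l : List Sym) (n t : ℕ) :
    Par rules l (row (List.replicate n 2) t) (wd (Sum.inr 0) (Sum.inr 1) n t) := by
  induction n generalizing l with
  | zero => exact Par.nil l
  | succ n ih =>
    rw [List.replicate_succ, row_cons, wd_succ]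
    refine Par.cons (y := [Sum.inr 0]) (U := ∅) (W := ∅) ?_ (by simp) (by simp) ?_
    · simp [rules, rl]
    · exact (par_append _ _ _ _).mpr ⟨_, _, rfl, mk_B' _ _, ih _⟩

theorem mk_last_end (l : List Sym) (t : ℕ) :
    Par rules l (last t) (wd (Sum.inr 0) (Sum.inr 1) 1 t) := by
  have h1 : wd (Sum.inr 0 : Sym) (Sum.inr 1) 1 t = [Sum.inr 0] ++ List.replicate t (Sum.inr 1) := by
    simp [wd]
  rw [h1, last]
  exact Par.cons (y := [Sum.inr 0]) (U := ∅) (W := ∅) (by simp [rules]) (by simp) (by simp)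
    (mk_B' _ _)

theorem step_of {u v : List Sym} (hne : u ≠ []) (h : Par rules [] u v) : G.Step u v :=
  (LRC.step_iff G u v).mpr ⟨hne, h⟩

theorem row_replicate_zero (k : ℕ) :
    row (List.replicate k 0) 0 = List.replicate k (s NT.A) := by
  induction k with
  | zero => rfl
  | succ k ih =>
    rw [List.replicate_succ, row_cons, ih]
    simp [rl, List.replicate_succ]

theorem complete (T : ℕ) (hT : 1 ≤ T) : wd 0 1 (T + 1) T ∈ G.language := by
  have e1 : ∀ k, ReflTransGen G.Step G.ax
      (s NT.S :: (List.replicate k (s NT.D) ++ [s NT.Z0])) := by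
    intro k
    induction k with
    | zero => exact ReflTransGen.refl
    | succ k ih =>
      refine ih.tail (step_of (by simp) ?_)
      refine Par.cons (y := [s NT.S, s NT.D]) (U := ∅) (W := ∅)
        (by simp [rules]) (by simp) (by simp)
        ((par_append _ _ _ _).mpr ⟨_, _, rfl, mk_D _ k (by simp), ?_⟩)
      exact Par.cons (y := [s NT.Z0]) (U := {NT.S}) (W := ∅)
        (by simp [rules]) (by simp) (by simp) (Par.nil _)
  obtain ⟨k, rfl⟩ : ∃ k, T = k + 1 := ⟨T - 1, by omega⟩
  have e2 : ReflTransGen G.Step G.ax (s NT.R :: (List.replicate k (s NT.D) ++ [s NT.Z0])) := by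
    refine (e1 k).tail (step_of (by simp) ?_)
    refine Par.cons (y := [s NT.R]) (U := ∅) (W := ∅)
      (by simp [rules]) (by simp) (by simp)
      ((par_append _ _ _ _).mpr ⟨_, _, rfl, mk_D _ k (by simp), ?_⟩)
    exact Par.cons (y := [s NT.Z0]) (U := {NT.S}) (W := ∅)
      (by simp [rules]) (by simp) (by simp) (Par.nil _)
  have e3 : ReflTransGen G.Step G.ax (row (1 :: List.replicate k 0) 0 ++ last 0) := by
    refine e2.tail (step_of (by simp) ?_)
    rw [row_cons, row_replicate_zero]
    refine Par.cons (y := [s NT.X]) (U := ∅) (W := ∅)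
      (by simp [rules]) (by simp) (by simp)
      ((par_append _ _ _ _).mpr ⟨_, _, rfl, mk_D' _ k (by simp), ?_⟩)
    exact Par.cons (y := [s NT.Z]) (U := {NT.R}) (W := ∅)
      (by simp [rules]) (by simp) (by simp) (Par.nil _)
  have e4 : ∀ i j, i + j = k → ReflTransGen G.Step G.ax
      (row (List.replicate i 2 ++ 1 :: List.replicate j 0) i ++ last i) := by
    intro i
    induction i with
    | zero =>
      intro j hj
      have : j = k := by omega
      subst this
      exact e3
    | succ i ih =>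
      intro j hj
      have h1 := ih (j + 1) (by omega)
      rw [List.replicate_succ] at h1
      refine h1.tail (step_of ?_ ((par_append _ _ _ _).mpr ⟨_, _, rfl,
        mk_row_conv _ i _ i (by simp [List.mem_replicate]), mk_last _ _ ?_⟩))
      · simp [last]
      · rw [List.nil_append]
        exact X_mem _ _ _
  have e5 := e4 k 0 (by omega)
  rw [List.replicate_zero] at e5
  have e6 : ReflTransGen G.Step G.ax (row (List.replicate (k + 1) 2) (k + 1) ++ last (k + 1)) := by
    refine e5.tail (step_of ?_ ((par_append _ _ _ _).mpr ⟨_, _, rfl,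
        mk_row_conv' _ k k, mk_last _ _ ?_⟩))
    · simp [last]
    · rw [List.nil_append]
      exact X_mem _ _ _
  have e7 := e6.tail (step_of (by simp [last]) ((par_append _ _ _ _).mpr ⟨_, _, rfl,
        mk_row_end _ _ _, mk_last_end _ _⟩))
  rw [← wd_add, ← map_inr_wd] at e7
  exact e7

end Pool.Agent.R574.LS.LP
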