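import Pool.Agent.R574.LS.Pump

set_option autoImplicit false
set_option linter.unusedSectionVars false

/-!
Two languages of words `(a b^T)^n` that are not generated by parallel rewriting with finitely many
finite tables.
-/

namespace Pool.Agent.R574.LS

section main

variable {V : Type} [DecidableEq V]

theorem subperm_count_le (a : V) {l l' : List (V × List V)} (h : l'.Subperm l) :
    (l'.map Prod.snd).flatten.count a ≤ (l.map Prod.snd).flatten.count a := by
  obtain ⟨y, h1, h2⟩ := h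
  have e1 : ∀ m : List (V × List V), (m.map Prod.snd).flatten.count a =
      (m.map fun p => p.2.count a).sum := by
    intro m
    rw [List.count_flatten, List.map_map]
    rfl
  rw [e1, e1]
  have h3 : (y.map fun p : V × List V => p.2.count a).sum =
      (l'.map fun p => p.2.count a).sum := (h1.map _).sum_eq
  rw [← h3]
  exact (h2.map _).sum_le_sum (by simp)

/-- the set of words with at least as many letters `a` as the length of the blocks -/
theorem K2 [Finite V] (PP : Set (Set (V × List V))) (hPP : PP.Finite)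
    (hP : ∀ P ∈ PP, P.Finite) (ax : List V) (a b : V) (hab : a ≠ b)
    (hL : ∀ Ps w, (∀ P ∈ Ps, P ∈ PP) → Run Ps ax w → (∀ c ∈ w, c = a ∨ c = b) → w ≠ [] →
      ∃ n T, T < n ∧ w = wd a b n T) :
    ∃ C : ℕ, ∀ T ≥ C, ¬ ∃ Ps, (∀ P ∈ Ps, P ∈ PP) ∧ Run Ps ax (wd a b (T + 1) T) := by
  obtain ⟨C, hC⟩ := bounded PP hPP hP ax a
  refine ⟨C, ?_⟩
  intro T hT hex
  classical
  have hex' : ∃ N, ∃ Ps : List (Set (V × List V)), Ps.length = N ∧ (∀ P ∈ Ps, P ∈ PP) ∧
      Run Ps ax (wd a b (T + 1) T) := by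
    obtain ⟨Ps, h1, h2⟩ := hex
    exact ⟨_, Ps, rfl, h1, h2⟩
  obtain ⟨Ps, hlen, hPs, hrun⟩ := Nat.find_spec hex'
  have hmin := fun m hm => Nat.find_min hex' (m := m) hm
  set w := wd a b (T + 1) T with hw
  have hcw : w.count a = T + 1 := count_wd a b hab _ _
  obtain ⟨i, j, prx, pry, hij, hj, hx1, hy1, hx2, hy2, hx3, hy3, ⟨q, hq1, hq2⟩, hle⟩ :=
    hC Ps w hPs hrun (by omega)
  obtain ⟨l', hl1, hl2⟩ := subperm_lift (ann a) pry hle.subperm
  have hmem : ∀ p ∈ l', p ∈ pry := fun p hp => hl1.subset hp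
  have hfst : l'.map Prod.fst = prx.map Prod.fst := by
    have h := congrArg (List.map Prod.fst) hl2
    rw [List.map_map, List.map_map] at h
    exact h
  have hr0 : Run (Ps.drop j) (prx.map Prod.fst) (l'.map Prod.snd).flatten := by
    rw [← hfst]
    exact run_of_pairs _ _ (fun p hp => hy2 p (hmem p hp))
  have hlet : ∀ p ∈ pry, ∀ c ∈ p.2, c = a ∨ c = b := by
    intro p hp c hc
    refine mem_wd a b (T + 1) T c ?_
    rw [← hw, ← hy3]
    exact List.mem_flatten.mpr ⟨p.2, List.mem_map.mpr ⟨p, hp, rfl⟩, hc⟩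
  obtain ⟨q', hq1', hq2'⟩ : ∃ q' ∈ l', 2 ≤ q'.2.count a := by
    have h1 : ann a q ∈ l'.map (ann a) := by
      rw [hl2]
      exact List.mem_map.mpr ⟨q, hq1, rfl⟩
    obtain ⟨q', h2, h3⟩ := List.mem_map.mp h1
    refine ⟨q', h2, ?_⟩
    have h4 : cls (q'.2.count a) = cls (q.2.count a) := congrArg Prod.snd h3
    rw [cls_two.mpr hq2] at h4
    exact cls_two.mp h4
  obtain ⟨k, hk⟩ := exists_gap a b q'.2 (hlet q' (hmem q' hq1')) hq2'
  have hkT : k = T := by
    refine gap_wd a b hab (T + 1) T k ?_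
    rw [← hw, ← hy3]
    exact Gap.of_mem a b (List.mem_map.mpr ⟨q', hmem q' hq1', rfl⟩) hk
  subst hkT
  have hg0 : Gap a b (l'.map Prod.snd).flatten k :=
    Gap.of_mem a b (List.mem_map.mpr ⟨q', hq1', rfl⟩) hk
  have hrun0 : Run (Ps.take i ++ Ps.drop j) ax (l'.map Prod.snd).flatten :=
    (run_trans _ _ _ _).mpr ⟨_, hx1, hr0⟩
  have hPs0 : ∀ P ∈ Ps.take i ++ Ps.drop j, P ∈ PP := by
    intro P hPm
    rcases List.mem_append.mp hPm with h | h
    · exact hPs P (List.mem_of_mem_take h)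
    · exact hPs P (List.mem_of_mem_drop h)
  obtain ⟨n', T', h1, h2⟩ := hL _ _ hPs0 hrun0 (by
    intro c hc
    obtain ⟨v, hv, hcv⟩ := List.mem_flatten.mp hc
    obtain ⟨p, hp, rfl⟩ := List.mem_map.mp hv
    exact hlet p (hmem p hp) c hcv) (by
    intro h
    rw [h] at hg0
    obtain ⟨s, t, h⟩ := hg0
    simp at h)
  rw [h2] at hg0
  have h3 := gap_wd a b hab n' T' k hg0
  subst h3
  have h4 : n' ≤ k + 1 := by
    have h5 := subperm_count_le a hl1
    rw [h2, hy3, hcw, count_wd a b hab] at h5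
    exact h5
  have h5 : n' = k + 1 := by omega
  subst h5
  refine hmin (Ps.take i ++ Ps.drop j).length ?_ ⟨_, rfl, hPs0, ?_⟩
  · rw [← hlen, List.length_append, List.length_take, List.length_drop]
    omega
  · rw [h2] at hrun0
    exact hrun0

theorem exists_best (a : V) (pr : List (V × List V)) :
    ∃ β : V × Fin 3 → List V, (∀ t ∈ pr.map (ann a), ∃ p ∈ pr, ann a p = t ∧ β t = p.2) ∧
      ∀ p ∈ pr, p.2.count a ≤ (β (ann a p)).count a := by
  have h : ∀ t : V × Fin 3, ∃ v : List V, t ∈ pr.map (ann a) →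
      (∃ p ∈ pr, ann a p = t ∧ v = p.2) ∧ ∀ p ∈ pr, ann a p = t → p.2.count a ≤ v.count a := by
    intro t
    by_cases ht : t ∈ pr.map (ann a)
    · obtain ⟨p0, hp0, hp0t⟩ := List.mem_map.mp ht
      have hne : ((pr.toFinset).filter fun p => ann a p = t).Nonempty :=
        ⟨p0, by simp [hp0, hp0t]⟩
      obtain ⟨p, hp, hmax⟩ := Finset.exists_max_image _ (fun p : V × List V => p.2.count a) hne
      simp only [Finset.mem_filter, List.mem_toFinset] at hp hmax
      refine ⟨p.2, fun _ => ⟨⟨p, hp.1, hp.2, rfl⟩, ?_⟩⟩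
      intro p' hp' hp't
      exact hmax p' ⟨hp', hp't⟩
    · exact ⟨[], fun h => absurd h ht⟩
  choose β hβ using h
  refine ⟨β, fun t ht => (hβ t ht).1, ?_⟩
  intro p hp
  exact (hβ (ann a p) (List.mem_map.mpr ⟨p, hp, rfl⟩)).2 p hp rfl

theorem run_assign (a : V) (Ps : List (Set (V × List V))) (pr : List (V × List V))
    (hpr : ∀ p ∈ pr, Run Ps [p.1] p.2) (β : V × Fin 3 → List V)
    (hβ : ∀ t ∈ pr.map (ann a), ∃ p ∈ pr, ann a p = t ∧ β t = p.2) (Y : List (V × Fin 3))
    (hY : ∀ t ∈ Y, t ∈ pr.map (ann a)) :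
    Run Ps (Y.map Prod.fst) (Y.map β).flatten := by
  have h := run_of_pairs Ps (Y.map fun t => (t.1, β t)) (by
    intro p hp
    obtain ⟨t, ht, rfl⟩ := List.mem_map.mp hp
    obtain ⟨q, hq, hqt, hβt⟩ := hβ t (hY t ht)
    simp only
    rw [hβt, ← hqt]
    exact hpr q hq)
  rw [List.map_map, List.map_map] at h
  exact h

theorem sum_count (a : V) (Y : List (V × Fin 3)) (β : V × Fin 3 → List V) :
    (Y.map β).flatten.count a = (Y.map fun t => (β t).count a).sum := by
  rw [List.count_flatten, List.map_map]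
  rfl

theorem sum_best (a : V) (pr : List (V × List V)) (β : V × Fin 3 → List V)
    (hβ : ∀ p ∈ pr, p.2.count a ≤ (β (ann a p)).count a) :
    (pr.map Prod.snd).flatten.count a ≤ ((pr.map (ann a)).map fun t => (β t).count a).sum := by
  rw [List.count_flatten, List.map_map, List.map_map]
  exact List.sum_le_sum (fun p hp => hβ p hp)

/-- the set of words with at most as many letters `a` as the length of the blocks -/
theorem K1 [Finite V] (PP : Set (Set (V × List V))) (hPP : PP.Finite)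
    (hP : ∀ P ∈ PP, P.Finite) (ax : List V) (a b : V) (hab : a ≠ b)
    (hL : ∀ Ps w, (∀ P ∈ Ps, P ∈ PP) → Run Ps ax w → (∀ c ∈ w, c = a ∨ c = b) → w ≠ [] →
      ∃ n T, n ≤ T ∧ w = wd a b n T) :
    ∃ C : ℕ, ∀ T ≥ C, ¬ ∃ Ps, (∀ P ∈ Ps, P ∈ PP) ∧ Run Ps ax (wd a b T T) := by
  obtain ⟨C, hC⟩ := bounded PP hPP hP ax a
  refine ⟨C + 1, ?_⟩
  intro T hT hex
  classical
  have hex' : ∃ N, ∃ Ps : List (Set (V × List V)), Ps.length = N ∧ (∀ P ∈ Ps, P ∈ PP) ∧
      Run Ps ax (wd a b T T) := by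
    obtain ⟨Ps, h1, h2⟩ := hex
    exact ⟨_, Ps, rfl, h1, h2⟩
  obtain ⟨Ps, hlen, hPs, hrun⟩ := Nat.find_spec hex'
  have hmin := fun m hm => Nat.find_min hex' (m := m) hm
  set w := wd a b T T with hw
  have hcw : w.count a = T := count_wd a b hab _ _
  obtain ⟨i, j, prx, pry, hij, hj, hx1, hy1, hx2, hy2, hx3, hy3, ⟨q, hq1, hq2⟩, hle⟩ :=
    hC Ps w hPs hrun (by omega)
  obtain ⟨β1, hb1, hb1'⟩ := exists_best a prx
  obtain ⟨β2, hb2, hb2'⟩ := exists_best a pry
  have hlet : ∀ pr : List (V × List V), (pr.map Prod.snd).flatten = w → ∀ p ∈ pr, ∀ c ∈ p.2,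
      c = a ∨ c = b := by
    intro pr hpr p hp c hc
    refine mem_wd a b T T c ?_
    rw [← hw, ← hpr]
    exact List.mem_flatten.mpr ⟨p.2, List.mem_map.mpr ⟨p, hp, rfl⟩, hc⟩
  -- a general fact on the words built with the functions `β`
  have key : ∀ (m : ℕ) (pr : List (V × List V)) (β : V × Fin 3 → List V) (Qs : List _)
      (Y : List (V × Fin 3)), (∀ p ∈ pr, Run (Ps.drop m) [p.1] p.2) →
      (pr.map Prod.snd).flatten = w →
      (∀ t ∈ pr.map (ann a), ∃ p ∈ pr, ann a p = t ∧ β t = p.2) →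
      (∀ p ∈ pr, p.2.count a ≤ (β (ann a p)).count a) → (∀ t ∈ Y, t ∈ pr.map (ann a)) →
      (∀ P ∈ Qs, P ∈ PP) → Run Qs ax (Y.map Prod.fst) → (∃ t ∈ Y, t.2 = 2) →
      Run (Qs ++ Ps.drop m) ax (Y.map β).flatten ∧
        ∃ n ≤ T, (Y.map β).flatten = wd a b n T := by
    intro m pr β Qs Y h1 h2 h3 h4 h5 h6 h7 ⟨t, ht1, ht2⟩
    have hr : Run (Qs ++ Ps.drop m) ax (Y.map β).flatten :=
      (run_trans _ _ _ _).mpr ⟨_, h7, run_assign a _ pr h1 β h3 Y h5⟩
    refine ⟨hr, ?_⟩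
    obtain ⟨p, hp1, hp2, hp3⟩ := h3 t (h5 t ht1)
    have hc : 2 ≤ (β t).count a := by
      rw [hp3]
      apply cls_two.mp
      rw [← ht2, ← hp2]
      rfl
    obtain ⟨k, hk⟩ := exists_gap a b (β t) (by rw [hp3]; exact hlet pr h2 p hp1) hc
    have hkT : k = T := by
      refine gap_wd a b hab T T k ?_
      rw [← hw, ← h2]
      rw [hp3] at hk
      exact Gap.of_mem a b (List.mem_map.mpr ⟨p, hp1, rfl⟩) hk
    rw [hkT] at hk
    have hg : Gap a b (Y.map β).flatten T :=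
      Gap.of_mem a b (List.mem_map.mpr ⟨t, ht1, rfl⟩) hk
    obtain ⟨n', T', e1, e2⟩ := hL _ _ (by
      intro P hPm
      rcases List.mem_append.mp hPm with h | h
      · exact h6 P h
      · exact hPs P (List.mem_of_mem_drop h)) hr (by
      intro c hc
      obtain ⟨v, hv, hcv⟩ := List.mem_flatten.mp hc
      obtain ⟨t', ht', rfl⟩ := List.mem_map.mp hv
      obtain ⟨p', hp1', hp2', hp3'⟩ := h3 t' (h5 t' ht')
      rw [hp3'] at hcv
      exact hlet pr h2 p' hp1' c hcv) (by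
      intro h
      rw [h] at hg
      obtain ⟨s, t, h⟩ := hg
      simp at h)
    rw [e2] at hg
    have e3 := gap_wd a b hab n' T' T hg
    subst e3
    exact ⟨n', e1, e2⟩
  have hcls : ∀ pr : List (V × List V), (∃ p ∈ pr, 2 ≤ p.2.count a) →
      ∃ t ∈ pr.map (ann a), t.2 = 2 := by
    rintro pr ⟨p, h1, h2⟩
    exact ⟨ann a p, List.mem_map.mpr ⟨p, h1, rfl⟩, cls_two.mpr h2⟩
  have hx2' := hcls prx ⟨q, hq1, hq2⟩
  have hfst : ∀ pr : List (V × List V), (pr.map (ann a)).map Prod.fst = pr.map Prod.fst := by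
    intro pr
    rw [List.map_map]
    rfl
  -- pumping up
  obtain ⟨hr1, n1, hn1, he1⟩ := key i prx β1 (Ps.take j) (pry.map (ann a)) hx2 hx3 hb1 hb1'
    (fun t ht => (hle.1 t).mpr ht) (fun P hPm => hPs P (List.mem_of_mem_take hPm))
    (by rw [hfst]; exact hy1) (by
      obtain ⟨t, h1, h2⟩ := hx2'
      exact ⟨t, (hle.1 t).mp h1, h2⟩)
  -- pumping down
  obtain ⟨hr2, n2, hn2, he2⟩ := key j pry β2 (Ps.take i) (prx.map (ann a)) hy2 hy3 hb2 hb2'
    (fun t ht => (hle.1 t).mp ht) (fun P hPm => hPs P (List.mem_of_mem_take hPm))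
    (by rw [hfst]; exact hx1) hx2'
  obtain ⟨z, hz1, hz2⟩ := hle.subperm
  obtain ⟨E, hE⟩ := hz2.exists_perm_append
  have hEperm : (pry.map (ann a)).Perm (prx.map (ann a) ++ E) := hE.trans (hz1.append_right E)
  have hsum : ∀ g : V × Fin 3 → ℕ, ((pry.map (ann a)).map g).sum =
      ((prx.map (ann a)).map g).sum + (E.map g).sum := by
    intro g
    rw [(hEperm.map g).sum_eq, List.map_append, List.sum_append]
  have c1 := sum_best a prx β1 hb1'
  rw [hx3, hcw] at c1
  have c2 := sum_best a pry β2 hb2'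
  rw [hy3, hcw] at c2
  have d1 := congrArg (List.count a) he1
  rw [sum_count, count_wd a b hab, hsum] at d1
  have hE0 : (E.map fun t => (β1 t).count a).sum = 0 := by omega
  have hE2 : (E.map fun t => (β2 t).count a).sum = 0 := by
    rw [List.sum_eq_zero_iff] at hE0 ⊢
    intro x hx
    obtain ⟨t, ht, rfl⟩ := List.mem_map.mp hx
    have h1 : (β1 t).count a = 0 := hE0 _ (List.mem_map.mpr ⟨t, ht, rfl⟩)
    have h2 : t ∈ pry.map (ann a) := by
      rw [hEperm.mem_iff]
      exact List.mem_append_right _ ht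
    obtain ⟨p, hp1, hp2, hp3⟩ := hb1 t ((hle.1 t).mpr h2)
    obtain ⟨p', hp1', hp2', hp3'⟩ := hb2 t h2
    have h3 : t.2 = 0 := by
      rw [← hp2]
      show cls (p.2.count a) = 0
      rw [hp3] at h1
      rw [h1]
      rfl
    show (β2 t).count a = 0
    rw [hp3']
    apply cls_zero
    rw [← h3, ← hp2']
    rfl
  have d2 := congrArg (List.count a) he2
  rw [sum_count, count_wd a b hab] at d2
  have d3 := hsum fun t => (β2 t).count a
  rw [hE2] at d3
  have h5 : n2 = T := by omega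
  refine hmin (Ps.take i ++ Ps.drop j).length ?_ ⟨_, rfl, ?_, ?_⟩
  · rw [← hlen, List.length_append, List.length_take, List.length_drop]
    omega
  · intro P hPm
    rcases List.mem_append.mp hPm with h | h
    · exact hPs P (List.mem_of_mem_take h)
    · exact hPs P (List.mem_of_mem_drop h)
  · rw [he2, h5] at hr2
    exact hr2

end main

end Pool.Agent.R574.LS
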