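import Pool.Agent.R574.LS.Defs
import Pool.Agent.R574.LS.Main

set_option autoImplicit false

namespace Pool.Agent.R574.LS

open Relation

/-! ### Left contexts -/

section par

variable {N T : Type}

/-- `Par R l u v`: parallel rewriting of `u` to `v`, where `l` is the word to the left of `u` -/
inductive Par (R : Set ((N ⊕ T) × List (N ⊕ T) × Set N × Set N)) :
    List (N ⊕ T) → List (N ⊕ T) → List (N ⊕ T) → Prop
  | nil (l : List (N ⊕ T)) : Par R l [] []
  | cons {l : List (N ⊕ T)} {X : N ⊕ T} {y : List (N ⊕ T)} {U W : Set N} {u v : List (N ⊕ T)}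
      (h1 : (X, y, U, W) ∈ R) (h2 : ∀ B ∈ U, Sum.inl B ∈ l) (h3 : ∀ B ∈ W, Sum.inl B ∉ l)
      (h4 : Par R (l ++ [X]) u v) : Par R l (X :: u) (y ++ v)

variable {R : Set ((N ⊕ T) × List (N ⊕ T) × Set N × Set N)}

theorem par_iff (l u v : List (N ⊕ T)) : Par R l u v ↔ ∃ ys : List (List (N ⊕ T)),
    ys.length = u.length ∧ v = ys.flatten ∧
    ∀ (i : ℕ) (h : i < u.length) (h' : i < ys.length), ∃ U W : Set N,
      (u[i], ys[i], U, W) ∈ R ∧ (∀ B ∈ U, Sum.inl B ∈ l ++ u.take i) ∧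
        ∀ B ∈ W, Sum.inl B ∉ l ++ u.take i := by
  constructor
  · intro h
    induction h with
    | nil l => exact ⟨[], rfl, rfl, fun i hi => by simp at hi⟩
    | cons h1 h2 h3 h4 ih =>
      rename_i l X y U W u v
      obtain ⟨ys, h5, h6, h7⟩ := ih
      refine ⟨y :: ys, by simp [h5], by simp [h6], ?_⟩
      intro i hi hi'
      cases i with
      | zero => exact ⟨U, W, h1, by simpa using h2, by simpa using h3⟩
      | succ i =>
        obtain ⟨U', W', h8, h9, h10⟩ := h7 i (by simpa using hi) (by simpa using hi')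
        refine ⟨U', W', h8, ?_, ?_⟩
        · simpa using h9
        · simpa using h10
  · rintro ⟨ys, h1, rfl, h2⟩
    induction u generalizing l ys with
    | nil =>
      have : ys = [] := by simpa using h1
      subst this
      exact Par.nil l
    | cons X u ih =>
      cases ys with
      | nil => simp at h1
      | cons y ys =>
        obtain ⟨U, W, h3, h4, h5⟩ := h2 0 (by simp) (by simp)
        refine Par.cons h3 (by simpa using h4) (by simpa using h5) ?_
        apply ih (l ++ [X]) ys (by simpa using h1)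
        intro i hi hi'
        obtain ⟨U', W', h8, h9, h10⟩ := h2 (i + 1) (by simpa using hi) (by simpa using hi')
        refine ⟨U', W', h8, ?_, ?_⟩
        · simpa using h9
        · simpa using h10

theorem par_append (l u1 u2 v : List (N ⊕ T)) : Par R l (u1 ++ u2) v ↔
    ∃ v1 v2, v = v1 ++ v2 ∧ Par R l u1 v1 ∧ Par R (l ++ u1) u2 v2 := by
  induction u1 generalizing l v with
  | nil =>
    constructor
    · intro h
      exact ⟨[], v, rfl, Par.nil l, by simpa using h⟩
    · rintro ⟨v1, v2, rfl, h1, h2⟩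
      cases h1
      simpa using h2
  | cons X u1 ih =>
    constructor
    · intro h
      rw [List.cons_append] at h
      cases h with
      | cons h1 h2 h3 h4 =>
        obtain ⟨v1, v2, rfl, h5, h6⟩ := (ih _ _).mp h4
        exact ⟨_ ++ v1, v2, by simp, Par.cons h1 h2 h3 h5, by simpa using h6⟩
    · rintro ⟨v1, v2, rfl, h1, h2⟩
      cases h1 with
      | cons h3 h4 h5 h6 =>
        rw [List.append_assoc, List.cons_append]
        exact Par.cons h3 h4 h5 ((ih _ _).mpr ⟨_, _, rfl, h6, by simpa using h2⟩)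

theorem par_nil_inv {l v : List (N ⊕ T)} (h : Par R l [] v) : v = [] := by
  cases h
  rfl

theorem par_cons_inv {l u v : List (N ⊕ T)} {X : N ⊕ T} (h : Par R l (X :: u) v) :
    ∃ y U W v', (X, y, U, W) ∈ R ∧ (∀ B ∈ U, Sum.inl B ∈ l) ∧ (∀ B ∈ W, Sum.inl B ∉ l) ∧
      Par R (l ++ [X]) u v' ∧ v = y ++ v' := by
  cases h with
  | cons h1 h2 h3 h4 => exact ⟨_, _, _, _, h1, h2, h3, h4, rfl⟩

end par

theorem LRC.step_iff {T : Type} (G : LRC T) (u v : List (G.N ⊕ T)) :
    G.Step u v ↔ u ≠ [] ∧ Par G.rules [] u v := by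
  unfold LRC.Step
  rw [par_iff]
  simp only [List.nil_append]

/-! ### ET0L grammars and runs -/

theorem ET0L.step_iff {T : Type} (G : ET0L T) (u v : List (G.N ⊕ T)) :
    G.Step u v ↔ u ≠ [] ∧ ∃ P ∈ G.tables, App P u v := Iff.rfl

theorem ET0L.run_of_gen {T : Type} (G : ET0L T) (u v : List (G.N ⊕ T))
    (h : ReflTransGen G.Step u v) : ∃ Ps, (∀ P ∈ Ps, P ∈ G.tables) ∧ Run Ps u v := by
  induction h using ReflTransGen.head_induction_on with
  | refl => exact ⟨[], by simp, rfl⟩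
  | head h1 _ ih =>
    obtain ⟨_, P, hP, hA⟩ := h1
    obtain ⟨Ps, h2, h3⟩ := ih
    refine ⟨P :: Ps, ?_, _, hA, h3⟩
    intro Q hQ
    rcases List.mem_cons.mp hQ with rfl | hQ
    · exact hP
    · exact h2 Q hQ

theorem ET0L.gen_of_run {T : Type} (G : ET0L T) (Ps : List (Set ((G.N ⊕ T) × List (G.N ⊕ T))))
    (u v : List (G.N ⊕ T)) (hP : ∀ P ∈ Ps, P ∈ G.tables) (hr : Run Ps u v) (hv : v ≠ []) :
    ReflTransGen G.Step u v := by
  induction Ps generalizing u with
  | nil =>
    have : u = v := hr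
    rw [this]
  | cons P Ps ih =>
    obtain ⟨x, h1, h2⟩ := hr
    refine ReflTransGen.head ⟨?_, P, hP P List.mem_cons_self, h1⟩
      (ih x (fun Q hQ => hP Q (List.mem_cons_of_mem _ hQ)) h2)
    rintro rfl
    have h3 : x = [] := (app_nil P x).mp h1
    subst h3
    exact hv ((run_nil Ps v).mp h2)

theorem map_inr_wd {N : Type} (n T : ℕ) :
    (wd (0 : Fin 2) 1 n T).map (Sum.inr : Fin 2 → N ⊕ Fin 2) = wd (Sum.inr 0) (Sum.inr 1) n T := by
  simp [wd]

theorem exists_map_inr {N : Type} (w : List (N ⊕ Fin 2))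
    (h : ∀ c ∈ w, c = Sum.inr 0 ∨ c = Sum.inr 1) : ∃ w' : List (Fin 2), w = w'.map Sum.inr := by
  induction w with
  | nil => exact ⟨[], rfl⟩
  | cons c w ih =>
    obtain ⟨w', hw'⟩ := ih (fun d hd => h d (List.mem_cons_of_mem _ hd))
    rcases h c List.mem_cons_self with rfl | rfl
    · exact ⟨0 :: w', by rw [hw']; rfl⟩
    · exact ⟨1 :: w', by rw [hw']; rfl⟩

/-- no ET0L grammar generates, up to the empty word, a language of words `(a b^T)^n` with `T < n`
which contains all words `(a b^T)^(T+1)` with `1 ≤ T` -/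
theorem not_ET0L_K2 (L : Set (List (Fin 2))) (h1 : ∀ w ∈ L, w ≠ [] → ∃ n T, T < n ∧ w = wd 0 1 n T)
    (h2 : ∀ T, 1 ≤ T → wd 0 1 (T + 1) T ∈ L) (G : ET0L (Fin 2)) :
    ∃ w ≠ [], ¬ (w ∈ G.language ↔ w ∈ L) := by
  classical
  by_contra hcon
  push Not at hcon
  have := G.finite_N
  obtain ⟨C, hC⟩ := K2 G.tables G.finite_tables G.finite_rules G.ax (Sum.inr 0) (Sum.inr 1)
    (by simp) (by
      intro Ps w hPs hr hlet hw
      obtain ⟨w', rfl⟩ := exists_map_inr w hlet
      have hw' : w' ≠ [] := by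
        rintro rfl
        exact hw rfl
      have h3 : w' ∈ G.language := ET0L.gen_of_run G Ps _ _ hPs hr hw
      obtain ⟨n, T, h4, h5⟩ := h1 w' ((hcon w' hw').mp h3) hw'
      exact ⟨n, T, h4, by rw [h5, map_inr_wd]⟩)
  refine hC (C + 1) (by omega) ?_
  have hne : wd (0 : Fin 2) 1 (C + 1 + 1) (C + 1) ≠ [] := by
    rw [wd_succ]
    simp
  have h3 : wd (0 : Fin 2) 1 (C + 1 + 1) (C + 1) ∈ G.language := (hcon _ hne).mpr (h2 _ (by omega))
  have h4 := ET0L.run_of_gen G _ _ h3
  rw [map_inr_wd] at h4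
  exact h4

/-- no ET0L grammar generates, up to the empty word, a language of words `(a b^T)^n` with `n ≤ T`
which contains all words `(a b^T)^T` with `1 ≤ T` -/
theorem not_ET0L_K1 (L : Set (List (Fin 2))) (h1 : ∀ w ∈ L, w ≠ [] → ∃ n T, n ≤ T ∧ w = wd 0 1 n T)
    (h2 : ∀ T, 1 ≤ T → wd 0 1 T T ∈ L) (G : ET0L (Fin 2)) :
    ∃ w ≠ [], ¬ (w ∈ G.language ↔ w ∈ L) := by
  classical
  by_contra hcon
  push Not at hcon
  have := G.finite_N
  obtain ⟨C, hC⟩ := K1 G.tables G.finite_tables G.finite_rules G.ax (Sum.inr 0) (Sum.inr 1)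
    (by simp) (by
      intro Ps w hPs hr hlet hw
      obtain ⟨w', rfl⟩ := exists_map_inr w hlet
      have hw' : w' ≠ [] := by
        rintro rfl
        exact hw rfl
      have h3 : w' ∈ G.language := ET0L.gen_of_run G Ps _ _ hPs hr hw
      obtain ⟨n, T, h4, h5⟩ := h1 w' ((hcon w' hw').mp h3) hw'
      exact ⟨n, T, h4, by rw [h5, map_inr_wd]⟩)
  refine hC (C + 1) (by omega) ?_
  have hne : wd (0 : Fin 2) 1 (C + 1) (C + 1) ≠ [] := by
    rw [wd_succ]
    simp
  have h3 : wd (0 : Fin 2) 1 (C + 1) (C + 1) ∈ G.language := (hcon _ hne).mpr (h2 _ (by omega))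
  have h4 := ET0L.run_of_gen G _ _ h3
  rw [map_inr_wd] at h4
  exact h4

end Pool.Agent.R574.LS
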