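import Pool.Agent.R574.LS.Core

set_option autoImplicit false

/-!
Pumping for parallel rewriting with finitely many finite tables.
-/

namespace Pool.Agent.R574.LS

section pump

variable {V : Type} [DecidableEq V]

/-- the class of a number: `0`, `1` or at least `2` -/
def cls (n : ℕ) : Fin 3 := if n = 0 then 0 else if n = 1 then 1 else 2

theorem cls_zero {n : ℕ} (h : cls n = 0) : n = 0 := by
  unfold cls at h
  split_ifs at h with h1 h2
  · exact h1
  · simp at h
  · simp at h

theorem cls_two {n : ℕ} : cls n = 2 ↔ 2 ≤ n := by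
  unfold cls
  split_ifs with h1 h2
  · simp; omega
  · simp; omega
  · simp; omega

/-- a letter with the class of the number of `a`s in its word -/
def ann (a : V) (p : V × List V) : V × Fin 3 := (p.1, cls (p.2.count a))

theorem count_flatten_le (a : V) (pr : List (V × List V)) (h : ∀ p ∈ pr, p.2.count a ≤ 1) :
    (pr.map Prod.snd).flatten.count a ≤ pr.length := by
  induction pr with
  | nil => simp
  | cons p pr ih =>
    have h1 := h p List.mem_cons_self
    have h2 := ih (fun q hq => h q (List.mem_cons_of_mem _ hq))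
    simp only [List.map_cons, List.flatten_cons, List.count_append, List.length_cons]
    omega

theorem lift_finite [Finite V] (v : List V) : {Y : List (V × Fin 3) | Y.map Prod.fst = v}.Finite := by
  refine (List.finite_length_eq (V × Fin 3) v.length).subset ?_
  intro Y hY
  have h : Y.map Prod.fst = v := hY
  show Y.length = v.length
  rw [← h, List.length_map]

/-- If a terminal word with many `a`s is derived, then two of the words of the derivation are
comparable, with respect to the letters annotated with the number of `a`s derived from them, while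
some letter derives at least two `a`s. -/
theorem bounded [Finite V] (PP : Set (Set (V × List V))) (hPP : PP.Finite)
    (hP : ∀ P ∈ PP, P.Finite) (ax : List V) (a : V) :
    ∃ C : ℕ, ∀ (Ps : List (Set (V × List V))) (w : List V), (∀ P ∈ Ps, P ∈ PP) → Run Ps ax w →
      C < w.count a → ∃ (i j : ℕ) (prx pry : List (V × List V)), i < j ∧ j ≤ Ps.length ∧
        Run (Ps.take i) ax (prx.map Prod.fst) ∧ Run (Ps.take j) ax (pry.map Prod.fst) ∧
        (∀ p ∈ prx, Run (Ps.drop i) [p.1] p.2) ∧ (∀ p ∈ pry, Run (Ps.drop j) [p.1] p.2) ∧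
        (prx.map Prod.snd).flatten = w ∧ (pry.map Prod.snd).flatten = w ∧
        (∃ p ∈ prx, 2 ≤ p.2.count a) ∧ Le (prx.map (ann a)) (pry.map (ann a)) := by
  let succ : List (V × Fin 3) → List (V × Fin 3) → Prop :=
    fun X Y => ∃ P ∈ PP, App P (X.map Prod.fst) (Y.map Prod.fst)
  have hfin : ∀ X, {Y | succ X Y}.Finite := by
    intro X
    have h1 : (⋃ P ∈ PP, ⋃ v ∈ {v | App P (X.map Prod.fst) v},
        {Y : List (V × Fin 3) | Y.map Prod.fst = v}).Finite := by
      refine Set.Finite.biUnion hPP (fun P hPm => ?_)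
      exact Set.Finite.biUnion (app_finite P (hP P hPm) _) (fun v _ => lift_finite v)
    refine h1.subset ?_
    rintro Y ⟨P, hPm, hA⟩
    simp only [Set.mem_iUnion]
    exact ⟨P, hPm, _, hA, rfl⟩
  let S0 : Set (List (V × Fin 3)) := {Y | Y.map Prod.fst = ax}
  have hS0 : S0.Finite := lift_finite ax
  have hF := bad_finite (Le (A := V × Fin 3)) succ le_wqo hfin S0 hS0
  set F := {z | ∃ (k : ℕ) (f : ℕ → List (V × Fin 3)), f 0 ∈ S0 ∧
    (∀ i < k, succ (f i) (f (i + 1))) ∧ (∀ i j, i < j → j ≤ k → ¬ Le (f i) (f j)) ∧ z = f k}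
    with hFdef
  have hF' : (S0 ∪ ⋃ z ∈ F, {y | succ z y}).Finite :=
    hS0.union (Set.Finite.biUnion hF (fun z _ => hfin z))
  obtain ⟨C, hC⟩ := (hF'.image List.length).bddAbove
  have hC' : ∀ Y ∈ S0 ∪ ⋃ z ∈ F, {y | succ z y}, Y.length ≤ C := fun Y hY =>
    hC ⟨Y, hY, rfl⟩
  refine ⟨C, ?_⟩
  intro Ps w hPs hrun hcount
  obtain ⟨f, hf0, hf1, hf2⟩ := run_seq Ps ax w hrun
  have hpr : ∀ i, ∃ pr : List (V × List V), i ≤ Ps.length → pr.map Prod.fst = f i ∧
      (∀ p ∈ pr, Run (Ps.drop i) [p.1] p.2) ∧ (pr.map Prod.snd).flatten = w := by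
    intro i
    by_cases hi : i ≤ Ps.length
    · obtain ⟨pr, h⟩ := run_pairs (Ps.drop i) (f i) w (hf1 i hi).2
      exact ⟨pr, fun _ => h⟩
    · exact ⟨[], fun h => absurd h hi⟩
  choose pr hpr using hpr
  have hQ : ∃ k, k ≤ Ps.length ∧ ∀ p ∈ pr k, p.2.count a ≤ 1 := by
    refine ⟨Ps.length, le_rfl, ?_⟩
    intro p hp
    have h := (hpr Ps.length le_rfl).2.1 p hp
    rw [List.drop_length] at h
    have h' : [p.1] = p.2 := h
    rw [← h']
    exact List.count_le_length.trans (by simp)
  classical
  obtain ⟨hk1, hk2⟩ := Nat.find_spec hQ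
  have hk3 : ∀ i < Nat.find hQ, ∃ p ∈ pr i, 2 ≤ p.2.count a := by
    intro i hi
    have h := Nat.find_min hQ hi
    push Not at h
    obtain ⟨p, hp, h1⟩ := h (by omega)
    exact ⟨p, hp, h1⟩
  set k := Nat.find hQ with hk
  have hann : ∀ i ≤ Ps.length, ((pr i).map (ann a)).map Prod.fst = f i := by
    intro i hi
    rw [List.map_map]
    exact (hpr i hi).1
  have hsucc : ∀ i < Ps.length, succ ((pr i).map (ann a)) ((pr (i + 1)).map (ann a)) := by
    intro i hi
    obtain ⟨P, hPm, hA⟩ := hf2 i hi
    refine ⟨P, hPs P hPm, ?_⟩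
    rw [hann i (by omega), hann (i + 1) (by omega)]
    exact hA
  by_contra hcon
  push Not at hcon
  have hbad : ∀ i j, i < j → j < k → ¬ Le ((pr i).map (ann a)) ((pr j).map (ann a)) := by
    intro i j hij hj
    have h1 := hpr i (by omega)
    have h2 := hpr j (by omega)
    refine hcon i j (pr i) (pr j) hij (by omega) ?_ ?_ h1.2.1 h2.2.1 h1.2.2 h2.2.2
      (hk3 i (by omega))
    · rw [h1.1]
      exact (hf1 i (by omega)).1
    · rw [h2.1]
      exact (hf1 j (by omega)).1
  have hmem : (pr k).map (ann a) ∈ S0 ∪ ⋃ z ∈ F, {y | succ z y} := by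
    rcases Nat.eq_zero_or_pos k with h0 | h0
    · left
      show ((pr k).map (ann a)).map Prod.fst = ax
      rw [hann k hk1, h0, hf0]
    · right
      rw [Set.mem_iUnion₂]
      refine ⟨(pr (k - 1)).map (ann a), ?_, ?_⟩
      · refine ⟨k - 1, fun i => (pr i).map (ann a), ?_, ?_, ?_, rfl⟩
        · show ((pr 0).map (ann a)).map Prod.fst = ax
          rw [hann 0 (by omega), hf0]
        · intro i hi
          exact hsucc i (by omega)
        · intro i j hij hj
          exact hbad i j hij (by omega)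
      · have h1 := hsucc (k - 1) (by omega)
        have h2 : k - 1 + 1 = k := by omega
        rw [h2] at h1
        exact h1
  have h1 := hC' _ hmem
  rw [List.length_map] at h1
  have h2 := count_flatten_le a (pr k) hk2
  rw [(hpr k hk1).2.2] at h2
  omega

/-! ### Lifting along the annotation -/

theorem perm_lift {A B : Type} (g : A → B) {x y : List B} (h : x.Perm y) :
    ∀ l : List A, l.map g = y → ∃ l' : List A, l'.Perm l ∧ l'.map g = x := by
  induction h with
  | nil => 
    intro l hl
    exact ⟨l, List.Perm.refl l, hl⟩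
  | cons b _ ih =>
    intro l hl
    cases l with
    | nil => simp at hl
    | cons c l =>
      simp only [List.map_cons, List.cons.injEq] at hl
      obtain ⟨l', h1, h2⟩ := ih l hl.2
      exact ⟨c :: l', h1.cons c, by simp [h2, hl.1]⟩
  | swap b c z =>
    intro l hl
    match l, hl with
    | d :: e :: l, hl =>
      simp only [List.map_cons, List.cons.injEq] at hl
      exact ⟨e :: d :: l, List.Perm.swap d e l, by simp [hl.1, hl.2.1, hl.2.2]⟩
  | trans _ _ ih1 ih2 =>
    intro l hl
    obtain ⟨l1, h1, h2⟩ := ih2 l hl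
    obtain ⟨l2, h3, h4⟩ := ih1 l1 h2
    exact ⟨l2, h3.trans h1, h4⟩

theorem subperm_lift {A B : Type} (g : A → B) {x : List B} (l : List A)
    (h : x.Subperm (l.map g)) : ∃ l' : List A, l'.Subperm l ∧ l'.map g = x := by
  obtain ⟨y, h1, h2⟩ := h
  obtain ⟨l1, h3, h4⟩ := List.sublist_map_iff.mp h2
  obtain ⟨l', h5, h6⟩ := perm_lift g h1.symm l1 h4.symm
  exact ⟨l', ⟨l1, h5.symm, h3⟩, h6⟩

theorem Le.subperm {A : Type} [DecidableEq A] {x y : List A} (h : Le x y) : x.Subperm y := by
  rw [List.subperm_ext_iff]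
  intro a _
  exact h.2 a

end pump

end Pool.Agent.R574.LS
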