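import Pool.Agent.R574.LS.Par

set_option autoImplicit false

/-!
Every ET0L language is generated by a left permitting E0L grammar: the leftmost symbol of the word
is a controller which announces the table to be used.
-/

namespace Pool.Agent.R574.LS.Sim

open Relation Pool.Agent.R574.LS

/-- the controller -/
inductive Ctl (P : Type)
  | init
  | tab (p : P)
  | fin

variable {T : Type}

abbrev Tab (G : ET0L T) : Type := {P // P ∈ G.tables}

/-- the nonterminals of the simulating grammar -/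
abbrev NN (G : ET0L T) : Type := Ctl (Tab G) ⊕ (G.N ⊕ T)

/-- a controller symbol -/
def ct (G : ET0L T) (q : Ctl (Tab G)) : NN G ⊕ T := Sum.inl (Sum.inl q)

/-- a copy of a symbol -/
def cp (G : ET0L T) (X : G.N ⊕ T) : NN G ⊕ T := Sum.inl (Sum.inr X)

/-- the rules -/
def rules (G : ET0L T) : Set ((NN G ⊕ T) × List (NN G ⊕ T) × Set (NN G) × Set (NN G)) :=
  {r | (∃ q q' : Ctl (Tab G), q ≠ Ctl.fin ∧ r = (ct G q, [ct G q'], ∅, ∅)) ∨
    r = (ct G Ctl.fin, [], ∅, ∅) ∨
    (∃ X, r = (cp G X, [cp G X], {Sum.inl Ctl.init}, ∅)) ∨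
    (∃ (P : Tab G) (p : (G.N ⊕ T) × List (G.N ⊕ T)), p ∈ P.1 ∧
      r = (cp G p.1, p.2.map (cp G), {Sum.inl (Ctl.tab P)}, ∅)) ∨
    (∃ t, r = (cp G (Sum.inr t), [Sum.inr t], {Sum.inl Ctl.fin}, ∅))}

theorem finite_ctl (P : Type) [Finite P] : Finite (Ctl P) := by
  let f : Ctl P → Option (Option P)
    | Ctl.init => none
    | Ctl.fin => some none
    | Ctl.tab p => some (some p)
  refine Finite.of_injective f ?_
  intro a b h
  cases a <;> cases b <;> simp [f] at h ⊢
  exact h

theorem finite_tab (G : ET0L T) : Finite (Tab G) := G.finite_tables.to_subtype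

theorem finite_rules (G : ET0L T) [Finite T] : (rules G).Finite := by
  have h1 := finite_tab G
  have h2 := finite_ctl (Tab G)
  have h3 := G.finite_N
  have h4 : ∀ P : Tab G, P.1.Finite := fun P => G.finite_rules P.1 P.2
  have e1 : (Set.range (fun q : Ctl (Tab G) × Ctl (Tab G) =>
      ((ct G q.1, [ct G q.2], ∅, ∅) :
        (NN G ⊕ T) × List (NN G ⊕ T) × Set (NN G) × Set (NN G)))).Finite := Set.finite_range _
  have e2 : ({(ct G Ctl.fin, [], ∅, ∅)} :
      Set ((NN G ⊕ T) × List (NN G ⊕ T) × Set (NN G) × Set (NN G))).Finite :=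
    Set.finite_singleton _
  have e3 : (Set.range (fun X : G.N ⊕ T =>
      ((cp G X, [cp G X], {Sum.inl Ctl.init}, ∅) :
        (NN G ⊕ T) × List (NN G ⊕ T) × Set (NN G) × Set (NN G)))).Finite := Set.finite_range _
  have e4 : (⋃ P : Tab G, (fun p : (G.N ⊕ T) × List (G.N ⊕ T) =>
      ((cp G p.1, p.2.map (cp G), {Sum.inl (Ctl.tab P)}, ∅) :
        (NN G ⊕ T) × List (NN G ⊕ T) × Set (NN G) × Set (NN G))) '' P.1).Finite :=
    Set.finite_iUnion (fun P => (h4 P).image _)
  have e5 : (Set.range (fun t : T =>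
      ((cp G (Sum.inr t), [Sum.inr t], {Sum.inl Ctl.fin}, ∅) :
        (NN G ⊕ T) × List (NN G ⊕ T) × Set (NN G) × Set (NN G)))).Finite := Set.finite_range _
  refine ((((e1.union e2).union e3).union e4).union e5).subset ?_
  rintro r (⟨q, q', _, rfl⟩ | rfl | ⟨X, rfl⟩ | ⟨P, p, hp, rfl⟩ | ⟨t, rfl⟩)
  · exact Or.inl (Or.inl (Or.inl (Or.inl ⟨(q, q'), rfl⟩)))
  · exact Or.inl (Or.inl (Or.inl (Or.inr rfl)))
  · exact Or.inl (Or.inl (Or.inr ⟨X, rfl⟩))
  · exact Or.inl (Or.inr (Set.mem_iUnion.mpr ⟨P, p, hp, rfl⟩))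
  · exact Or.inr ⟨t, rfl⟩

/-- the simulating grammar -/
def H (G : ET0L T) [Finite T] : LRC T where
  N := NN G
  finite_N := by
    have h1 := finite_tab G
    have h2 := finite_ctl (Tab G)
    have h3 := G.finite_N
    infer_instance
  rules := rules G
  finite_rules := finite_rules G
  ax := ct G Ctl.init :: G.ax.map (cp G)
  ax_ne := by simp

theorem leftPermitting (G : ET0L T) [Finite T] : (H G).LeftPermitting := by
  intro r hr
  have hr' : r ∈ rules G := hr
  rcases hr' with ⟨q, q', _, rfl⟩ | rfl | ⟨X, rfl⟩ | ⟨P, p, hp, rfl⟩ | ⟨t, rfl⟩ <;> rfl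

theorem ct_inj (G : ET0L T) {q q' : Ctl (Tab G)} (h : ct G q = ct G q') : q = q' :=
  Sum.inl_injective (Sum.inl_injective h)

theorem cp_inj (G : ET0L T) : Function.Injective (cp G) := by
  intro X Y h
  exact Sum.inr_injective (Sum.inl_injective h)

theorem ct_ne_cp (G : ET0L T) (q : Ctl (Tab G)) (X : G.N ⊕ T) : ct G q ≠ cp G X := by
  intro h
  exact absurd (Sum.inl_injective h) (by simp)

theorem rules_cp (G : ET0L T) {X : G.N ⊕ T} {y : List (NN G ⊕ T)} {U W : Set (NN G)}
    (h : (cp G X, y, U, W) ∈ rules G) :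
    (y = [cp G X] ∧ U = {Sum.inl Ctl.init} ∧ W = ∅) ∨
    (∃ (P : Tab G) (z : List (G.N ⊕ T)), (X, z) ∈ P.1 ∧ y = z.map (cp G) ∧
      U = {Sum.inl (Ctl.tab P)} ∧ W = ∅) ∨
    (∃ t, X = Sum.inr t ∧ y = [Sum.inr t] ∧ U = {Sum.inl Ctl.fin} ∧ W = ∅) := by
  rcases h with ⟨q, q', _, h⟩ | h | ⟨Z, h⟩ | ⟨P, p, hp, h⟩ | ⟨t, h⟩
  · exact absurd (congrArg Prod.fst h).symm (ct_ne_cp G _ _)
  · exact absurd (congrArg Prod.fst h).symm (ct_ne_cp G _ _)
  · simp only [Prod.mk.injEq] at h
    obtain ⟨h1, rfl, rfl, rfl⟩ := h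
    have := cp_inj G h1
    subst this
    exact Or.inl ⟨rfl, rfl, rfl⟩
  · simp only [Prod.mk.injEq] at h
    obtain ⟨h1, rfl, rfl, rfl⟩ := h
    have := cp_inj G h1
    subst this
    exact Or.inr (Or.inl ⟨P, p.2, hp, rfl, rfl, rfl⟩)
  · simp only [Prod.mk.injEq] at h
    obtain ⟨h1, rfl, rfl, rfl⟩ := h
    have := cp_inj G h1
    subst this
    exact Or.inr (Or.inr ⟨t, rfl, rfl, rfl, rfl⟩)

/-- what the copies may do, for the controller `q` -/
def Ok (G : ET0L T) (q : Ctl (Tab G)) (u : List (G.N ⊕ T)) (v : List (NN G ⊕ T)) : Prop :=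
  match q with
  | Ctl.init => v = u.map (cp G)
  | Ctl.tab P => ∃ y, App P.1 u y ∧ v = y.map (cp G)
  | Ctl.fin => ∃ w : List T, u = w.map Sum.inr ∧ v = w.map Sum.inr

/-- the controller `q` is the only controller symbol of `l` -/
def Only (G : ET0L T) (q : Ctl (Tab G)) (l : List (NN G ⊕ T)) : Prop :=
  ∀ q', ct G q' ∈ l ↔ q' = q

theorem only_snoc (G : ET0L T) {q : Ctl (Tab G)} {l : List (NN G ⊕ T)} (h : Only G q l)
    (X : G.N ⊕ T) : Only G q (l ++ [cp G X]) := by
  intro q'
  rw [List.mem_append, h q', List.mem_singleton]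
  constructor
  · rintro (h1 | h1)
    · exact h1
    · exact absurd h1 (ct_ne_cp G _ _)
  · exact Or.inl

theorem only_single (G : ET0L T) (q : Ctl (Tab G)) : Only G q [ct G q] := by
  intro q'
  rw [List.mem_singleton]
  exact ⟨fun h => ct_inj G h, fun h => by rw [h]⟩

theorem par_copies (G : ET0L T) {q : Ctl (Tab G)} {l : List (NN G ⊕ T)} (hl : Only G q l)
    {u : List (G.N ⊕ T)} {v : List (NN G ⊕ T)} (h : Par (rules G) l (u.map (cp G)) v) :
    Ok G q u v := by
  induction u generalizing l v with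
  | nil =>
    have h1 := par_nil_inv h
    subst h1
    cases q with
    | init => exact rfl
    | tab P => exact ⟨[], (app_nil _ _).mpr rfl, rfl⟩
    | fin => exact ⟨[], rfl, rfl⟩
  | cons X u ih =>
    rw [List.map_cons] at h
    obtain ⟨y, U, W, v', h1, h2, h3, h4, rfl⟩ := par_cons_inv h
    have h5 := ih (only_snoc G hl X) h4
    rcases rules_cp G h1 with ⟨rfl, rfl, rfl⟩ | ⟨P, z, hz, rfl, rfl, rfl⟩ | ⟨t, rfl, rfl, rfl, rfl⟩
    · have h6 := (hl _).mp (h2 _ rfl)
      subst h6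
      have h7 : v' = u.map (cp G) := h5
      rw [h7]
      exact rfl
    · have h6 := (hl _).mp (h2 _ rfl)
      subst h6
      obtain ⟨y, h7, rfl⟩ := h5
      exact ⟨z ++ y, (app_cons _ _ _ _).mpr ⟨z, y, hz, h7, rfl⟩, by simp⟩
    · have h6 := (hl _).mp (h2 _ rfl)
      subst h6
      obtain ⟨w, rfl, rfl⟩ := h5
      exact ⟨t :: w, rfl, rfl⟩

theorem mk_copies (G : ET0L T) {q : Ctl (Tab G)} {l : List (NN G ⊕ T)} (hl : Only G q l)
    {u : List (G.N ⊕ T)} {v : List (NN G ⊕ T)} (h : Ok G q u v) :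
    Par (rules G) l (u.map (cp G)) v := by
  induction u generalizing l v with
  | nil =>
    have h1 : v = [] := by
      cases q with
      | init => exact h
      | tab P =>
        obtain ⟨y, h1, rfl⟩ := h
        rw [(app_nil _ _).mp h1]
        rfl
      | fin =>
        obtain ⟨w, h1, rfl⟩ := h
        have : w = [] := by
          cases w with
          | nil => rfl
          | cons x w => simp at h1
        rw [this]
        rfl
    subst h1
    exact Par.nil l
  | cons X u ih =>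
    rw [List.map_cons]
    cases q with
    | init =>
      have h1 : v = [cp G X] ++ u.map (cp G) := h
      rw [h1]
      refine Par.cons (U := {Sum.inl Ctl.init}) (W := ∅) ?_ ?_ (by simp) (ih (only_snoc G hl X) rfl)
      · exact Or.inr (Or.inr (Or.inl ⟨X, rfl⟩))
      · intro B hB
        rw [Set.mem_singleton_iff.mp hB]
        exact (hl _).mpr rfl
    | tab P =>
      obtain ⟨y, h1, rfl⟩ := h
      obtain ⟨z, y', h2, h3, rfl⟩ := (app_cons _ _ _ _).mp h1
      rw [List.map_append]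
      refine Par.cons (U := {Sum.inl (Ctl.tab P)}) (W := ∅) ?_ ?_ (by simp)
        (ih (only_snoc G hl X) ⟨y', h3, rfl⟩)
      · exact Or.inr (Or.inr (Or.inr (Or.inl ⟨P, (X, z), h2, rfl⟩)))
      · intro B hB
        rw [Set.mem_singleton_iff.mp hB]
        exact (hl _).mpr rfl
    | fin =>
      obtain ⟨w, h1, rfl⟩ := h
      cases w with
      | nil => simp at h1
      | cons t w =>
        rw [List.map_cons, List.cons.injEq] at h1
        obtain ⟨rfl, rfl⟩ := h1
        refine Par.cons (y := [Sum.inr t]) (U := {Sum.inl Ctl.fin}) (W := ∅) ?_ ?_ (by simp)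
          (ih (only_snoc G hl (Sum.inr t)) ⟨w, rfl, rfl⟩)
        · exact Or.inr (Or.inr (Or.inr (Or.inr ⟨t, rfl⟩)))
        · intro B hB
          rw [Set.mem_singleton_iff.mp hB]
          exact (hl _).mpr rfl

/-- the invariant -/
def Inv (G : ET0L T) (v : List (NN G ⊕ T)) : Prop :=
  (∃ q u, v = ct G q :: u.map (cp G) ∧ ReflTransGen G.Step G.ax u) ∨
  (∃ w : List T, v = w.map Sum.inr ∧ w ∈ G.language)

theorem inv_step (G : ET0L T) {u v : List (NN G ⊕ T)} (hu : Inv G u) (hne : u ≠ [])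
    (h : Par (rules G) [] u v) : Inv G v := by
  rcases hu with ⟨q, x, rfl, hx⟩ | ⟨w, rfl, hw⟩
  · obtain ⟨y, U, W, v', h1, h2, h3, h4, rfl⟩ := par_cons_inv h
    have h5 := par_copies G (only_single G q) h4
    cases q with
    | init =>
      have h6 : v' = x.map (cp G) := h5
      rcases h1 with ⟨q, q', h7, h8⟩ | h8 | ⟨Z, h8⟩ | ⟨P, p, hp, h8⟩ | ⟨t, h8⟩
      · simp only [Prod.mk.injEq] at h8
        obtain ⟨h9, rfl, rfl, rfl⟩ := h8
        exact Or.inl ⟨q', x, by rw [h6]; rfl, hx⟩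
      · simp only [Prod.mk.injEq] at h8
        exact absurd (ct_inj G h8.1) (by simp)
      · exact absurd (congrArg Prod.fst h8) (ct_ne_cp G _ _)
      · exact absurd (congrArg Prod.fst h8) (ct_ne_cp G _ _)
      · exact absurd (congrArg Prod.fst h8) (ct_ne_cp G _ _)
    | tab Q =>
      obtain ⟨z, h6, rfl⟩ := h5
      have h10 : ReflTransGen G.Step G.ax z := by
        by_cases hx0 : x = []
        · subst hx0
          rw [(app_nil _ _).mp h6]
          exact hx
        · exact hx.tail ⟨hx0, Q.1, Q.2, h6⟩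
      rcases h1 with ⟨q, q', h7, h8⟩ | h8 | ⟨Z, h8⟩ | ⟨P, p, hp, h8⟩ | ⟨t, h8⟩
      · simp only [Prod.mk.injEq] at h8
        obtain ⟨h9, rfl, rfl, rfl⟩ := h8
        exact Or.inl ⟨q', z, rfl, h10⟩
      · simp only [Prod.mk.injEq] at h8
        exact absurd (ct_inj G h8.1) (by simp)
      · exact absurd (congrArg Prod.fst h8) (ct_ne_cp G _ _)
      · exact absurd (congrArg Prod.fst h8) (ct_ne_cp G _ _)
      · exact absurd (congrArg Prod.fst h8) (ct_ne_cp G _ _)
    | fin =>
      obtain ⟨w, rfl, rfl⟩ := h5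
      rcases h1 with ⟨q, q', h7, h8⟩ | h8 | ⟨Z, h8⟩ | ⟨P, p, hp, h8⟩ | ⟨t, h8⟩
      · simp only [Prod.mk.injEq] at h8
        exact absurd (ct_inj G h8.1).symm h7
      · simp only [Prod.mk.injEq] at h8
        obtain ⟨h9, rfl, rfl, rfl⟩ := h8
        exact Or.inr ⟨w, rfl, hx⟩
      · exact absurd (congrArg Prod.fst h8) (ct_ne_cp G _ _)
      · exact absurd (congrArg Prod.fst h8) (ct_ne_cp G _ _)
      · exact absurd (congrArg Prod.fst h8) (ct_ne_cp G _ _)
  · cases w with
    | nil => exact absurd rfl hne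
    | cons t w =>
      rw [List.map_cons] at h
      obtain ⟨y, U, W, v', h1, h2, h3, h4, rfl⟩ := par_cons_inv h
      rcases h1 with ⟨q, q', h7, h8⟩ | h8 | ⟨Z, h8⟩ | ⟨P, p, hp, h8⟩ | ⟨t, h8⟩ <;>
        exact absurd (congrArg Prod.fst h8) (by simp [ct, cp])

theorem language_eq (G : ET0L T) [Finite T] : (H G).language = G.language := by
  ext w
  constructor
  · intro hw
    have key : ∀ v : List (NN G ⊕ T), ReflTransGen (H G).Step (H G).ax v → Inv G v := by
      intro v hv
      induction hv with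
      | refl => exact Or.inl ⟨Ctl.init, G.ax, rfl, ReflTransGen.refl⟩
      | tail _ h2 ih =>
        have h3 := (LRC.step_iff (H G) _ _).mp h2
        exact inv_step G ih h3.1 h3.2
    rcases key _ hw with ⟨q, u, h1, _⟩ | ⟨w', h1, h2⟩
    · cases w with
      | nil => simp at h1
      | cons t w =>
        have h3 : (Sum.inr t : NN G ⊕ T) = ct G q := (List.cons.inj h1).1
        exact absurd h3 (by simp [ct])
    · have : w = w' := List.map_injective_iff.mpr Sum.inr_injective h1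
      rw [this]
      exact h2
  · intro hw
    have key : ∀ u : List (G.N ⊕ T), ReflTransGen G.Step G.ax u → ∀ q,
        ReflTransGen (H G).Step (H G).ax (ct G q :: u.map (cp G)) := by
      intro u hu
      induction hu with
      | refl =>
        intro q
        refine (ReflTransGen.refl).tail ((LRC.step_iff (H G) _ _).mpr
          ⟨(H G).ax_ne, ?_⟩)
        exact Par.cons (X := ct G Ctl.init) (y := [ct G q]) (U := ∅) (W := ∅)
          (Or.inl ⟨Ctl.init, q, by simp, rfl⟩) (by simp) (by simp)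
          (mk_copies G (only_single G _) (q := Ctl.init) rfl)
      | tail h1 h2 ih =>
        intro q
        obtain ⟨h3, P, hP, h4⟩ := h2
        refine (ih (Ctl.tab ⟨P, hP⟩)).tail ((LRC.step_iff (H G) _ _).mpr
          ⟨by simp, ?_⟩)
        exact Par.cons (X := ct G (Ctl.tab ⟨P, hP⟩)) (y := [ct G q]) (U := ∅) (W := ∅)
          (Or.inl ⟨Ctl.tab ⟨P, hP⟩, q, by simp, rfl⟩) (by simp) (by simp)
          (mk_copies G (only_single G _) (q := Ctl.tab ⟨P, hP⟩) ⟨_, h4, rfl⟩)
    refine (key _ hw Ctl.fin).tail ((LRC.step_iff (H G) _ _).mpr ⟨by simp, ?_⟩)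
    exact Par.cons (X := ct G Ctl.fin) (y := []) (U := ∅) (W := ∅)
      (Or.inr (Or.inl rfl)) (by simp) (by simp)
      (mk_copies G (only_single G _) (q := Ctl.fin) ⟨w, rfl, rfl⟩)

end Pool.Agent.R574.LS.Sim
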